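import Pool.Agent.P.MP_e4ac67_pr.A.Crs

/-! From the skip properties to the marked arc. -/

namespace Pool.Agent.P.MP_e4ac67_pr.Gr
open PlaneTri Grid

variable {G : Grid} {V V' : Type} {T : PlaneTri V} {T' : PlaneTri V'} {W : Pt → Pt → Prop}
  {c : Pt → ℕ} {k N g : ℕ} {ψ : Pt → V'} {o top z v u b t f l : Pt} {L R st w C₁ C₂ : List Pt}
  {n : V → V → ℤ}

theorem Grid.TubeOK.lo_def (hW : G.TubeOK W c) (hz : 1 ≤ z.1) (h : b ≠ z) (f : Pt) :
    G.lo W z b f ≤ 1 ∧ W z (G.lk z (G.lo W z b f)) ∧ (W z (G.nb z 1) → G.lo W z b f = 1) := by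
  have := G.seven_le z
  rw [Grid.lo, if_neg h]
  split_ifs with e
  · exact ⟨le_rfl, by rwa [lk_eq (by omega)], fun _ => rfl⟩
  · exact ⟨by omega, hW.nb hz (Nat.mod_lt _ (by omega)) (Or.inl (Nat.zero_mod _)),
      fun e' => absurd e' e⟩

theorem Grid.TubeOK.hi_def (hW : G.TubeOK W c) (hz : 1 ≤ z.1) (h : b ≠ z) (f : Pt) :
    G.gap z + 3 ≤ G.hi W z b f ∧ G.hi W z b f ≤ G.gap z + 4 ∧ W z (G.lk z (G.hi W z b f)) ∧
      (W z (G.nb z (G.gap z + 3)) → G.hi W z b f = G.gap z + 3) := by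
  have := G.tau_le z
  have e0 : G.dg z = G.gap z + 4 + G.tau z := rfl
  rw [Grid.hi, if_neg h]
  split_ifs with e
  · exact ⟨le_rfl, by omega, by rwa [lk_eq (by omega)], fun _ => rfl⟩
  · refine ⟨by omega, le_rfl, hW.nb hz (Nat.mod_lt _ (by omega)) ?_, fun e' => absurd e' e⟩
    rw [mod_two (by omega)]
    split_ifs <;> omega

theorem Grid.lk_ne (hz : 1 ≤ z.1) {a b : ℕ} (h : a < b) (h' : b < a + G.dg z) (hb : b ≤ G.dg z) :
    G.lk z a ≠ G.lk z b := fun e => by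
  have e := congrArg (G.ps z) e
  rw [ps_lk hz (by omega), ps_lk hz (by omega)] at e
  split_ifs at e <;> omega

theorem Emb.rg (E : Emb G T) (hv : 1 ≤ v.1) (h : G.Adj v t) (r : ℕ) :
    E.π (G.rg v t r) = T.rot (E.π v) (E.π t) r := by
  rw [← lk_ps hv h, E.rot_lk hv, lk_ps hv h]
  rfl

theorem Grid.TubeOK.left (hW : G.TubeOK W c) (h3 : 3 ≤ G.gap z) (hz : 1 ≤ z.1) (h : G.Adj z f)
    (hf : ¬Wz W z f) (hg : g = c z ∨ g = c z + 1) :
    1 ≤ G.ps z f ∧ G.ps z f ≤ G.gap z + 3 ∧ (G.Rt z g f ↔ g ≤ G.ps z f) := by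
  have h1 := hW.ps hz h hf
  have := hW.cp z
  have h2 := rt_nb (z := z) (g := g) (by omega) (by omega) (i := G.ps z f) (by omega) h1.2.2
  rw [(ps_spec hz h).2] at h2
  exact ⟨by omega, h1.2.2, h2⟩

theorem Grid.Cross.not (h : G.Cross c z (itr W z L) (itr W z R) f l) : ¬Wz W z f ∧ ¬Wz W z l := by
  have h1 := List.mem_of_head? h.fst
  have h2 := List.mem_of_getLast? h.lst
  simp only [List.mem_append, List.mem_reverse] at h1 h2
  exact ⟨h1.elim itr_not itr_not, h2.elim itr_not itr_not⟩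

/-- the last arc of the word of a vertex of the branch `R` -/
theorem Grid.Fail.far (F : G.Fail W c k T' ψ o N L R top st)
    (Z : G.Zd W c k N o top L R st z g) {lo hi : ℕ} {x : Pt}
    (h : z = top ∨ ∃ D, R = C₁ ++ z :: D ∧ C₂ = D ++ top :: L.reverse)
    (h1 : ∀ i, lo ≤ i → i ≤ hi → G.lk z i ≠ C₂.headD x)
    (h2 : ∀ t f, G.Adj z t → ¬Wz W z t → (itr W z (L ++ top :: st)).getLast? = some f →
      (G.Rt z g t ↔ G.Rt z (c z) f) → lo ≤ G.ps z t ∧ G.ps z t ≤ hi) :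
    G.Far W z (R ++ top :: st) (top :: st) (itr W z (L ++ top :: st)) lo hi := by
  rcases h with rfl | ⟨D, e1, e2⟩
  · exact Or.inl rfl
  have e3 := head_eq D top st
  have e4 : C₂.headD x = D.headD top := by cases D <;> simp [e2]
  have s : z :: (D ++ top :: st) <:+ R ++ top :: st := ⟨C₁, by simp [e1]⟩
  refine Or.inr ⟨D ++ top :: st, s, List.suffix_append _ _, fun v v1 v2 => ?_, fun i i1 i2 e => ?_⟩
  · have m := F.meet (fun v hv => by simp [e1, hv]) v1 v2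
    rw [e3] at s v1 m
    have a := F.brQ.adj s
    have nt : ¬Wz W z (D.headD top) := fun e => by rw [itr_neg e] at v1; simp at v1
    obtain ⟨b1, b2⟩ := Z.arr R (Or.inr rfl) _ _ s (e3 ▸ List.suffix_append _ _)
    obtain ⟨f, hf⟩ : ∃ f, (itr W z (L ++ top :: st)).getLast? = some f :=
      ⟨_, List.getLast?_eq_some_getLast (List.ne_nil_of_mem v2)⟩
    have := h2 _ f a nt hf (b2 ▸ b1.side nt f (m.trans hf))
    exact h1 _ this.1 this.2 ((lk_ps (by have := F.lev Z.hm; omega) a).trans e4.symm)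
  · rw [e3] at e
    exact h1 i i1 i2 (e4 ▸ (Option.some.inj e).symm)

namespace Ctx
variable {E : Emb G T} (Y : Ctx T' W c k N ψ o top L R st n E)
include Y

theorem cl_lk (hz : 1 ≤ z.1) {i : ℕ} (h : n (E.π z) (E.π (G.lk z i)) = 1) :
    T.Cl n (E.π z) ∧ T.Cl n (E.π (G.lk z i)) ∧ T.Cl n (E.π (G.lk z (i + 1))) := by
  have := Y.wn.cl_face (E.adj_lk hz i) h
  rwa [← rot_one, E.rot_lk hz] at this

variable (T' W k ψ top L R n E) in
omit Y in
/-- a window of faces around the cut -/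
structure Wd (z : Pt) (g lo hi : ℕ) (bL bR : Pt) (C₁ : List Pt) (b : Pt) (C₂ : List Pt)
    (p q B : ℕ) : Prop where
  sp : cl L R top = C₁ ++ b :: C₂
  wb : Wz W z b
  zb : z ∈ cl L R top → b = z
  nr : z ∈ cl L R top → ∀ u ∈ cl L R top, G.Adj z u →
    n (E.π z) (E.π u) = 1 ∨ n (E.π u) (E.π z) = 1 → T'.G.Adj (ψ z) (ψ u)
  w1 : lo ≤ p
  w2 : q ≤ hi
  w3 : p < g
  w4 : g ≤ q
  w5 : hi ≤ G.dg z ∧ hi < lo + G.dg z
  w6 : 2 ≤ B ∧ B ≤ 5
  w7 : p + 1 ≤ B ∨ p ≤ 1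
  w8 : B + G.dg z ≤ q + k ∨ G.dg z ≤ q + 2
  fc : ∀ i, p ≤ i → i < q → n (E.π z) (E.π (G.lk z i)) = 1
  sL : G.lk z p ∉ C₂ → p = lo ∧ bL ≠ z ∧ (bR = z → ∀ i, lo ≤ i → i ≤ hi → G.lk z i ≠ C₂.headD top)
  sR : G.lk z q ∉ C₁ → q = hi ∧ bR ≠ z ∧
    (bL = z → ∀ i, lo ≤ i → i ≤ hi → G.lk z i ≠ C₁.reverse.headD top)
  zL : bL = z → p = lo
  zR : bR = z → q = hi

theorem bas_mem (hz : G.Hm o N z) (zs : z ∉ st) {B : List Pt} (hB : B = L ∨ B = R)
    (e : bas W z (B ++ top :: st) = z) : z ∈ cl L R top := by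
  obtain ⟨r, e', -⟩ := itr_bas (Y.F.base (w := B ++ top :: st) Y.hW hz ⟨B ++ [top], by simp⟩)
  rw [e] at e'
  exact Fail.mem hB (by rw [e']; simp) zs

theorem win (Z : G.Zd W c k N o top L R st z g) (hn : n (E.π z) (E.π (G.lk z (g - 1))) = 1)
    (cr : G.Cross c z (itr W z (L ++ top :: st)) (itr W z (R ++ top :: st)) f l)
    (hb : ∃ b ∈ cl L R top, Wz W z b)
    (h : T.Inn n (E.π z) ∨ ∃ C₁ a b C₂ t w, cl L R top = C₁ ++ a :: z :: b :: C₂ ∧
      G.Bk W c k z t w ∧ G.Cor W c k z (t :: w) b a ∧ g = G.gc W c k z (t :: w) ∧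
      ∀ u ∈ cl L R top, G.Adj z u → n (E.π z) (E.π u) = 1 ∨ n (E.π u) (E.π z) = 1 →
        T'.G.Adj (ψ z) (ψ u)) :
    ∃ C₁ b C₂ p q B, Wd T' W k ψ top L R n E z g (G.lo W z (bas W z (L ++ top :: st)) f)
      (G.hi W z (bas W z (R ++ top :: st)) l) (bas W z (L ++ top :: st)) (bas W z (R ++ top :: st))
      C₁ b C₂ p q B := by
  have hz : 1 ≤ z.1 := by have := Y.F.lev Z.hm; omega
  have h3 := gap_ge Y.h7 Z.ex
  have hc := Y.hW.cp z
  have hg := Z.cut
  have hD : G.dg z = G.gap z + 4 + G.tau z := rfl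
  have ht := G.tau_le z
  have zs := Y.not_st (Y.cl_lk hz hn).1
  have lo1 := fun e => Y.hW.lo_def hz (b := bas W z (L ++ top :: st)) e f
  have hi1 := fun e => Y.hW.hi_def hz (b := bas W z (R ++ top :: st)) e l
  have lo2 : bas W z (L ++ top :: st) = z → G.lo W z (bas W z (L ++ top :: st)) f = G.ps z f :=
    fun e => if_pos e
  have hi2 : bas W z (R ++ top :: st) = z → G.hi W z (bas W z (R ++ top :: st)) l = G.ps z l :=
    fun e => if_pos e
  generalize G.lo W z (bas W z (L ++ top :: st)) f = lo at *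
  generalize G.hi W z (bas W z (R ++ top :: st)) l = hi at *
  have hh' : bas W z (L ++ top :: st) ≠ z → bas W z (R ++ top :: st) ≠ z → hi < lo + G.dg z :=
    fun e1 e2 => by
      have a1 := (lo1 e1).2.2
      have a2 := hi1 e2
      by_contra e
      rcases Y.hW.two z (by omega) with h | h
      · have := a1 h; omega
      · have := a2.2.2.2 h; omega
  rcases h with h | ⟨C₁, a, b, C₂, t, w, e, bk, co, rfl, nr⟩
  · have zc : z ∉ cl L R top := fun e => by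
      obtain ⟨j, j1, j2⟩ := cyc_ex e
      exact Y.wn.not_inn E.h6 (Y.F.cy E) ⟨j, j1, congrArg E.π j2⟩ h
    have n1 := fun e => zc (Y.bas_mem Z.hm zs (Or.inl rfl) e)
    have n2 := fun e => zc (Y.bas_mem Z.hm zs (Or.inr rfl) e)
    obtain ⟨b, b1, b2⟩ := hb
    obtain ⟨C₁, C₂, e⟩ := List.append_of_mem b1
    have a1 := (lo1 n1).1
    have a2 := hi1 n2
    exact ⟨C₁, b, C₂, lo, hi, 4, e, b2, fun e => absurd e zc, fun e => absurd e zc, le_rfl, le_rfl,
      by omega, by omega, ⟨by omega, hh' n1 n2⟩, by omega, by omega, by omega,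
      fun i _ _ => h _ (E.adj_lk hz i), fun _ => ⟨rfl, n1, fun e => absurd e n2⟩,
      fun _ => ⟨rfl, n2, fun e => absurd e n1⟩, fun _ => rfl, fun _ => rfl⟩
  · have e' : cl L R top = (C₁ ++ [a]) ++ z :: b :: C₂ := by simp [e]
    have i1 := cyc_at e'
    have i2 := cyc_next e'
    have i3 := cyc_at e
    simp only [List.length_append, List.length_singleton, List.headD_cons] at i1 i2
    have l1 : C₁.length + 1 < (cl L R top).length := by simp [e]
    have a1 : G.Adj z b := i1 ▸ i2 ▸ cyc_rel Y.F.chain l1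
    have a2 : G.Adj z a := i1 ▸ i3 ▸ (cyc_rel Y.F.chain (t := C₁.length) (by omega)).symm
    have hc := fun s => Y.corner (s := s) l1 (j := C₁.length) (by omega) rfl i1
    rw [i2, i3] at hc
    have p1 := ps_spec hz a1
    have p2 := ps_spec hz a2
    have zL : bas W z (L ++ top :: st) = z → lo = G.ps z b ∧ 1 ≤ lo ∧ lo < c z := fun e => by
      have e1 := ((Y.F.symm.sideR Y.hW Z.hm (cl_rev e') (Or.inl rfl)).2.2 e).1
      have e2 := cr.fst
      rw [e1] at e2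
      obtain rfl : b = f := by simpa using e2
      have := Y.hW.left h3 hz a1 cr.not.1 (Or.inl rfl)
      have := mt this.2.2.2 cr.left
      have := lo2 e
      omega
    have zR : bas W z (R ++ top :: st) = z → hi = G.ps z a ∧ hi ≤ G.gap z + 3 ∧ c z < hi :=
      fun e => by
      have e1 := ((Y.F.sideR Y.hW Z.hm e' (Or.inl rfl)).2.2 e).1
      have e2 := cr.lst
      rw [e1, ← List.append_assoc, List.getLast?_concat] at e2
      obtain rfl := Option.some.inj e2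
      have := Y.hW.left h3 hz a2 cr.not.2 (Or.inr rfl)
      have := this.2.2.1 cr.right
      have := hi2 e
      omega
    have ne : ∀ x i, i < G.dg z → G.lk z i = x → i = G.ps z x := fun x i h2 h3 => by
      rw [← h3, ps_lk hz (by omega), if_pos h2]
    have hh : hi ≤ G.dg z ∧ hi < lo + G.dg z := by
      by_cases e1 : bas W z (L ++ top :: st) = z <;> by_cases e2 : bas W z (R ++ top :: st) = z
      · have := zR e2; omega
      · have := zL e1; have := hi1 e2; omega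
      · have := zR e2; omega
      · have := hi1 e2
        exact ⟨by omega, hh' e1 e2⟩
    obtain ⟨p, q, w1, w2, w3, w4, w5, w6, w7, w8, w9, w10, w11⟩ := win_arith p1.1 p2.1 Z.ex Y.h7
      (Y.hW.cp z) hg bk.two bk.le bk.ge co (fun e => (lo1 e).1) (fun e => ⟨(zL e).1, (zL e).2.2⟩)
      (fun e => by have := hi1 e; omega) (fun e => ⟨(zR e).1, (zR e).2.2⟩) hh.1
    refine ⟨_, z, _, p, q, _, e', Or.inl rfl, fun _ => rfl, fun _ => nr, w1, w2, w3, w4, hh,
      ⟨bk.two, by have := bk.le; omega⟩, w5, w6, fun i i1 i2 => by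
        rw [hc i (by omega), if_pos (w7 i i1 i2)], fun h => ?_, fun h => ?_, w10, w11⟩
    · obtain ⟨e1, e2, e3⟩ := w8.resolve_left fun e => h (by simp [e, lk_ps hz a1])
      refine ⟨e1, e2, fun e i i1 i2 e' => ?_⟩
      have := zR e
      have := e3 e
      have := ne b i (by omega) e'
      omega
    · obtain ⟨e1, e2, e3⟩ := w9.resolve_left fun e => h (by simp [e, lk_ps hz a2])
      refine ⟨e1, e2, fun e i i1 i2 e' => ?_⟩
      have e' : G.lk z i = a := by simpa using e'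
      have : i ≠ q := fun e => h (by simp [← e, e'])
      have := e3 e
      have := ne a i (by omega) e'
      omega

omit Y
namespace Wd
variable {lo hi p q B : ℕ} {bL bR : Pt} (D : Wd T' W k ψ top L R n E z g lo hi bL bR C₁ b C₂ p q B)
  (Y : Ctx T' W c k N ψ o top L R st n E)
include D Y

theorem cs (hz : 1 ≤ z.1) (i : ℕ) (i1 : p ≤ i) (i2 : i ≤ q) : T.Cl n (E.π (G.lk z i)) := by
  have := D.w3
  have := D.w4
  rcases i2.lt_or_eq with i2 | rfl
  · exact (Y.cl_lk hz (D.fc i i1 i2)).2.1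
  · have := (Y.cl_lk hz (D.fc (i - 1) (by omega) (by omega))).2.2
    rwa [show i - 1 + 1 = i by omega] at this

variable (Z : G.Zd W c k N o top L R st z g)
include Z

theorem late : (∀ u ∈ itr W z (L ++ top :: st), T.Cl n (E.π u) → u ∈ b :: C₂ ∧ u ∉ C₁ ++ [b]) ∧
    (T.Cl n (E.π (bas W z (L ++ top :: st))) → bas W z (L ++ top :: st) ∈ b :: C₂) := by
  have cL := Y.F.symm.sideR Y.hW Z.hm (cl_rev D.sp) D.wb
  have nd := D.sp ▸ (List.nodup_append.1 Y.F.nd).1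
  refine ⟨fun u hu h => ?_, fun h => by simpa [or_comm] using cL.2.1 (Y.not_st h)⟩
  have := List.mem_reverse.1 (cL.1 u hu (Y.not_st h))
  clear * - nd this
  grind

theorem early : (∀ u ∈ itr W z (R ++ top :: st), T.Cl n (E.π u) → u ∈ C₁ ++ [b] ∧ u ∉ b :: C₂) ∧
    (T.Cl n (E.π (bas W z (R ++ top :: st))) → bas W z (R ++ top :: st) ∈ C₁ ++ [b]) := by
  have cR := Y.F.sideR Y.hW Z.hm D.sp D.wb
  have nd := D.sp ▸ (List.nodup_append.1 Y.F.nd).1
  refine ⟨fun u hu h => ?_, fun h => cR.2.1 (Y.not_st h)⟩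
  have := cR.1 u hu (Y.not_st h)
  clear * - nd this
  grind

theorem near {B' : List Pt} (hB : B' = L ∨ B' = R) (e : bas W z (B' ++ top :: st) = z) {a a' : ℕ}
    (a1 : p ≤ a) (a2 : a' ≤ q) : G.Near T' ψ z (itr W z (B' ++ top :: st)) a a' := by
  intro i i1 i2 h
  have hz : 1 ≤ z.1 := by have := Y.F.lev Z.hm; omega
  have := D.w3
  have := D.w4
  refine D.nr (Y.bas_mem Z.hm (Y.not_st (Y.cl_lk hz (D.fc p le_rfl (by omega))).1) hB e) _
    (Fail.mem hB (itr_sub h) (Y.not_st (D.cs Y hz i (by omega) (by omega)))) (adj_lk hz i) ?_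
  rcases (show i < q ∨ i = q by omega) with i3 | rfl
  · exact Or.inl (D.fc i (by omega) i3)
  · have := Y.wn.back (E.adj_lk hz (i - 1)) 0
    rw [E.rot_lk hz, E.rot_lk hz, show i - 1 + (0 + 1) = i by omega] at this
    exact Or.inr (this.trans (D.fc _ (by omega) (by omega)))

theorem idx {a d : ℕ} (d1 : 0 < d) (a1 : p ≤ a) (a2 : a + d ≤ q) (h1 : G.lk z a ∈ b :: C₂)
    (h2 : G.lk z (a + d) ∈ C₁ ++ [b]) : ∃ j' j, j' ≤ C₁.length ∧ C₁.length ≤ j ∧ j' < j ∧
      j < (cl L R top).length ∧ cyc L R top j = G.lk z a ∧ cyc L R top j' = G.lk z (a + d) ∧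
      ∀ t < (cl L R top).length, E.π (cyc L R top t) = E.π z → j' < t ∧ t < j := by
  have hz : 1 ≤ z.1 := by have := Y.F.lev Z.hm; omega
  have x0 := cyc_at D.sp
  have m0 : C₁.length < (cl L R top).length := by simp [D.sp]
  obtain ⟨j, j1, j2, e1⟩ : ∃ j < (cl L R top).length, C₁.length ≤ j ∧ cyc L R top j = G.lk z a := by
    rcases List.mem_cons.1 h1 with hu | hu
    · exact ⟨_, m0, le_rfl, x0.trans hu.symm⟩
    · obtain ⟨j, j1, j2, j3⟩ := cyc_snd D.sp hu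
      exact ⟨j, j1, j2.le, j3⟩
  obtain ⟨j', j3, e2⟩ : ∃ j ≤ C₁.length, cyc L R top j = G.lk z (a + d) := by
    rcases List.mem_append.1 h2 with hu | hu
    · obtain ⟨j, j1, j2⟩ := cyc_fst D.sp hu
      exact ⟨j, j1.le, j2⟩
    · exact ⟨_, le_rfl, x0.trans (List.mem_singleton.1 hu).symm⟩
  have := D.w1
  have := D.w2
  have := D.w5
  refine ⟨j', j, j3, j2, (j3.trans j2).lt_of_ne fun e => lk_ne (G := G) hz (a := a) (b := a + d)
    (by omega) (by omega) (by omega) (by rw [← e1, ← e2, e]), j1, e1, e2, fun t t1 e => ?_⟩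
  have e := E.inj _ _ (cone_one (Y.F.cone (Y.F.hF t1.le))) (cone_one (Y.F.cone Z.hm)) e
  obtain rfl := Y.F.inj' t1 m0 (e.trans ((D.zb (e ▸ cyc_mem t1)).symm.trans x0.symm))
  exact ⟨j3.lt_of_ne fun e' => (adj_lk hz (a + d)).ne (by rw [← e2, e', e]),
    j2.lt_of_ne fun e' => (adj_lk hz a).ne (by rw [← e1, ← e', e])⟩

theorem skip (sk : T.Skip k (fun i => E.π (cyc L R top i)) (cl L R top).length n (E.π z))
    {a a' : ℕ} (a1 : p ≤ a) (a2 : a' ≤ q) (a3 : a + G.dg z ≤ a' + k) (a4 : G.lk z a ∈ b :: C₂)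
    (a5 : G.lk z a' ∈ C₁ ++ [b])
    (a6 : ∀ i, a ≤ i → i ≤ a' → G.lk z i ∈ b :: C₂ ∨ G.lk z i ∈ C₁ ++ [b]) : False := by
  have hz : 1 ≤ z.1 := by have := Y.F.lev Z.hm; omega
  have := Z.ex
  have := D.w1
  have := D.w2
  have := D.w5
  obtain ⟨d, rfl⟩ := Nat.exists_eq_add_of_le (show a ≤ a' by omega)
  obtain ⟨j', j, -, -, y1, j1, j3, j5, y2⟩ := D.idx Y Z (by omega) a1 a2 a4 a5
  refine sk j' j d y1 j1 (by simp only [j3]; exact E.adj_lk hz a)
    (by simp only [j3, j5, E.rot_lk hz])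
    (by rw [E.deg z hz]; omega) (by rw [E.deg z hz]; omega)
    (fun i hi => by simp only [j3, E.rot_lk hz]; exact D.fc _ (by omega) (by omega)) (fun i hi => ?_) y2
  obtain ⟨s, s1, s2⟩ := cyc_ex (L := L) (R := R) (top := top) (u := G.lk z (a + i)) (by
    have := a6 (a + i) (by omega) (by omega)
    simp [D.sp] at this ⊢; tauto)
  exact ⟨s, s1, by simp only [s2, j3, E.rot_lk hz]⟩

theorem skip2 (sk2 : T.Skip2 k (fun i => E.π (cyc L R top i)) (cl L R top).length n (E.π z))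
    (e : G.dg z = k + 1) (i : ℕ) (i1 : p < i) (i2 : i < q) (n1 : G.lk z i ∉ b :: C₂)
    (n2 : G.lk z i ∉ C₁ ++ [b]) :
    ¬(G.lk z (i - 1) ∈ bas W z (L ++ top :: st) :: itr W z (L ++ top :: st) ∧
      G.rg (G.lk z i) z 2 ∈ itr W z (L ++ top :: st) ∧
      G.lk z (i + 1) ∈ bas W z (R ++ top :: st) :: itr W z (R ++ top :: st) ∧
      G.rg (G.lk z i) z (G.dg (G.lk z i) - 2) ∈ itr W z (R ++ top :: st)) := by
  rintro ⟨s1, s2, s3, s4⟩
  have hz : 1 ≤ z.1 := by have := Y.F.lev Z.hm; omega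
  obtain ⟨i, rfl⟩ : ∃ a, i = a + 1 := ⟨i - 1, by omega⟩
  have c1 := D.cs Y hz i (by omega) (by omega)
  have c2 := D.cs Y hz (i + 2) (by omega) (by omega)
  rw [Nat.add_sub_cancel] at s1
  obtain ⟨j', j, j4, j2, y1, j1, j3, j5, y2⟩ := D.idx Y Z (a := i) (d := 2) (by omega) (by omega)
    (by omega) ((List.mem_cons.1 s1).elim (fun e => e ▸ (D.late Y Z).2 (e ▸ c1))
      fun e => ((D.late Y Z).1 _ e c1).1) ((List.mem_cons.1 s3).elim
        (fun e => e ▸ (D.early Y Z).2 (e ▸ c2)) fun e => ((D.early Y Z).1 _ e c2).1)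
  have u1 := (adj_lk (G := G) hz (i + 1)).symm
  have u2 : 1 ≤ (G.lk z (i + 1)).1 := by have := u1.lev; have := Y.F.lev Z.hm; omega
  have u3 : ¬On (fun i => E.π (cyc L R top i)) (cl L R top).length (E.π (G.lk z (i + 1))) :=
    fun h => by
      have := Y.F.on E (cone_nb (Y.F.cone Z.hm) (Nat.zero_le _) u1.symm) h
      simp [D.sp] at this n1 n2; tauto
  have u4 := Y.wn.inn (Y.F.cy E) u3 (D.cs Y hz _ i1.le i2.le)
  have u5 : ∀ r, G.rg (G.lk z (i + 1)) z r ∉ st := fun r => Y.not_st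
    (Y.wn.cl_face (E.adj u2 (adj_rg u2 z r)) (u4 _ (E.adj u2 (adj_rg u2 z r)))).2.1
  obtain ⟨s, t1, t2, t3⟩ := cyc_snd D.sp (List.mem_reverse.1
    ((Y.F.symm.sideR Y.hW Z.hm (cl_rev D.sp) D.wb).1 _ s2 (u5 _)))
  obtain ⟨s', t4, t5⟩ := cyc_fst D.sp ((Y.F.sideR Y.hW Z.hm D.sp D.wb).1 _ s4 (u5 _))
  exact sk2 j' j s s' y1 j1 t1 (by omega) (by omega) (by rw [E.deg z hz, e])
    (by simp only [j3]; exact E.adj_lk hz i) (by simp only [j3, j5, E.rot_lk hz])
    (fun i hi => by simp only [j3, E.rot_lk hz]; exact D.fc _ (by omega) (by omega))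
    (by simpa only [j3, E.rot_lk hz] using u3) y2 (by simp only [j3, E.rot_lk hz, t3, E.rg u2 u1])
    (by simp only [j3, E.rot_lk hz, t5, E.rg u2 u1, E.deg _ u2])

end Wd
include Y

theorem arc (Z : G.Zd W c k N o top L R st z g) (hn : n (E.π z) (E.π (G.lk z (g - 1))) = 1)
    (sk : T.Skip k (fun i => E.π (cyc L R top i)) (cl L R top).length n (E.π z))
    (sk2 : T.Skip2 k (fun i => E.π (cyc L R top i)) (cl L R top).length n (E.π z))
    (h : T.Inn n (E.π z) ∨ ∃ C₁ a b C₂ t w, cl L R top = C₁ ++ a :: z :: b :: C₂ ∧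
      G.Bk W c k z t w ∧ G.Cor W c k z (t :: w) b a ∧ g = G.gc W c k z (t :: w) ∧
      ∀ u ∈ cl L R top, G.Adj z u → n (E.π z) (E.π u) = 1 ∨ n (E.π u) (E.π z) = 1 →
        T'.G.Adj (ψ z) (ψ u)) :
    G.MArc W c k T' ψ z (L ++ top :: st) (R ++ top :: st) (top :: st) := by
  obtain ⟨f, l, cr, dj, hb⟩ := Y.cross Z hn
  obtain ⟨C₁, b, C₂, p, q, B, D⟩ := Y.win Z hn cr hb h
  refine ⟨f, l, _, _, rfl, rfl, cr, dj, ?_⟩
  have hz : 1 ≤ z.1 := by have := Y.F.lev Z.hm; omega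
  have h3 := gap_ge Y.h7 Z.ex
  have hc := Y.hW.cp z
  have hg := Z.cut
  have hD : G.dg z ≤ G.gap z + 5 := by have := G.tau_le z; unfold Grid.dg; omega
  have zs := Y.not_st (Y.cl_lk hz hn).1
  have lo1 := fun e => Y.hW.lo_def hz (b := bas W z (L ++ top :: st)) e f
  have hi1 := fun e => Y.hW.hi_def hz (b := bas W z (R ++ top :: st)) e l
  have lo4 : ∀ t, G.Adj z t → ¬Wz W z t → bas W z (L ++ top :: st) ≠ z →
      G.lo W z (bas W z (L ++ top :: st)) f < G.ps z t := fun t a a' e => by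
    have := (Y.hW.ps hz a a').1
    rw [Grid.lo, if_neg a.ne.symm] at this
    rwa [Grid.lo, if_neg e]
  have hi4 : ∀ t, G.Adj z t → ¬Wz W z t → bas W z (R ++ top :: st) ≠ z →
      G.ps z t < G.hi W z (bas W z (R ++ top :: st)) l := fun t a a' e => by
    have := (Y.hW.ps hz a a').2.1
    rw [Grid.hi, if_neg a.ne.symm] at this
    rwa [Grid.hi, if_neg e]
  have dL := D.late Y Z
  have dR := D.early Y Z
  have nr' := fun {B' : List Pt} (hB : B' = L ∨ B' = R) e {a a' : ℕ} => D.near Y Z hB e (a := a) (a' := a')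
  have cs := D.cs Y hz
  have sp := D.sp
  have w1 := D.w1
  have w2 := D.w2
  have w3 := D.w3
  have w4 := D.w4
  have cL := Y.F.symm.sideR Y.hW Z.hm (cl_rev sp) D.wb
  have cR := Y.F.sideR Y.hW Z.hm sp D.wb
  have out : ∀ i, p ≤ i → i ≤ q → G.lk z i ∉ cl L R top →
      G.lk z i ∉ L ++ top :: st ++ (R ++ top :: st) := fun i i1 i2 h e =>
    h ((List.mem_append.1 e).elim (Fail.mem (Or.inl rfl) · (Y.not_st (cs i i1 i2)))
      (Fail.mem (Or.inr rfl) · (Y.not_st (cs i i1 i2))))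
  have sL := fun h : G.lk z p ∉ b :: C₂ => D.sL fun e => h (List.mem_cons_of_mem _ e)
  have sR := fun h : G.lk z q ∉ C₁ ++ [b] => D.sR fun e => h (List.mem_append_left _ e)
  refine ⟨fun e => nr' (Or.inr rfl) e (by omega) (D.zR e).ge,
    fun e => nr' (Or.inl rfl) e (D.zL e).le (by omega), ?_⟩
  rcases window (late := fun i => G.lk z i ∈ b :: C₂) (early := fun i => G.lk z i ∈ C₁ ++ [b])
    (iL := fun i => G.lk z i ∈ itr W z (L ++ top :: st))
    (iR := fun i => G.lk z i ∈ itr W z (R ++ top :: st)) Y.h7 Z.ex w1 w2 (by omega) (by omega)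
    (by omega) D.w6 D.w7 D.w8 (fun a b' => D.skip Y Z sk)
    (fun i i1 i2 h => dL.1 _ h (cs i i1 i2)) (fun i i1 i2 h => dR.1 _ h (cs i i1 i2))
    (fun h => (sL h).imp_right fun e => (lo1 e.1).1)
    (fun h => (sR h).imp_right fun e => by have := hi1 e.1; omega)
    (fun e => ⟨D.zL e, by_contra fun h => (sL h).2.1 e⟩)
    (fun e => ⟨D.zR e, by_contra fun h => (sR h).2.1 e⟩) (D.skip2 Y Z sk2) with
    ⟨i, i1, i2, i3, i4, i5⟩ | ⟨a1, a2, a3⟩ | ⟨a1, a2, a3⟩
  · exact Or.inl ⟨i, i1, i2, i3, i4, fun e => ⟨fun h => absurd h (i5 e).1,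
      fun h => absurd h (i5 e).2.1, (i5 e).2.2⟩⟩
  · obtain ⟨s1, s2, s3⟩ := sL a1
    rw [← s1] at a2 a3 s3 lo1 lo4 ⊢
    refine Or.inr (Or.inl ⟨⟨s2, fun e => a1 (e ▸ dL.2 (e ▸ cs p le_rfl (by omega))), a2, a3⟩,
      fun e => ⟨?_, out p le_rfl (by omega) fun h => ?_, nr' (Or.inr rfl) e le_rfl (D.zR e).ge⟩⟩)
    · obtain rfl := D.zb (Y.bas_mem Z.hm zs (Or.inr rfl) e)
      refine Y.F.far Z (cR.2.2 e).2 (s3 e) fun t f' t1 t2 t3 t4 => ⟨(lo4 t t1 t2 s2).le, ?_⟩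
      obtain rfl : f' = f := by
        have := cr.fst
        rw [List.head?_append, List.head?_reverse, t3] at this
        exact Option.some.inj this
      have := mt (Y.hW.left h3 hz t1 t2 hg).2.2.2 (mt t4.1 cr.left)
      omega
    · obtain rfl := D.zb (Y.bas_mem Z.hm zs (Or.inr rfl) e)
      rw [sp, ← (cR.2.2 e).1] at h
      exact (List.mem_append.1 h).elim (itr_not · (Or.inr (lo1 s2).2.1)) a1
  · obtain ⟨s1, s2, s3⟩ := sR a1
    rw [← s1] at a2 a3 s3 hi1 hi4 ⊢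
    refine Or.inr (Or.inr ⟨⟨s2, fun e => a1 (e ▸ dR.2 (e ▸ cs q (by omega) le_rfl)), a2, a3⟩,
      fun e => ⟨?_, out q (by omega) le_rfl fun h => ?_, nr' (Or.inl rfl) e (D.zL e).le le_rfl⟩⟩)
    · obtain rfl := D.zb (Y.bas_mem Z.hm zs (Or.inl rfl) e)
      refine Y.F.symm.far Z.symm (cL.2.2 e).2 (s3 e) fun t f' t1 t2 t3 t4 =>
        ⟨?_, (hi4 t t1 t2 s2).le⟩
      obtain rfl : f' = l := by
        have := cr.lst
        rw [List.getLast?_append, t3] at this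
        exact Option.some.inj this
      have := (Y.hW.left h3 hz t1 t2 hg).2.2.1 (t4.2 ((Y.F.symm.fst Y.hW Y.h7 Z.symm
        ⟨R ++ [top], by simp⟩ List.suffix_rfl t3).2.1 cr.right))
      omega
    · obtain rfl := D.zb (Y.bas_mem Z.hm zs (Or.inl rfl) e)
      rw [sp, ← List.singleton_append, ← List.append_assoc] at h
      exact (List.mem_append.1 h).elim a1 fun h =>
        itr_not ((cL.2.2 e).1 ▸ List.mem_reverse.2 h) (Or.inr (hi1 s2).2.2.1)

end Ctx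
end Pool.Agent.P.MP_e4ac67_pr.Gr
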