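import Pool.Agent.P.MP_e4ac67_pr.A.Words

/-! Blocks, compliance of complete arcs, turns. -/

namespace Pool.Agent.P.MP_e4ac67_pr.Gr
open PlaneTri
namespace Grid
variable {G : Grid} {W : Pt → Pt → Prop} {c : Pt → ℕ} {k g : ℕ} {z v t : Pt} {w : List Pt}

theorem rt_nb (h3 : 3 ≤ g) (hg : g ≤ G.gap z + 2) {i : ℕ} (h1 : 1 ≤ i) (h2 : i ≤ G.gap z + 3) :
    G.Rt z g (G.nb z i) ↔ g ≤ i := by
  rcases nb_cases (G := G) z i with ⟨h, e⟩ | ⟨h, e⟩ | ⟨h, h', e⟩ | ⟨h, e⟩ | ⟨h, e⟩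
  · omega
  · rw [e, rt_dn (i := 0) rfl, an]; omega
  · rw [e, rt_up (i := 0), lr, G.nb_ch z (by omega) hg]; simp only; omega
  · rw [e, rt_dn (i := 0) rfl, an]; omega
  · omega

theorem TubeOK.nb (hW : G.TubeOK W c) (hz : 1 ≤ z.1) {i : ℕ} (hi : i < G.dg z)
    (h : i = 0 ∨ G.gap z + 4 ≤ i) : W z (G.nb z i) := by
  have ha := adj_nb hz hi
  have e : (G.nb z i).1 = z.1 - 1 := by
    rcases h with rfl | h
    exacts [by rw [nb_zero], by rw [G.nb_up z h]]
  rw [adj_iff] at ha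
  exact hW.anc _ _ (.step .base (by omega) (by unfold Ch; omega)) fun e' => by rw [e'] at e; omega

theorem gap_ge (h7 : 7 ≤ k) (hk : k < G.dg z) : 3 ≤ G.gap z := by
  have := G.tau_le z; unfold dg at hk; omega

theorem up_eq {i : ℕ} (h3 : 3 ≤ i) (hi : i ≤ G.gap z + 1) (h : G.Adj (G.nb z i) v)
    (hv : v.1 ≤ z.1) : v = z := by
  have e1 := G.gap_eq z
  rw [adj_iff, G.nb_ch z (by omega) (by omega)] at h
  simp only at h
  have e2 : v.1 = z.1 := by omega
  rw [e2] at h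
  have h1 := (G.A_lt z.1).lt_iff_lt.1 (show G.A z.1 (z.2 - 1) < G.A z.1 v.2 by omega)
  have h2 := (G.A_lt z.1).lt_iff_lt.1 (show G.A z.1 (v.2 - 1) < G.A z.1 z.2 by omega)
  exact Prod.ext e2 (by omega)

theorem rt_succ {i : ℕ} (h3 : 3 ≤ i) (hi : i ≤ G.gap z + 1) (hv : v.1 ≤ z.1 + 1)
    (h : v ≠ G.nb z i) : G.Rt z (i + 1) v ↔ G.Rt z i v := by
  obtain ⟨n, x⟩ := v
  rcases hv.lt_or_eq with hv | rfl
  · obtain ⟨j, e⟩ := Nat.exists_eq_add_of_le (show n ≤ z.1 by simp only at hv; omega)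
    rw [rt_dn e, rt_dn e]
  · rw [G.nb_ch z (by omega) (by omega)] at h
    have : x ≠ G.A z.1 (z.2 - 1) + i - 2 := fun e => h (by rw [e])
    rw [rt_up (i := 0), rt_up (i := 0), lr, lr, G.nb_ch z (by omega) (by omega),
      G.nb_ch z (by omega) (by omega)]
    simp only
    omega

theorem Adj.lev {u : Pt} (h : G.Adj v u) : u.1 ≤ v.1 + 1 := by rw [adj_iff] at h; omega

/-- the position of a neighbour outside the tube -/
theorem TubeOK.ps (hW : G.TubeOK W c) (hz : 1 ≤ z.1) (h : G.Adj z t) (ht : ¬Wz W z t) :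
    G.lo W z t t < G.ps z t ∧ G.ps z t < G.hi W z t t ∧ G.ps z t ≤ G.gap z + 3 := by
  obtain ⟨h1, h2⟩ := ps_spec hz h
  have h3 : ¬W z (G.nb z (G.ps z t)) := fun e => ht (Or.inr (h2 ▸ e))
  have h4 := fun e => h3 (hW.nb hz h1 e)
  rw [lo, hi, if_neg h.ne.symm, if_neg h.ne.symm]
  generalize G.ps z t = p at *
  split_ifs <;> grind

variable (G W c k) in
/-- the cut inside the block -/
noncomputable def gc (z : Pt) (w : List Pt) : ℕ :=
  if G.blk W c k z w = c z + 1 then c z + 1 else c z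

variable (G W c k) in
structure Bk (z t : Pt) (w : List Pt) : Prop where
  two : 2 ≤ G.blk W c k z (t :: w)
  le : G.blk W c k z (t :: w) ≤ G.gc W c k z (t :: w)
  ge : G.gc W c k z (t :: w) + k ≤ G.blk W c k z (t :: w) + G.dg z
  lt : G.blk W c k z (t :: w) < k
  out : G.ps z t < G.blk W c k z (t :: w) ∨ G.blk W c k z (t :: w) + G.dg z ≤ G.ps z t + k
  bon : G.ps z t = c z ∨ (G.blk W c k z (t :: w) ≤ c z ∧ c z + k < G.blk W c k z (t :: w) + G.dg z)
  tl : G.gc W c k z (t :: w) = c z + 1 → G.ps z t = c z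
  side : ¬Wz W z t → ∀ f, (itr W z (t :: w)).getLast? = some f →
    (G.Rt z (G.gc W c k z (t :: w)) t ↔ G.Rt z (c z) f)

theorem TubeOK.bk (hW : G.TubeOK W c) (h7 : 7 ≤ k) (hk : k < G.dg z) (hz : 1 ≤ z.1)
    (h : G.Adj z t) (hw : z ∉ t :: w) (hv : ¬G.Viol W c k z (t :: w) z) : G.Bk W c k z t w := by
  have h3 := gap_ge h7 hk
  have hc := hW.cp z
  obtain ⟨p1, p2⟩ := ps_spec hz h
  have hd : G.dg z ≤ G.gap z + 5 := by have := G.tau_le z; unfold dg; omega
  by_cases ht : Wz W z t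
  · have e : G.blk W c k z (t :: w) = c z := by
      have := hW.wz_le ht
      rw [blk, if_neg (by simp [itr_neg ht]), if_pos]
      by_contra e
      simp only [List.headD_cons] at e
      rw [← p2, G.nb_ch z (by omega) (by omega)] at this
      simp at this
    have e' : G.ps z t < c z ∨ G.dg z + c z ≤ G.ps z t + k := by
      by_contra e
      have := hW.wz_le ht
      rw [← p2, G.nb_ch z (by omega) (by omega)] at this
      simp at this
    have e2 : G.gc W c k z (t :: w) = c z := by rw [gc, e, if_neg (by omega)]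
    constructor <;> (try rw [e2]) <;> (try rw [e]) <;> first | omega | exact fun e => (e ht).elim
  · obtain ⟨f, hf⟩ : ∃ f, (itr W z (t :: w)).getLast? = some f := by
      rw [itr_pos ht]; exact ⟨_, List.getLast?_cons⟩
    have h4 := hW.ps hz h ht
    have r1 := rt_nb (z := z) (g := c z) (by omega) (by omega) (i := G.ps z t) (by omega) h4.2.2
    have r2 := rt_nb (z := z) (g := c z + 1) (by omega) (by omega) (i := G.ps z t) (by omega) h4.2.2
    rw [p2] at r1 r2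
    have hv' := fun e => hv ⟨t, f, by rw [itr_pos ht]; rfl, hf, Or.inl ⟨rfl, hw, e⟩⟩
    have e : (G.blk W c k z (t :: w) = c z + 1 ∧ G.ps z t = c z ∧ ¬G.Rt z (c z) f) ∨
        (G.blk W c k z (t :: w) = c z ∧ (G.ps z t < c z ∨ G.dg z + c z ≤ G.ps z t + k)) ∨
        (G.blk W c k z (t :: w) = G.ps z t + k - G.dg z ∧ c z ≤ G.ps z t ∧
          G.ps z t + k < G.dg z + c z ∧ G.Rt z (c z) f) := by
      rw [blk, hf]
      simp only [List.headD_cons, Option.some.injEq, exists_eq_left']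
      split_ifs <;> grind
    have e2 : G.gc W c k z (t :: w) = if G.blk W c k z (t :: w) = c z + 1 then c z + 1 else c z := rfl
    refine ⟨?_, ?_, ?_, ?_, ?_, ?_, ?_, fun _ f' hf' => ?_⟩
    all_goals grind

theorem mod_two {a D : ℕ} (h : a < 2 * D) : a % D = if a < D then a else a - D := by
  split_ifs with e
  · exact Nat.mod_eq_of_lt e
  · rw [Nat.mod_eq_sub_mod (not_lt.1 e), Nat.mod_eq_of_lt (by omega)]

theorem ps_lk (hz : 1 ≤ z.1) {a : ℕ} (h : a < 2 * G.dg z) :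
    G.ps z (G.lk z a) = if a < G.dg z then a else a - G.dg z := by
  rw [lk, ps_nb hz (Nat.mod_lt _ (by omega)), mod_two h]

theorem lk_ps (hz : 1 ≤ z.1) (h : G.Adj z t) : G.lk z (G.ps z t) = t :=
  (lk_eq (ps_spec hz h).1).trans (ps_spec hz h).2

variable {V V' : Type} {T : PlaneTri V} {T' : PlaneTri V'} {ψ : Pt → V'} {u : Pt} {u' : V'}

/-- the real position read by a letter -/
theorem Stp.pos (h : G.Stp W c k T' ψ z (t :: w) u u') (hk : k ≤ G.dg z) (hz : 1 ≤ z.1)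
    (ha : G.Adj z t) (hb : k < G.dg z → G.Bk W c k z t w) :
    ∃ a r, 1 ≤ a ∧ a < k ∧ u = G.lk z (G.ps z t + r) ∧ u' = T'.rot (ψ z) (ψ t) a ∧
      ((r = a ∧ (k < G.dg z → a < cy (G.dg z) (G.ps z t) (G.blk W c k z (t :: w)))) ∨
        (k < G.dg z ∧ r + k = a + G.dg z ∧ cy (G.dg z) (G.ps z t) (G.blk W c k z (t :: w)) ≤ a)) := by
  obtain ⟨a, h1, h2, h3, h4⟩ := h
  refine ⟨a, _, h1, h2, h3, h4, ?_⟩
  rcases hk.lt_or_eq with hk | hk
  · have := (hb hk).lt
    have := (ps_spec hz ha).1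
    have e := mod_two (a := G.blk W c k z (t :: w) + G.dg z - G.ps z t) (D := G.dg z) (by omega)
    simp only [List.headD_cons]
    unfold cy
    grind
  · exact Or.inl ⟨by split_ifs <;> omega, by omega⟩

theorem Stp.ne (h : G.Stp W c k T' ψ z (t :: w) u u') (hW : G.TubeOK W c) (h7 : 7 ≤ k)
    (hk : k < G.dg z) (hz : 1 ≤ z.1) (ha : G.Adj z t) (hb : G.Bk W c k z t w) :
    u ≠ G.nb z (c z) := by
  obtain ⟨a, r, h1, h2, rfl, -, h4⟩ := h.pos hk.le hz ha fun _ => hb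
  intro e
  have := hW.cp z
  have := (ps_spec hz ha).1
  have e := congrArg (G.ps z) e
  rw [ps_lk hz (by omega), ps_nb hz (by omega)] at e
  have := hb.out
  have := hb.bon
  have := hb.lt
  unfold cy at h4
  grind

variable (G W c k) in
/-- the block lies inside the corner from `x` to `y` -/
def Cor (z : Pt) (w : List Pt) (x y : Pt) : Prop :=
  ∀ i, G.blk W c k z w ≤ i + 1 → i + k < G.blk W c k z w + G.dg z →
    cy (G.dg z) (G.ps z x) i < cy (G.dg z) (G.ps z x) (G.ps z y)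

end Grid

namespace Emb
variable {V V' : Type} {G : Grid} {T : PlaneTri V} (E : Emb G T) {T' : PlaneTri V'} {ψ : Pt → V'}
  {W : Pt → Pt → Prop} {c : Pt → ℕ} {k : ℕ} {z t u v : Pt} {w : List Pt} {u' v' : V'}

theorem pos_ps (hz : 1 ≤ z.1) (h : G.Adj z u) (h' : G.Adj z v) :
    T.pos (E.π z) (E.π u) (E.π v) = cy (G.dg z) (G.ps z u) (G.ps z v) := by
  rw [← E.pos_lk hz (Grid.ps_spec hz h).1 (Grid.ps_spec hz h').1, Grid.lk_ps hz h, Grid.lk_ps hz h']

/-- the tail follows on the cycle -/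
theorem turnR (h : G.Stp W c k T' ψ z (t :: w) u u') (hk : k ≤ G.dg z) (hz : 1 ≤ z.1)
    (ha : G.Adj z t) (hb : k < G.dg z → G.Bk W c k z t w) :
    T.Turn T' k (G.Cor W c k z (t :: w) t u) (E.π u) (E.π z) (E.π t) u' (ψ z) (ψ t) := by
  obtain ⟨a, r, h1, h2, rfl, rfl, h4⟩ := h.pos hk hz ha hb
  have := (Grid.ps_spec hz ha).1
  have e : cy (G.dg z) (G.ps z t) (G.ps z (G.lk z (G.ps z t + r))) = r := by
    rw [Grid.ps_lk hz (by omega)]; unfold cy; grind
  rw [Turn, E.pos_ps hz ha (Grid.adj_lk hz _), e, E.deg z hz]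
  rcases h4 with ⟨rfl, -⟩ | ⟨h4, h5, h6⟩
  · exact Or.inl rfl
  · refine Or.inr ⟨fun i i1 i2 => ?_, h4, by omega, by congr 1; omega⟩
    have := (hb h4).out
    have := (hb h4).lt
    have := (hb h4).two
    rw [e]
    unfold cy at h6 ⊢
    grind

/-- the tail precedes on the cycle -/
theorem turnL (hT' : ∀ v, T'.deg v = k) (h : G.Stp W c k T' ψ z (t :: w) u u') (hk : k ≤ G.dg z)
    (hz : 1 ≤ z.1) (ha : G.Adj z t) (ha' : T'.G.Adj (ψ z) (ψ t))
    (hb : k < G.dg z → G.Bk W c k z t w) :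
    T.Turn T' k (G.Cor W c k z (t :: w) u t) (E.π t) (E.π z) (E.π u) (ψ t) (ψ z) u' := by
  obtain ⟨a, r, h1, h2, rfl, rfl, h4⟩ := h.pos hk hz ha hb
  have := (Grid.ps_spec hz ha).1
  have e : cy (G.dg z) (G.ps z (G.lk z (G.ps z t + r))) (G.ps z t) = G.dg z - r := by
    rw [Grid.ps_lk hz (by omega)]; unfold cy; grind
  have e' : ψ t = T'.rot (ψ z) (T'.rot (ψ z) (ψ t) a) (k - a) := by
    rw [← rot_add, Nat.add_sub_cancel' h2.le, ← hT' (ψ z), rot_deg ha']
  rw [Turn, E.pos_ps hz (Grid.adj_lk hz _) ha, e, E.deg z hz]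
  rcases hk.lt_or_eq with hk | hk
  swap
  · exact Or.inl (e'.trans (by congr 1; omega))
  rcases h4 with ⟨rfl, h4⟩ | ⟨h4, h5, h6⟩
  · refine Or.inr ⟨fun i i1 i2 => ?_, hk, by omega, e'.trans (by congr 1; omega)⟩
    have := (hb hk).out
    have := (hb hk).lt
    have := (hb hk).two
    have h4 := h4 hk
    rw [e, Grid.ps_lk hz (by omega)]
    unfold cy at h4 ⊢
    grind
  · exact Or.inl (e'.trans (by congr 1; omega))

/-- two letters at the top, the tail is outside the corner -/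
theorem turnT (h : G.Stp W c k T' ψ z (t :: w) u u') (h' : G.Stp W c k T' ψ z (t :: w) v v')
    (hk : k ≤ G.dg z) (hz : 1 ≤ z.1) (ha : G.Adj z t) (hb : k < G.dg z → G.Bk W c k z t w)
    (ho : cy (G.dg z) (G.ps z u) (G.ps z v) < cy (G.dg z) (G.ps z u) (G.ps z t)) :
    T.Turn T' k (G.Cor W c k z (t :: w) u v) (E.π v) (E.π z) (E.π u) v' (ψ z) u' := by
  obtain ⟨a, r, h1, h2, rfl, rfl, h4⟩ := h.pos hk hz ha hb
  obtain ⟨b, s, g1, g2, rfl, rfl, g4⟩ := h'.pos hk hz ha hb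
  have := (Grid.ps_spec hz ha).1
  have e : r ≤ s ∧ cy (G.dg z) (G.ps z (G.lk z (G.ps z t + r))) (G.ps z (G.lk z (G.ps z t + s))) =
      s - r := by
    rw [Grid.ps_lk hz (by omega), Grid.ps_lk hz (by omega)] at ho ⊢; unfold cy at ho ⊢; grind
  have e' : T'.rot (ψ z) (ψ t) b = T'.rot (ψ z) (T'.rot (ψ z) (ψ t) a) (b - a) := by
    rw [← rot_add, Nat.add_sub_cancel' (by omega)]
  rw [Turn, E.pos_ps hz (Grid.adj_lk hz _) (Grid.adj_lk hz _), e.2, E.deg z hz]
  by_cases e1 : s - r = b - a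
  · exact Or.inl (e1 ▸ e')
  have hk : k < G.dg z := by omega
  refine Or.inr ⟨fun i i1 i2 => ?_, hk, by omega, e'.trans (by congr 1; omega)⟩
  have := (hb hk).out
  have := (hb hk).lt
  have := (hb hk).two
  rw [e.2, Grid.ps_lk hz (by omega)]
  unfold cy at h4 g4 ⊢
  grind

end Emb
end Pool.Agent.P.MP_e4ac67_pr.Gr
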