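import Pool.Agent.P.MP_e4ac67_pr.A.Ctx

/-! The marked arc crosses from left to right. -/

namespace Pool.Agent.P.MP_e4ac67_pr.Gr
open PlaneTri Grid

variable {G : Grid} {V V' : Type} {T : PlaneTri V} {T' : PlaneTri V'} {W : Pt → Pt → Prop}
  {c : Pt → ℕ} {k N g : ℕ} {ψ : Pt → V'} {o top z v u b t f : Pt} {L R st w C₁ C₂ : List Pt}
  {n : V → V → ℤ}

variable (W c k N o top L R st) in
/-- data of a special vertex with its cut -/
structure Grid.Zd (G : Grid) (z : Pt) (g : ℕ) : Prop where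
  hm : G.Hm o N z
  ex : k < G.dg z
  cut : g = c z ∨ g = c z + 1
  noc : ∀ B, B = L ∨ B = R → ∀ u w', u :: z :: w' <:+ B ++ top :: st → u ≠ G.nb z (c z)
  arr : ∀ B, B = L ∨ B = R → ∀ t w, z :: t :: w <:+ B ++ top :: st → top :: st <:+ t :: w →
    G.Bk W c k z t w ∧ g = G.gc W c k z (t :: w)
  hx : (L.headD top = z → R.headD top ≠ G.nb z (c z)) ∧
    (R.headD top = z → L.headD top ≠ G.nb z (c z))

theorem Grid.Zd.symm (Z : G.Zd W c k N o top L R st z g) : G.Zd W c k N o top R L st z g :=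
  ⟨Z.hm, Z.ex, Z.cut, fun B h => Z.noc B h.symm, fun B h => Z.arr B h.symm, Z.hx.symm⟩

theorem Grid.TubeOK.same (hW : G.TubeOK W c) (h3 : 3 ≤ G.gap z) (hb : Wz W z b) (h : G.Adj f b)
    (hc : b = z → f ≠ G.nb z (c z)) :
    f ≠ G.nb z (c z) ∧ (G.Rt z (c z + 1) f ↔ G.Rt z (c z) f) := by
  have := hW.cp z
  have h1 := hW.wz_le hb
  have h2 : f ≠ G.nb z (c z) := fun e => hc (up_eq (by omega) (by omega) (e ▸ h) h1) e
  exact ⟨h2, rt_succ (by omega) (by omega) (by have := h.symm.lev; omega) h2⟩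

namespace Grid.Fail
variable (F : G.Fail W c k T' ψ o N L R top st) (hW : G.TubeOK W c) (h7 : 7 ≤ k)
  (Z : G.Zd W c k N o top L R st z g)
include F hW h7 Z

theorem fst (h1 : st <:+ w) (h2 : w <:+ L ++ top :: st) (hf : (itr W z w).getLast? = some f) :
    f ≠ G.nb z (c z) ∧ (G.Rt z (c z + 1) f ↔ G.Rt z (c z) f) := by
  obtain ⟨r, e, hb⟩ := itr_bas (F.base hW Z.hm h1)
  obtain ⟨I, hI⟩ := List.getLast?_eq_some_iff.1 hf
  have s : f :: bas W z w :: r <:+ L ++ top :: st :=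
    List.IsSuffix.trans ⟨I, by rw [hI] at e; simpa using e.symm⟩ h2
  exact hW.same (gap_ge h7 Z.ex) hb (F.brP.adj s) fun e => Z.noc L (Or.inl rfl) _ _ (e ▸ s)

theorem comp {x : Pt} (h1 : u :: x :: w <:+ L ++ top :: st) (h2 : top :: st <:+ x :: w)
    (hu : Wz W z u) (hx : ¬Wz W z x) : G.Phi W z g (x :: w) = 0 := by
  obtain ⟨f, hf⟩ : ∃ f, (itr W z (x :: w)).getLast? = some f := by
    rw [itr_pos hx]; exact ⟨_, List.getLast?_cons⟩
  have h3 := F.fst hW h7 Z ((List.suffix_cons _ _).trans h2) ((List.suffix_cons _ _).trans h1) hf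
  have key : G.Rt z g x ↔ G.Rt z g f := by
    rcases hu with rfl | hu
    · obtain ⟨b1, b2⟩ := Z.arr L (Or.inl rfl) _ _ h1 h2
      rw [b2, b1.side hx f hf, ← b2]
      rcases Z.cut with rfl | rfl
      exacts [Iff.rfl, h3.2.symm]
    · have n1 := (hW.lev _ _ hu).2
      have h4 := hW.same (gap_ge h7 Z.ex) (Or.inr hu) (F.brP.adj h1).symm fun e => absurd e n1
      have h5 : G.Rt z (c z) f ↔ G.Rt z (c z) x := by
        by_contra e
        exact F.brP.rule z Z.hm Z.ex u _ h1 h2 (Or.inl n1) ⟨x, f, by rw [itr_pos hx]; rfl, hf,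
          Or.inr ⟨hu, fun e => h3.1 e.2, e⟩⟩
      rcases Z.cut with rfl | rfl
      exacts [h5.symm, by rw [h4.2, h3.2, h5]]
  rw [Phi, List.getLastD_eq_getLast?, hf, itr_pos hx]
  simp only [sd, List.headD_cons, Option.getD_some]
  grind

theorem ends {x y : Pt} {L' R' : List Pt} (hL : L ++ top :: st = x :: L') (a : G.Adj x y)
    (hx : x = z → y ≠ G.nb z (c z))
    (hf : ((itr W z (x :: L')).reverse ++ itr W z (y :: R')).head? = some f) :
    (G.Rt z (c z + 1) f ↔ G.Rt z (c z) f) ∧ ((itr W z (x :: L')).getLast? = some f ∨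
      (Wz W z x ∧ f = y)) := by
  by_cases h : Wz W z x
  · by_cases h' : Wz W z y
    · simp [itr_neg h, itr_neg h'] at hf
    · obtain rfl : y = f := by simpa [itr_neg h, itr_pos h'] using hf
      exact ⟨(hW.same (gap_ge h7 Z.ex) h a.symm hx).2, Or.inr ⟨h, rfl⟩⟩
  · have : (itr W z (x :: L')).getLast? = some f := by
      rw [itr_pos h] at hf ⊢
      rwa [List.head?_append_of_ne_nil _ (by simp), List.head?_reverse] at hf
    exact ⟨(F.fst hW h7 Z (hL ▸ ⟨L ++ [top], by simp⟩) (hL ▸ List.suffix_rfl) this).2, Or.inl this⟩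

end Grid.Fail

theorem head_eq (L : List Pt) (top : Pt) (st : List Pt) :
    L ++ top :: st = L.headD top :: (L ++ top :: st).tail := by cases L <;> rfl

theorem Ctx.cross {E : Emb G T} (Y : Ctx T' W c k N ψ o top L R st n E)
    (Z : G.Zd W c k N o top L R st z g) (hn : n (E.π z) (E.π (G.lk z (g - 1))) = 1) :
    ∃ f l, G.Cross c z (itr W z (L ++ top :: st)) (itr W z (R ++ top :: st)) f l ∧
      (∀ v ∈ itr W z (L ++ top :: st), v ∉ itr W z (R ++ top :: st)) ∧
      ∃ b ∈ cl L R top, Wz W z b := by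
  have h3 := gap_ge Y.h7 Z.ex
  have := Y.hW.cp z
  have := Z.cut
  rw [E.stokes Y.hW (Y.F.cy E) Y.wn Y.F.root.1 Y.F.root.2 (fun i => Y.F.hF)
    (fun i => cyc_rel Y.F.chain) Z.hm (by omega) (by omega)] at hn
  have e := X_sum (χ := G.chi W z g) top (cl L R top ++ [R.headD top]) (n := (cl L R top).length)
    (by simp)
  rw [cl, X_cycle chi_swap] at e
  have eL := Phi_tel (g := g) L fun u x w => Y.F.comp Y.hW Y.h7 Z
  have eR := Phi_tel (g := g) R fun u x w => Y.F.symm.comp Y.hW Y.h7 Z.symm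
  have hL := head_eq L top st
  have hR := head_eq R top st
  obtain ⟨f, l, f1, l1, f2, l2⟩ := cross_of (W := W) (z := z) (g := g) (L := (L ++ top :: st).tail)
    (R := (R ++ top :: st).tail) (x := L.headD top) (y := R.headD top) (by
      rw [← hL, ← hR, eL, eR, ← hn]; unfold cyc cl; rw [e]; ring)
  have f3 := Y.F.ends Y.hW Y.h7 Z hL Y.F.close Z.hx.1 f1
  have l3 := Y.F.symm.ends Y.hW Y.h7 Z.symm hR Y.F.close.symm Z.hx.2 (f := l)
    (R' := (L ++ top :: st).tail) (by rw [← l1, ← List.getLast?_reverse]; simp)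
  rw [← hL, ← hR] at f1 l1
  rw [← hL] at f3
  rw [← hR] at l3
  have dj : ∀ v ∈ itr W z (L ++ top :: st), v ∉ itr W z (R ++ top :: st) := fun v h1 h2 => by
    have e := Y.F.meet (fun _ => id) h2 h1
    have k1 : ∀ B, v ∈ itr W z (B ++ top :: st) → ¬Wz W z (B.headD top) := fun B h e => by
      rw [head_eq, itr_neg e] at h; simp at h
    rw [f3.2.resolve_right fun e => k1 L h1 e.1, l3.2.resolve_right fun e => k1 R h2 e.1] at e
    exact f2 (Option.some.inj e ▸ l2)
  refine ⟨f, l, ⟨f1, l1, by grind, by grind⟩, dj, ?_⟩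
  by_contra hc
  have k2 : ∀ B, (∀ v ∈ B, v ∈ cl L R top) → top ∈ itr W z (B ++ top :: st) := fun B h => by
    rw [(itr_append fun v hv e => hc ⟨v, h v hv, e⟩).1, itr_pos fun e => hc ⟨top, by simp [cl], e⟩]
    simp
  exact dj top (k2 L fun v hv => by simp [cl, hv]) (k2 R fun v hv => by simp [cl, hv])

end Pool.Agent.P.MP_e4ac67_pr.Gr
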