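import Pool.Agent.P.MP_e4ac67_pr.A.Cyc

/-! The oriented cycle and its development. -/

namespace Pool.Agent.P.MP_e4ac67_pr.Gr
open PlaneTri

variable {G : Grid} {V V' : Type} {T : PlaneTri V} {T' : PlaneTri V'} {W : Pt → Pt → Prop}
  {c : Pt → ℕ} {k N : ℕ} {ψ : Pt → V'} {o top z v u b t : Pt} {L R st w C₁ C₂ : List Pt}
  {n : V → V → ℤ}

namespace Grid.Fail
variable (F : G.Fail W c k T' ψ o N L R top st)
include F

theorem hF {i : ℕ} (hi : i ≤ (cl L R top).length) : G.Hm o N (cyc L R top i) := by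
  rcases hi.lt_or_eq with hi | rfl
  · exact F.hm (cyc_mem hi)
  · rw [cyc_len, ← cyc_zero (L := L)]
    exact F.hm (cyc_mem (by rw [cl_len]; omega))

theorem inj' {i j : ℕ} (hi : i < (cl L R top).length) (hj : j < (cl L R top).length)
    (e : cyc L R top i = cyc L R top j) : i = j :=
  cyc_inj (List.nodup_append.1 F.nd).1 hi hj e

theorem cy (E : Emb G T) : T.Cy (fun i => E.π (cyc L R top i)) (cl L R top).length where
  two := by have := F.three; rw [cl_len]; omega
  adj i hi := E.adj (by have := F.lev (F.hF hi.le); omega) (cyc_rel F.chain hi)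
  cl := by rw [cyc_len, cyc_zero]
  inj i hi j hj e := F.inj' hi hj
    (E.inj _ _ (cone_one (F.cone (F.hF hi.le))) (cone_one (F.cone (F.hF hj.le))) e)

theorem on (E : Emb G T) (hu : G.Cn 1 (0, 0) u)
    (h : On (fun i => E.π (cyc L R top i)) (cl L R top).length (E.π u)) : u ∈ cl L R top := by
  obtain ⟨i, hi, e⟩ := h
  exact E.inj _ _ (cone_one (F.cone (F.hF hi.le))) hu e ▸ cyc_mem hi

theorem st_cone (h : v ∈ st) : G.Cn 1 (0, 0) v ∧ 1 ≤ v.1 := by
  have := F.root.1
  rcases F.dom v h with ⟨h1, h2⟩ | rfl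
  · exact ⟨cone_one h1, by omega⟩
  · exact ⟨cone_nb F.root.2 (Nat.zero_le _) (adj_nb (by omega) (by have := G.seven_le o; omega)),
      by rw [nb_zero]; simp only; omega⟩

end Grid.Fail

variable (W c k L R top st) in
structure Grid.Spec (G : Grid) (z t : Pt) (w : List Pt) : Prop where
  bk : G.Bk W c k z t w
  uq : ∀ B, B = L ∨ B = R → ∀ w', z :: w' <:+ B ++ top :: st → w' = t :: w
  noc : ∀ B, B = L ∨ B = R → ∀ u w', u :: z :: w' <:+ B ++ top :: st → u ≠ G.nb z (c z)

theorem Grid.Spec.symm (h : G.Spec W c k top L R st z t w) : G.Spec W c k top R L st z t w :=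
  ⟨h.bk, fun B e => h.uq B e.symm, fun B e => h.noc B e.symm⟩

theorem Grid.Fail.spec (F : G.Fail W c k T' ψ o N L R top st) (hW : G.TubeOK W c) (h7 : 7 ≤ k)
    {l D : List Pt} (h : L = l ++ z :: D) (e : D ++ top :: st = t :: w) (hk : k < G.dg z)
    (hv : ¬G.Viol W c k z (t :: w) z) : G.Spec W c k top L R st z t w := by
  have hz : z ∈ L := by simp [h]
  have h1 : z :: t :: w <:+ L ++ top :: st := ⟨l, by simp [h, e]⟩
  have h2 := F.lev (F.brP.real z hz)
  have h3 := F.brP.adj h1
  have h4 := hW.bk h7 hk (by omega) h3 (List.nodup_cons.1 (F.ndL.sublist h1.sublist)).1 hv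
  refine ⟨h4, ?_, ?_⟩
  · rintro B (rfl | rfl) w' h'
    · exact sfx_uniq F.ndL h' h1
    · exact absurd (h'.subset (by simp)) (F.disj hz)
  · rintro B (rfl | rfl) u w' h'
    · obtain rfl := sfx_uniq F.ndL ((List.suffix_cons _ _).trans h') h1
      exact (F.brP.step u z _ h' ⟨D, e⟩).ne hW h7 hk (by omega) h3 h4
    · exact absurd (h'.subset (by simp)) (F.disj hz)

variable (T' W c k ψ o N L R top st n) in
structure Ctx (E : Emb G T) : Prop where
  hW : G.TubeOK W c
  h7 : 7 ≤ k
  hk : ∀ v, k ≤ T.deg v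
  hT' : ∀ v, T'.deg v = k
  F : G.Fail W c k T' ψ o N L R top st
  wn : T.Wn n (pc (fun i => E.π (cyc L R top i)) 0 (cl L R top).length)
  pos : T.Pos n

namespace Ctx
variable {E : Emb G T} (X : Ctx T' W c k N ψ o top L R st n E)
include X

theorem three : 3 ≤ (cl L R top).length := by have := X.F.three; rw [cl_len]; omega

theorem le (h : 1 ≤ v.1) : k ≤ G.dg v := E.deg v h ▸ X.hk _

theorem hK (a : V) (h : On (fun i => E.π (cyc L R top i)) (cl L R top).length a) :
    ∃ u, G.Hm o N u ∧ E.π u = a := by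
  obtain ⟨i, hi, e⟩ := h
  exact ⟨_, X.F.hF hi.le, e⟩

theorem stem (h : v ∈ st) : T.Zr n (E.π v) := by
  have off : ∀ v ∈ st, ¬On (fun i => E.π (cyc L R top i)) (cl L R top).length (E.π v) :=
    fun v h e => (List.nodup_append.1 X.F.nd).2.2 v (X.F.on E (X.F.st_cone h).1 e) v h rfl
  suffices ∀ w, w <:+ st → ∀ v ∈ w, T.Zr n (E.π v) from this st List.suffix_rfl v h
  intro w hw
  induction w with
  | nil => simp
  | cons a w ih =>
    have ih := ih ((List.suffix_cons _ _).trans hw)
    intro v hv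
    rcases List.mem_cons.1 hv with rfl | hv
    swap
    · exact ih v hv
    cases w with
    | nil =>
      obtain ⟨l, rfl⟩ := hw
      have e := X.F.last
      rw [List.getLast?_concat] at e
      obtain rfl := Option.some.inj e
      have := X.F.root.1
      refine E.out (X.F.cy E) X.wn this X.F.root.2 X.hK (v := o) ⟨?_, by omega⟩
        (Grid.adj_nb (by omega) (by have := G.seven_le o; omega)) fun e => ?_
      · exact (Grid.cone_iff (i := 0)).2 ⟨by simp [Grid.lr], by simp [Grid.rr]⟩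
      · have := e.1.1
        rw [Grid.nb_zero] at this
        simp only at this
        omega
    | cons b w =>
      exact (ih b (by simp)).adj (X.F.cy E) X.wn (E.adj (X.F.st_cone (hw.subset (by simp))).2
        (X.F.brP.adj (hw.trans ⟨L ++ [top], by simp⟩)).symm) (off _ (hw.subset (by simp)))

theorem not_st (h : T.Cl n (E.π v)) : v ∉ st := fun e => by
  obtain ⟨w, h1, h2⟩ := h
  have := X.stem e w h1
  omega

theorem corner {i j s : ℕ} (hi : i < (cl L R top).length) (hj : j < (cl L R top).length)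
    (e : cyc L R top (j + 1) = cyc L R top i) (ez : cyc L R top i = z) (hs : s < G.dg z) :
    n (E.π z) (E.π (G.lk z s)) = if cy (G.dg z) (G.ps z (cyc L R top (i + 1))) s <
      cy (G.dg z) (G.ps z (cyc L R top (i + 1))) (G.ps z (cyc L R top j)) then 1 else 0 := by
  subst ez
  have h1 : 1 ≤ (cyc L R top i).1 := by have := X.F.lev (X.F.hF hi.le); omega
  have a1 := cyc_rel X.F.chain hi
  have a2 : G.Adj (cyc L R top i) (cyc L R top j) := e ▸ (cyc_rel X.F.chain hj).symm
  have a3 := E.adj_lk h1 s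
  have h := X.wn.corner' E.h6 (X.F.cy E) X.three X.pos hi hj (congrArg E.π e)
    (pos_lt (E.adj h1 a1) a3)
  rw [rot_pos (E.adj h1 a1) a3, E.pos_ps h1 a1 a2, E.pos_ps h1 a1 (Grid.adj_lk h1 s),
    Grid.ps_lk h1 (by omega), if_pos hs] at h
  exact h

variable (G W c k L R top st) in
omit X in
/-- the block of the `i`-th vertex lies inside the cycle -/
def Sp (i : ℕ) : Prop := ∃ t w, G.Spec W c k top L R st (cyc L R top i) t w ∧
  G.Cor W c k (cyc L R top i) (t :: w) (cyc L R top (i + 1)) (cyc L R top (i - 1))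

omit X in
theorem _root_.Pool.Agent.P.MP_e4ac67_pr.PlaneTri.Turn.mono {S S' : Prop} {a x b : V}
    {a' x' b' : V'} (h : T.Turn T' k S a x b a' x' b') (e : k < T.deg x → S → S') :
    T.Turn T' k S' a x b a' x' b' := h.imp_right fun h => ⟨e h.2.1 h.1, h.2⟩

theorem chain' : (cl L R top).IsChain fun u v => T'.G.Adj (ψ u) (ψ v) :=
  cl_chain (fun _ _ h => h.symm) X.F.brP.ch' X.F.brQ.ch'

theorem turn {a : Pt} (h : cl L R top = C₁ ++ a :: v :: b :: C₂) :
    T.Turn T' k (∃ t w, G.Spec W c k top L R st v t w ∧ G.Cor W c k v (t :: w) b a)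
      (E.π a) (E.π v) (E.π b) (ψ a) (ψ v) (ψ b) := by
  have h' : cl L R top = (C₁ ++ [a]) ++ v :: b :: C₂ := by simp [h]
  have hv := X.F.hm (v := v) (by simp [h])
  have h1 : 1 ≤ v.1 := by have := X.F.lev hv; omega
  rcases cl_tri h' with ⟨D, e1, e2⟩ | ⟨e1, rfl, e3⟩ | ⟨D, e1, e2⟩
  · obtain ⟨w, e⟩ : ∃ w, D ++ top :: st = b :: w := by cases D <;> simp_all
    have s1 : a :: v :: b :: w <:+ R ++ top :: st := ⟨C₁, by simp [e1, e]⟩
    have s2 := (List.suffix_cons _ _).trans s1
    have sp := fun hk => (X.F.symm.spec X.hW X.h7 e1 e hk (X.F.brQ.rule v hv hk v _ s2 ⟨D, e⟩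
      (Or.inr fun e' => by have := s1.length_le; simp [← e'] at this))).symm
    exact (E.turnR (X.F.brQ.step a v _ s1 ⟨D, e⟩) (X.le h1) h1 (X.F.brQ.adj s2)
      fun hk => (sp hk).bk).mono fun hk hc => ⟨_, _, sp (E.deg v h1 ▸ hk), hc⟩
  · obtain ⟨t, w, rfl⟩ : ∃ t w, st = t :: w := by
      have := X.F.last
      cases st <;> simp_all
    have eL : L = C₂.reverse ++ [b] := by simpa using (congrArg List.reverse e3).symm
    have a0 : G.Adj v t := X.F.brP.adj (List.suffix_append _ _)
    have a1 : G.Adj v b := (X.F.brP.adj ⟨C₂.reverse, by simp [eL]; rfl⟩).symm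
    have a2 : G.Adj v a := (X.F.brQ.adj ⟨C₁, by simp [← e1]; rfl⟩).symm
    have z0 := X.stem (v := t) (by simp)
    have nt : t ∉ cl L R v := fun e => (List.nodup_append.1 X.F.nd).2.2 t e t (by simp) rfl
    have p0 := Grid.ps_spec h1 a0
    have p1 := Grid.ps_spec h1 a1
    have p2 := Grid.ps_spec h1 a2
    have ho : cy (G.dg v) (G.ps v b) (G.ps v a) < cy (G.dg v) (G.ps v b) (G.ps v t) := by
      have i1 := cyc_at h'
      have i2 := cyc_next h'
      have i3 := cyc_at h
      simp only [List.length_append, List.length_singleton, List.headD_cons] at i1 i2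
      have hc := X.corner (i := C₁.length + 1) (j := C₁.length) (by simp [h]) (by simp [h]) rfl i1 p0.1
      rw [Grid.lk_ps h1 a0, i2, i3, (X.wn.off (X.F.cy E) (fun e => nt (X.F.on E (X.F.st_cone
        (by simp)).1 e)) (E.adj h1 a0).symm (E.adj h1 a0).symm).2, z0 _ (E.adj h1 a0).symm] at hc
      have : G.ps v t ≠ G.ps v a := fun e => nt (by rw [← p0.2, e, p2.2]; simp [h])
      unfold cy at hc ⊢
      grind
    rcases X.F.top b a (by simp [eL]) (by simp [← e1]) with ⟨-, t1, t2, t3⟩ | ⟨t1, t2⟩ | ⟨t1, -⟩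
    · have bk := fun hk => X.hW.bk X.h7 hk h1 a0 (fun e =>
        (List.nodup_append.1 X.F.nd).2.2 v (by simp [cl]) v e rfl) (t3 hk)
      refine (E.turnT t1 t2 (X.le h1) h1 a0 bk ho).mono fun hk hc => ⟨_, _, ?_, hc⟩
      rw [E.deg v h1] at hk
      refine ⟨bk hk, ?_, ?_⟩
      · rintro B (rfl | rfl) w' s
        exacts [sfx_uniq X.F.ndL s (List.suffix_append _ _),
          sfx_uniq X.F.symm.ndL s (List.suffix_append _ _)]
      · have key : ∀ B l x u w', (B ++ v :: t :: w).Nodup → B = l ++ [x] →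
            u :: v :: w' <:+ B ++ v :: t :: w → u = x := fun B l x u w' nd e s => by
          obtain rfl := sfx_uniq nd ((List.suffix_cons _ _).trans s) (List.suffix_append _ _)
          have s' : x :: v :: t :: w <:+ B ++ v :: t :: w := ⟨l, by simp [e]⟩
          exact (List.cons.inj ((List.suffix_of_suffix_length_le s s' le_rfl).eq_of_length rfl)).1
        rintro B (rfl | rfl) u w' s
        · exact key _ _ _ _ _ X.F.ndL eL s ▸ t1.ne X.hW X.h7 hk h1 a0 (bk hk)
        · exact key _ _ _ _ _ X.F.symm.ndL e1.symm s ▸ t2.ne X.hW X.h7 hk h1 a0 (bk hk)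
    · refine Or.inl (t2.trans ?_)
      have e : G.ps v a = _ :=
        (congrArg (G.ps v) t1).trans (Grid.ps_lk h1 (a := G.ps v b + 1) (by omega))
      have := G.seven_le v
      rw [E.pos_ps h1 a1 a2, show cy (G.dg v) (G.ps v b) (G.ps v a) = 1 by unfold cy; grind]
      rfl
    · exfalso
      have e : G.ps v b = _ :=
        (congrArg (G.ps v) t1).trans (Grid.ps_lk h1 (a := G.ps v a + 1) (by omega))
      unfold cy at ho
      grind
  · obtain ⟨w, e⟩ : ∃ w, D ++ top :: st = a :: w := by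
      have : D ++ top :: R.reverse = a :: C₁.reverse := by
        simpa using (congrArg List.reverse e2).symm
      cases D <;> simp only [List.nil_append, List.cons_append, List.cons.injEq] at this ⊢ <;>
        exact ⟨_, this.1, rfl⟩
    have s1 : b :: v :: a :: w <:+ L ++ top :: st := ⟨C₂.reverse, by simp [e1, e]⟩
    have s2 := (List.suffix_cons _ _).trans s1
    have sp := fun hk => X.F.spec X.hW X.h7 e1 e hk (X.F.brP.rule v hv hk v _ s2 ⟨D, e⟩
      (Or.inr fun e' => by have := s1.length_le; simp [← e'] at this))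
    exact (E.turnL X.hT' (X.F.brP.step b v _ s1 ⟨D, e⟩) (X.le h1) h1 (X.F.brP.adj s2)
      (List.isChain_iff_forall_rel_of_append_cons_cons.1 X.chain' h).symm
      fun hk => (sp hk).bk).mono fun hk hc => ⟨_, _, sp (E.deg v h1 ▸ hk), hc⟩

theorem dev : T.Dev T' k (fun i => E.π (cyc L R top i)) (cl L R top).length n
    (fun i => ψ (cyc L R top i)) (Sp G W c k top L R st) where
  h6 := E.h6
  hk := X.hk
  hT' := X.hT'
  cy := X.F.cy E
  three := X.three
  wn := X.wn
  pos := X.pos
  adj i hi := by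
    obtain ⟨C₁, C₂, e, rfl⟩ := cyc_split (L := L) (R := R) (top := top) (t := i) (by omega)
    obtain _ | ⟨a, C₂⟩ := C₂
    · rw [e] at hi; simp at hi
    · rw [cyc_next e]
      exact List.isChain_iff_forall_rel_of_append_cons_cons.1 X.chain' e
  inj i hi j hj e := X.F.inj' hi hj (X.F.inj _ (cl_mem.1 (cyc_mem hi)) _ (cl_mem.1 (cyc_mem hj)) e)
  turn i hi := by
    obtain ⟨C₁, C₂, e, rfl⟩ := cyc_split (L := L) (R := R) (top := top) (t := i) (by omega)
    obtain _ | ⟨a, _ | ⟨b, C₂⟩⟩ := C₂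
    · rw [e] at hi; simp at hi
    · rw [e] at hi; simp at hi
    · have e1 : cyc L R top (C₁.length + 1) = a := cyc_next e
      have e2 := cyc_next (C₁ := C₁ ++ [cyc L R top C₁.length]) (v := a) (C₂ := b :: C₂)
        (e.trans (by simp))
      simp only [List.length_append, List.length_singleton, List.headD_cons] at e2
      have := X.turn e
      simp only [Sp, e1, e2, Nat.add_sub_cancel]
      exact this

end Ctx
end Pool.Agent.P.MP_e4ac67_pr.Gr
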