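import Pool.Agent.P.MP_e4ac67_pr.A.Flat

/-! Cutting a disc along a chord or along two edges through an interior vertex. -/

namespace Pool.Agent.P.MP_e4ac67_pr
namespace PlaneTri
variable {V : Type} {T : PlaneTri V} {f : ℕ → V} {m : ℕ} {n : V → V → ℤ}

variable (T) in
/-- the simple path `p s, ..., p t` -/
structure Pa (p : ℕ → V) (s t : ℕ) : Prop where
  adj : ∀ i, s ≤ i → i < t → T.G.Adj (p i) (p (i + 1))
  inj : ∀ i j, s ≤ i → i ≤ t → s ≤ j → j ≤ t → p i = p j → i = j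

theorem Cy.pa (h : T.Cy f m) {s t : ℕ} (ht : t < m) : T.Pa f s t :=
  ⟨fun i _ h2 => h.adj i (by omega), fun i j _ h2 _ h4 => h.inj i (by omega) j (by omega)⟩

theorem Cy.pa_wrap (h : T.Cy f m) {s t : ℕ} (hst : s < t) (ht : t < m) : ∃ p : ℕ → V,
    T.Pa p t (s + m) ∧ p t = f t ∧ p (s + m) = f s ∧ (∀ i, i ≤ s + m → On f m (p i)) ∧
      ∀ a b, pc p t (s + m) a b = pc f t m a b + pc f 0 s a b := by
  have e0 : ∀ i, m ≤ i → (if i ≤ m then f i else f (i - m)) = f (i - m) := fun i hi => by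
    split_ifs with h1
    · rw [show i = m by omega, h.cl, Nat.sub_self]
    · rfl
  refine ⟨fun i => if i ≤ m then f i else f (i - m), ⟨fun i h1 h2 => ?_, fun i j h1 h2 h3 h4 e => ?_⟩,
    if_pos ht.le, (e0 _ (by omega)).trans (by simp), fun i hi => ?_, fun a b => ?_⟩
  · by_cases h3 : i < m
    · rw [if_pos h3.le, if_pos (by omega)]; exact h.adj i h3
    · rw [e0 _ (by omega), e0 _ (by omega), show i + 1 - m = i - m + 1 by omega]
      exact h.adj _ (by omega)
  · by_cases h5 : i < m <;> by_cases h6 : j < m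
    · rw [if_pos h5.le, if_pos h6.le] at e; exact h.inj _ h5 _ h6 e
    · rw [if_pos h5.le, e0 _ (by omega)] at e; have := h.inj _ h5 _ (by omega) e; omega
    · rw [if_pos h6.le, e0 _ (by omega)] at e; have := h.inj _ (by omega) _ h6 e; omega
    · rw [e0 _ (by omega), e0 _ (by omega)] at e
      have := h.inj _ (by omega) _ (by omega) e; omega
  · beta_reduce
    split_ifs with h1
    · exact h.on h1
    · exact h.on (by omega)
  · rw [← pc_add _ ht.le (by omega : m ≤ s + m),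
      pc_shift (f := f) (s' := t) (fun i h1 h2 => by rw [if_pos h2]; congr 1; omega) ht.le,
      pc_shift (f := f) (s := m) (s' := 0) (fun i h1 _ => by rw [e0 _ h1]; rfl) (by omega),
      show m - t + t = m by omega, show s + m - m + 0 = s by omega]

/-- a simple path closed through a new vertex -/
theorem Pa.cy {p : ℕ → V} {s t : ℕ} (h : T.Pa p s t) (hst : s ≤ t) {z : V}
    (hz : ∀ i, s ≤ i → i ≤ t → p i ≠ z) (h1 : T.G.Adj (p t) z) (h2 : T.G.Adj z (p s)) :
    ∃ g : ℕ → V, T.Cy g (t - s + 2) ∧ (∀ i ≤ t - s, g i = p (s + i)) ∧ g (t - s + 1) = z ∧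
      ∀ a b, pc g 0 (t - s + 2) a b = pc p s t a b + dd (p t) z a b + dd z (p s) a b := by
  set g : ℕ → V := fun i => if i ≤ t - s then p (s + i) else if i = t - s + 1 then z else p s
  have g1 : ∀ i ≤ t - s, g i = p (s + i) := fun i hi => if_pos hi
  have g2 : g (t - s + 1) = z := (if_neg (by omega)).trans (if_pos rfl)
  have g3 : g (t - s + 2) = p s := (if_neg (by omega)).trans (if_neg (by omega))
  have g4 : g (t - s) = p t := by rw [g1 _ le_rfl]; congr 1; omega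
  refine ⟨g, ⟨by omega, fun i hi => ?_, by rw [g3, g1 0 (by omega), add_zero],
    fun i hi j hj e => ?_⟩, g1, g2, fun a b => ?_⟩
  · rcases lt_trichotomy i (t - s) with h3 | rfl | h3
    · rw [g1 _ h3.le, g1 _ h3]; exact h.adj _ (by omega) (by omega)
    · rwa [g2, g4]
    · rw [show i = t - s + 1 by omega, g2, g3]; exact h2
  · by_cases h3 : i ≤ t - s <;> by_cases h4 : j ≤ t - s
    · rw [g1 _ h3, g1 _ h4] at e
      have := h.inj _ _ (by omega) (by omega) (by omega) (by omega) e; omega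
    · rw [g1 _ h3, show j = t - s + 1 by omega, g2] at e
      exact absurd e (hz _ (by omega) (by omega))
    · rw [g1 _ h4, show i = t - s + 1 by omega, g2] at e
      exact absurd e.symm (hz _ (by omega) (by omega))
    · omega
  · rw [pc_succ _ (by omega), pc_succ _ (by omega), g2, g3, g4,
      pc_shift (f := p) (s' := s) (fun i _ h2 => by rw [g1 _ h2, add_comm]; rfl) (by omega),
      show t - s - 0 + s = t by omega]

/-- a simple path closed by a chord -/
theorem Pa.cy' {p : ℕ → V} {s t : ℕ} (h : T.Pa p s t) (hst : s < t) (h2 : T.G.Adj (p t) (p s)) :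
    ∃ g : ℕ → V, T.Cy g (t - s + 1) ∧ (∀ i ≤ t - s, g i = p (s + i)) ∧
      ∀ a b, pc g 0 (t - s + 1) a b = pc p s t a b + dd (p t) (p s) a b := by
  obtain ⟨u, rfl⟩ : ∃ u, t = u + 1 := ⟨t - 1, by omega⟩
  obtain ⟨g, g1, g2, g3, g4⟩ := Pa.cy (s := s) (t := u) (z := p (u + 1))
    ⟨fun i h1 h2 => h.adj i h1 (by omega), fun i j h1 h2 h3 h4 => h.inj i j h1 (by omega) h3
      (by omega)⟩ (by omega) (fun i h1 h3 e => by
      have := h.inj _ _ h1 (by omega) (by omega) le_rfl e; omega) (h.adj u (by omega) (by omega)) h2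
  rw [show u + 1 - s + 1 = u - s + 2 by omega]
  refine ⟨g, g1, fun i hi => ?_, fun a b => by rw [g4, pc_succ p (by omega)]⟩
  rcases hi.lt_or_eq with h3 | rfl
  · exact g2 i (by omega)
  · rw [show u + 1 - s = u - s + 1 by omega, g3]; congr 1; omega

variable (T) in
/-- `n'` is a smaller disc inside the disc `n` -/
structure Sub (n' n : V → V → ℤ) : Prop where
  pos : T.Pos n'
  le : ∀ a b, T.G.Adj a b → n' a b = 1 → n a b = 1
  lt : T.area n' < T.area n

theorem cut (h6 : ∀ v, 6 ≤ T.deg v) {c : V → V → ℤ} (hn : T.Wn n c) (hp : T.Pos n)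
    {g g' : ℕ → V} {l l' i i' : ℕ} (hg : T.Cy g l) (hg' : T.Cy g' l')
    (hc : ∀ a b, c a b = pc g 0 l a b + pc g' 0 l' a b) (hi : i < l) (hi' : i' < l')
    (e1 : g' i' = g (i + 1)) (e2 : g' (i' + 1) = g i) (h1 : n (g i) (g (i + 1)) = 1)
    (h2 : n (g (i + 1)) (g i) = 1) : ∃ n', T.Wn n' (pc g 0 l) ∧ T.Sub n' n := by
  obtain ⟨n1, hn1⟩ := exists_wn g _ hg.adj hg.cl
  obtain ⟨n2, hn2⟩ := exists_wn g' _ hg'.adj hg'.cl
  have hs : ∀ a b, T.G.Adj a b → n a b = n1 a b + n2 a b := fun a b e =>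
    hn.unique h6 ((hn1.add hn2).congr hc) e
  have ha := hg.adj i hi
  have r1 := hn1.right_le h6 hg hi
  have r2 := hn2.right_le h6 hg' hi'
  have r3 := hn1.le_one h6 hg ha
  have r4 := hn2.le_one h6 hg' ha.symm
  rw [e1, e2] at r2
  have s1 := hs _ _ ha
  have s2 := hs _ _ ha.symm
  have p1 := hn1.pos_of h6 hg hi (by omega)
  have p2 := hn2.pos_of h6 hg' hi' (by rw [e1, e2]; omega)
  have hall : ∀ a b, T.G.Adj a b → (n1 a b = 1 → n a b = 1) ∧ (n a b = 0 → n1 a b = 0) :=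
    fun a b e => by have := hs a b e; have := hp a b e; have := p1 a b e; have := p2 a b e; omega
  exact ⟨n1, hn1, p1, fun a b e => (hall a b e).1,
    area_lt hn (fun a b e => (hall a b e).2) ha.symm (by omega) (by omega)⟩

theorem pc_three (f : ℕ → V) {s t m : ℕ} (h1 : s ≤ t) (h2 : t ≤ m) (a b : V) :
    pc f 0 m a b = pc f 0 s a b + pc f s t a b + pc f t m a b := by
  rw [pc_add f (Nat.zero_le s) h1, pc_add f (Nat.zero_le t) h2]

/-- cutting along a chord -/
theorem cut1 (h6 : ∀ v, 6 ≤ T.deg v) (h : T.Cy f m) (hn : T.Wn n (pc f 0 m)) (hp : T.Pos n)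
    {s t : ℕ} (hst : s < t) (ht : t < m) (ha : T.G.Adj (f t) (f s)) (h1 : n (f t) (f s) = 1)
    (h2 : n (f s) (f t) = 1) : ∃ (g : ℕ → V) (n' : V → V → ℤ), T.Cy g (t - s + 1) ∧
      (∀ i ≤ t - s, g i = f (s + i)) ∧ T.Wn n' (pc g 0 (t - s + 1)) ∧ T.Sub n' n := by
  obtain ⟨g, g1, g2, g3⟩ := (h.pa (s := s) ht).cy' hst ha
  obtain ⟨p, p1, p2, p3, -, p5⟩ := h.pa_wrap hst ht
  obtain ⟨g', q1, q2, q3⟩ := p1.cy' (by omega) (by rw [p2, p3]; exact ha.symm)
  have a1 : g (t - s) = f t := by rw [g2 _ le_rfl]; congr 1; omega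
  have a2 : g (t - s + 1) = f s := by rw [g1.cl, g2 0 (by omega), add_zero]
  obtain ⟨n', b1, b2⟩ := cut h6 hn hp g1 q1 (i := t - s) (i' := s + m - t) (fun a b => by
      rw [g3, q3, p5, p2, p3, pc_three f hst.le ht.le, dd_rev (f t)]; ring) (by omega) (by omega)
    (by rw [a2, q2 _ le_rfl, ← p3]; congr 1; omega)
    (by rw [a1, q1.cl, q2 0 (by omega), add_zero, p2]) (by rwa [a1, a2]) (by rwa [a1, a2])
  exact ⟨g, n', g1, g2, b1, b2⟩

/-- cutting through an interior vertex -/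
theorem cut2 (h6 : ∀ v, 6 ≤ T.deg v) (h : T.Cy f m) (hn : T.Wn n (pc f 0 m)) (hp : T.Pos n)
    {s t : ℕ} (hst : s < t) (ht : t < m) {z : V} (hz : T.Inn n z) (h1 : T.G.Adj z (f s))
    (h2 : T.G.Adj z (f t)) : ∃ (g : ℕ → V) (n' : V → V → ℤ), T.Cy g (t - s + 2) ∧
      (∀ i ≤ t - s, g i = f (s + i)) ∧ g (t - s + 1) = z ∧ T.Wn n' (pc g 0 (t - s + 2)) ∧
      T.Sub n' n := by
  have ho : ¬On f m z := fun e => hn.not_inn h6 h e hz
  obtain ⟨g, g1, g2, g3, g4⟩ := (h.pa (s := s) ht).cy hst.le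
    (z := z) (fun i _ h4 e => ho (e ▸ h.on (i := i) (by omega))) h2.symm h1
  obtain ⟨p, p1, p2, p3, p4, p5⟩ := h.pa_wrap hst ht
  obtain ⟨g', q1, q2, q3, q4⟩ := p1.cy (z := z) (by omega) (fun i _ h4 e => ho (e ▸ p4 i h4))
    (by rw [p3]; exact h1.symm) (by rw [p2]; exact h2)
  have a2 : g (t - s + 1 + 1) = f s := by rw [g1.cl, g2 0 (by omega), add_zero]
  obtain ⟨n', b1, b2⟩ := cut h6 hn hp g1 q1 (i := t - s + 1) (i' := s + m - t) (fun a b => by
      rw [g4, q4, p5, p2, p3, pc_three f hst.le ht.le, dd_rev (f t), dd_rev (f s)]; ring)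
    (by omega) (by omega) (by rw [a2, q2 _ le_rfl, ← p3]; congr 1; omega) (by rw [q3, g3])
    (by rw [a2, g3]; exact hz _ h1)
    (by rw [a2, g3, (hn.off h ho h1 h1).2]; exact hz _ h1)
  exact ⟨g, n', g1, g2, g3, b1, b2⟩

/-- a vertex of the outer cycle in the closed inner disc is on the inner cycle -/
theorem on_of_cl (h6 : ∀ v, 6 ≤ T.deg v) (h : T.Cy f m) (hn : T.Wn n (pc f 0 m)) {g : ℕ → V}
    {l : ℕ} {n' : V → V → ℤ} (hg : T.Cy g l) (hn' : T.Wn n' (pc g 0 l))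
    (hle : ∀ a b, T.G.Adj a b → n' a b = 1 → n a b = 1) {v : V} (hv : On f m v)
    (hc : T.Cl n' v) : On g l v := by
  by_contra e
  exact hn.not_inn h6 h hv fun w hw => hle _ _ hw (hn'.inn hg e hc w hw)

/-- the faces in the inner corner at a vertex of a positive cycle -/
theorem Wn.corner' (h6 : ∀ v, 6 ≤ T.deg v) (h : T.Cy f m) (h3 : 3 ≤ m) (hn : T.Wn n (pc f 0 m))
    (hp : T.Pos n) {i j : ℕ} (hi : i < m) (hj : j < m) (e : f (j + 1) = f i) {s : ℕ}
    (hs : s < T.deg (f i)) : n (f i) (T.rot (f i) (f (i + 1)) s) =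
      if s < T.pos (f i) (f (i + 1)) (f j) then 1 else 0 := by
  rw [(hn.corner h h3 hi hj e hs).2, hn.left_one h6 h h3 hp hi]
  rfl

/-- both ends of a fan of faces of the disc are in the closed disc -/
theorem Wn.cl_rot {c : V → V → ℤ} (hn : T.Wn n c) {z v : V} (hv : T.G.Adj z v) {d i : ℕ}
    (hd : 0 < d) (hf : ∀ j < d, n z (T.rot z v j) = 1) (hi : i ≤ d) : T.Cl n (T.rot z v i) := by
  rcases hi.lt_or_eq with hi | rfl
  · exact (hn.cl_face (adj_rot hv i) (hf i hi)).2.1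
  · obtain ⟨j, rfl⟩ : ∃ j, i = j + 1 := ⟨i - 1, by omega⟩
    exact rot_succ (T := T) z v j ▸ (hn.cl_face (adj_rot hv j) (hf j (by omega))).2.2

end PlaneTri
end Pool.Agent.P.MP_e4ac67_pr
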