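import Pool.Agent.P.MP_e4ac67_pr.A.Win

/-! The cycle made of two branches. -/

namespace Pool.Agent.P.MP_e4ac67_pr.Gr
open PlaneTri

def cl (L R : List Pt) (top : Pt) : List Pt := R ++ top :: L.reverse

def cyc (L R : List Pt) (top : Pt) (i : ℕ) : Pt := (cl L R top ++ [R.headD top]).getD i top

section
variable {L R C₁ C₂ : List Pt} {top v u : Pt}

theorem cl_len : (cl L R top).length = R.length + L.length + 1 := by simp [cl]; omega

theorem cl_rev (h : cl L R top = C₁ ++ v :: C₂) : cl R L top = C₂.reverse ++ v :: C₁.reverse := by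
  have := congrArg List.reverse h
  simpa [cl] using this

theorem cl_mem : v ∈ cl L R top ↔ v ∈ L ++ R ++ [top] := by simp [cl]; tauto

theorem cyc_at (h : cl L R top = C₁ ++ v :: C₂) : cyc L R top C₁.length = v := by simp [cyc, h]

theorem cyc_next (h : cl L R top = C₁ ++ v :: C₂) :
    cyc L R top (C₁.length + 1) = C₂.headD (R.headD top) := by
  cases C₂ <;> simp [cyc, h]

theorem cyc_split {t : ℕ} (ht : t < (cl L R top).length) :
    ∃ C₁ C₂, cl L R top = C₁ ++ cyc L R top t :: C₂ ∧ C₁.length = t := by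
  have e := (List.take_append_drop t (cl L R top)).symm
  rw [List.drop_eq_getElem_cons ht] at e
  have e1 : ((cl L R top).take t).length = t := by simp [ht.le]
  have e2 := cyc_at e
  rw [e1] at e2
  exact ⟨_, _, e2 ▸ e, e1⟩

theorem cyc_mem {t : ℕ} (ht : t < (cl L R top).length) : cyc L R top t ∈ cl L R top := by
  obtain ⟨C₁, C₂, h, -⟩ := cyc_split ht
  exact h ▸ by simp

theorem cyc_zero : cyc L R top 0 = R.headD top := by cases R <;> simp [cyc, cl]

theorem cyc_len : cyc L R top (cl L R top).length = R.headD top := by simp [cyc]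

theorem cyc_last : cyc L R top (R.length + L.length) = L.headD top := by
  cases L with
  | nil => exact cyc_at (C₂ := []) rfl
  | cons a L =>
    have := cyc_at (L := a :: L) (R := R) (top := top) (C₁ := R ++ top :: L.reverse) (v := a)
      (C₂ := []) (by simp [cl])
    simpa using this

theorem cyc_fst (h : cl L R top = C₁ ++ v :: C₂) (hu : u ∈ C₁) :
    ∃ j < C₁.length, cyc L R top j = u := by
  obtain ⟨D₁, D₂, rfl⟩ := List.append_of_mem hu
  exact ⟨D₁.length, by simp, cyc_at (C₂ := D₂ ++ v :: C₂) (by simp [h])⟩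

theorem cyc_snd (h : cl L R top = C₁ ++ v :: C₂) (hu : u ∈ C₂) :
    ∃ j < (cl L R top).length, C₁.length < j ∧ cyc L R top j = u := by
  obtain ⟨D₁, D₂, rfl⟩ := List.append_of_mem hu
  exact ⟨(C₁ ++ v :: D₁).length, by simp [h], by simp, cyc_at (C₂ := D₂) (by simp [h])⟩

theorem cyc_ex (hu : u ∈ cl L R top) : ∃ j < (cl L R top).length, cyc L R top j = u := by
  obtain ⟨D₁, D₂, h⟩ := List.append_of_mem hu
  exact ⟨D₁.length, by simp [h], cyc_at h⟩

theorem cl_tri (h : cl L R top = C₁ ++ v :: C₂) :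
    (∃ D, R = C₁ ++ v :: D ∧ C₂ = D ++ top :: L.reverse) ∨ (C₁ = R ∧ v = top ∧ C₂ = L.reverse) ∨
      ∃ D, L = C₂.reverse ++ v :: D ∧ C₁ = R ++ top :: D.reverse := by
  rcases List.append_eq_append_iff.1 h with ⟨a, h1, h2⟩ | ⟨a, h1, h2⟩
  · obtain _ | ⟨b, a⟩ := a
    · simp only [List.nil_append, List.cons.injEq, List.append_nil] at h1 h2
      exact Or.inr (Or.inl ⟨h1, h2.1.symm, h2.2.symm⟩)
    · simp only [List.cons_append, List.cons.injEq] at h2
      refine Or.inr (Or.inr ⟨a.reverse, ?_, by simp [h1, h2.1]⟩)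
      simpa using congrArg List.reverse h2.2
  · obtain _ | ⟨b, a⟩ := a
    · simp only [List.nil_append, List.cons.injEq, List.append_nil] at h1 h2
      exact Or.inr (Or.inl ⟨h1.symm, h2.1, h2.2⟩)
    · simp only [List.cons_append, List.cons.injEq] at h2
      exact Or.inl ⟨a, h2.1 ▸ h1, h2.2⟩

theorem cyc_rel {r : Pt → Pt → Prop} (h : (cl L R top ++ [R.headD top]).IsChain r) {t : ℕ}
    (ht : t < (cl L R top).length) : r (cyc L R top t) (cyc L R top (t + 1)) := by
  obtain ⟨C₁, C₂, e, rfl⟩ := cyc_split ht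
  rw [cyc_next e]
  rw [e] at h
  cases C₂ with
  | nil => exact List.isChain_iff_forall_rel_of_append_cons_cons.1 h (l₁ := C₁) (l₂ := []) (by simp)
  | cons a C₂ =>
    exact List.isChain_iff_forall_rel_of_append_cons_cons.1 h (l₁ := C₁)
      (l₂ := C₂ ++ [R.headD top]) (by simp)

theorem cl_chain {r : Pt → Pt → Prop} (hs : ∀ a b, r a b → r b a) (hL : (L ++ [top]).IsChain r)
    (hR : (R ++ [top]).IsChain r) : (cl L R top).IsChain r := by
  refine List.isChain_split.2 ⟨hR, ?_⟩
  have := List.isChain_reverse.2 (hL.imp hs)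
  simpa using this

theorem cyc_inj (h : (cl L R top).Nodup) {i j : ℕ} (hi : i < (cl L R top).length)
    (hj : j < (cl L R top).length) (e : cyc L R top i = cyc L R top j) : i = j := by
  simp only [cyc, List.getD_eq_getElem?_getD, List.getElem?_append_left, hi, hj,
    List.getElem?_eq_getElem, Option.getD_some] at e
  exact h.getElem_inj_iff.1 e

theorem sfx_uniq {l w w' : List Pt} (h : l.Nodup) (h1 : v :: w <:+ l) (h2 : v :: w' <:+ l) :
    w = w' := by
  wlog e : w.length ≤ w'.length generalizing w w'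
  · exact (this h2 h1 (by omega)).symm
  rcases List.suffix_cons_iff.1 (List.suffix_of_suffix_length_le h1 h2 (by simpa using e)) with
    h3 | h3
  · exact (List.cons.inj h3).2
  · exact absurd (h3.subset (by simp)) (List.nodup_cons.1 (h.sublist h2.sublist)).1

end

namespace Grid
variable {G : Grid} {V' : Type} {T' : PlaneTri V'} {W : Pt → Pt → Prop} {c : Pt → ℕ} {k N : ℕ}
  {ψ : Pt → V'} {o top z v u b : Pt} {L R st w C₁ C₂ : List Pt}

theorem Fail.symm (F : G.Fail W c k T' ψ o N L R top st) : G.Fail W c k T' ψ o N R L top st where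
  root := F.root
  last := F.last
  dom := F.dom
  real := F.real
  nodup := ((List.perm_append_comm.append_right _).nodup_iff).1 F.nodup
  brP := F.brQ
  brQ := F.brP
  three := by have := F.three; omega
  close := F.close.symm
  inj u hu v hv := F.inj u (by simp at hu ⊢; tauto) v (by simp at hv ⊢; tauto)
  top u v h1 h2 := by have := F.top v u h2 h1; tauto

theorem Br.adj (B : G.Br W c k T' ψ o N L top st) (h : u :: v :: w <:+ L ++ top :: st) :
    G.Adj u v := (List.isChain_cons_cons.1 (B.ch.suffix h)).1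

namespace Fail
variable (F : G.Fail W c k T' ψ o N L R top st)
include F

theorem nd : (cl L R top ++ st).Nodup := by
  refine (List.Perm.nodup_iff ?_).1 F.nodup
  rw [List.perm_iff_count]
  intro a
  simp [cl, List.count_cons]
  omega

theorem ndL : (L ++ top :: st).Nodup :=
  F.nodup.sublist ((List.sublist_append_left _ _).append_right _)

theorem disj (h : v ∈ L) : v ∉ R ++ top :: st := fun e =>
  (List.nodup_append.1 (List.append_assoc _ _ _ ▸ F.nodup)).2.2 v h v e rfl

theorem hm (h : v ∈ cl L R top) : G.Hm o N v := by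
  simp only [cl_mem, List.mem_append, List.mem_singleton] at h
  rcases h with (h | h) | rfl
  exacts [F.brP.real v h, F.brQ.real v h, F.real]

theorem lev (h : G.Hm o N v) : 2 ≤ v.1 := F.root.1.trans h.1.1

theorem cone (h : G.Hm o N v) : G.Cn 0 (0, 0) v := cone_trans F.root.2 h.1

theorem chain : (cl L R top ++ [R.headD top]).IsChain G.Adj := by
  refine (cl_chain (fun _ _ => Adj.symm) (List.isChain_split.1 F.brP.ch).1
    (List.isChain_split.1 F.brQ.ch).1).append (List.isChain_singleton _) fun x hx y hy => ?_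
  obtain rfl : L.headD top = x := by
    cases L with
    | nil => simpa [cl] using hx
    | cons a L =>
      rw [show cl (a :: L) R top = (R ++ top :: L.reverse) ++ [a] by simp [cl],
        List.getLast?_concat] at hx
      exact Option.some.inj hx
  obtain rfl : R.headD top = y := by simpa using hy
  exact F.close

theorem base (hW : G.TubeOK W c) (hz : G.Hm o N z) (h : st <:+ w) : ∃ v ∈ w, Wz W z v := by
  refine ⟨_, h.subset (List.mem_of_getLast? F.last), hW.wz (.step (cone_anc hz.1) ?_ ?_)⟩
  · have := F.root.1; rw [nb_zero]; simp only; omega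
  · have := G.lp_spec (o.1 - 1) o.2
    rw [nb_zero]
    exact ⟨this.1.le, this.2⟩

omit F in
theorem mem {B : List Pt} (hB : B = L ∨ B = R) (h : v ∈ B ++ top :: st) (hv : v ∉ st) :
    v ∈ cl L R top := by
  rcases hB with rfl | rfl <;> simp [cl] at h ⊢ <;> tauto

theorem sideR (hW : G.TubeOK W c) (hz : G.Hm o N z) (h : cl L R top = C₁ ++ b :: C₂)
    (hb : Wz W z b) : (∀ u ∈ itr W z (R ++ top :: st), u ∉ st → u ∈ C₁) ∧
    (bas W z (R ++ top :: st) ∉ st → bas W z (R ++ top :: st) ∈ C₁ ++ [b]) ∧
    (bas W z (R ++ top :: st) = b → itr W z (R ++ top :: st) = C₁ ∧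
      (b = top ∨ ∃ D, R = C₁ ++ b :: D ∧ C₂ = D ++ top :: L.reverse)) := by
  have nb : b ∉ C₁ := by
    have := F.nd
    rw [h] at this
    grind
  rcases cl_tri h with ⟨D, h1, h2⟩ | ⟨h1, h2, h3⟩ | ⟨D, h1, h2⟩
  · have := itr_split (l := C₁) (w := D ++ top :: st) hb
    rw [show C₁ ++ b :: (D ++ top :: st) = R ++ top :: st by simp [h1]] at this
    exact ⟨fun u hu _ => this.1 u hu, fun _ => this.2.1,
      fun e => ⟨this.2.2 (e ▸ nb), Or.inr ⟨D, h1, h2⟩⟩⟩
  · subst h1 h2
    have := itr_split (l := C₁) (w := st) hb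
    exact ⟨fun u hu _ => this.1 u hu, fun _ => this.2.1, fun e => ⟨this.2.2 (by rwa [e]), Or.inl rfl⟩⟩
  · obtain ⟨r, e, -⟩ := itr_bas (F.base (w := R ++ top :: st) hW hz ⟨R ++ [top], by simp⟩)
    have e' : bas W z (R ++ top :: st) ∈ R ++ top :: st := by
      generalize bas W z (R ++ top :: st) = x at e
      rw [e]
      simp
    have key : ∀ u ∈ R ++ top :: st, u ∉ st → u ∈ C₁ := fun u hu hu' => by
      simp [h2] at hu ⊢; tauto
    exact ⟨fun u hu => key u (itr_sub hu), fun e => by simp [key _ e' e],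
      fun e => absurd (e ▸ e') (F.disj (by simp [h1]))⟩

/-- two last arcs meet only if they come from the stem together -/
theorem meet {D : List Pt} (hD : ∀ v ∈ D, v ∈ R) (h1 : v ∈ itr W z (D ++ top :: st))
    (h2 : v ∈ itr W z (L ++ top :: st)) :
    (itr W z (D ++ top :: st)).getLast? = (itr W z (L ++ top :: st)).getLast? := by
  have a1 := itr_reach h1 fun e => F.symm.disj (hD v e) (itr_sub h2)
  have a2 := itr_reach h2 fun e => F.disj e (by
    have := itr_sub h1
    simp at this ⊢
    exact this.imp_left (hD v))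
  rw [a1.1, a2.1, List.getLast?_append_of_ne_nil _ a1.2, List.getLast?_append_of_ne_nil _ a1.2]

end Fail
end Grid
end Pool.Agent.P.MP_e4ac67_pr.Gr
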