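import Pool.Agent.P.MP_e4ac67_pr.A.Cut

/-! Developing a cycle into the regular triangulation: either the disc is flat or some special
vertex has a link vertex off the cycle. -/

namespace Pool.Agent.P.MP_e4ac67_pr
namespace PlaneTri
variable {V V' : Type} {T : PlaneTri V} {T' : PlaneTri V'} {k : ℕ}

variable (T) in
/-- no long window of link vertices of `z` on the cycle goes across the base point -/
def Skip (k : ℕ) (f : ℕ → V) (M : ℕ) (n : V → V → ℤ) (z : V) : Prop :=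
  ∀ j' j d, j' < j → j < M → T.G.Adj z (f j) → f j' = T.rot z (f j) d → T.deg z ≤ k + d →
    d < T.deg z → (∀ i < d, n z (T.rot z (f j) i) = 1) → (∀ i ≤ d, On f M (T.rot z (f j) i)) →
    (∀ t < M, f t = z → j' < t ∧ t < j) → False

variable (T) in
/-- for excess one: the cycle does not go tightly around a single skipped link vertex -/
def Skip2 (k : ℕ) (f : ℕ → V) (M : ℕ) (n : V → V → ℤ) (z : V) : Prop :=
  ∀ j' j l l', j' < j → j < M → l < M → j' < l → l' < j → T.deg z = k + 1 → T.G.Adj z (f j) →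
    f j' = T.rot z (f j) 2 → (∀ i < 2, n z (T.rot z (f j) i) = 1) → ¬On f M (T.rot z (f j) 1) →
    (∀ t < M, f t = z → j' < t ∧ t < j) → f l = T.rot (T.rot z (f j) 1) z 2 →
    f l' = T.rot (T.rot z (f j) 1) z (T.deg (T.rot z (f j) 1) - 2) → False

variable (T T') in
/-- the image turns like the path, or the vertex is special and the excess is omitted -/
def Turn (k : ℕ) (Sp : Prop) (a x b : V) (a' x' b' : V') : Prop :=
  a' = T'.rot x' b' (T.pos x b a) ∨ (Sp ∧ k < T.deg x ∧ T.deg x - k ≤ T.pos x b a ∧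
    a' = T'.rot x' b' (T.pos x b a - (T.deg x - k)))

variable (T T') in
structure Dev (k : ℕ) (f : ℕ → V) (M : ℕ) (n : V → V → ℤ) (ψ : ℕ → V') (Sp : ℕ → Prop) :
    Prop where
  h6 : ∀ v, 6 ≤ T.deg v
  hk : ∀ v, k ≤ T.deg v
  hT' : ∀ v, T'.deg v = k
  cy : T.Cy f M
  three : 3 ≤ M
  wn : T.Wn n (pc f 0 M)
  pos : T.Pos n
  adj : ∀ i, i + 1 < M → T'.G.Adj (ψ i) (ψ (i + 1))
  inj : ∀ i < M, ∀ j < M, ψ i = ψ j → i = j
  turn : ∀ t, t + 2 < M → T.Turn T' k (Sp (t + 1)) (f t) (f (t + 1)) (f (t + 2))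
    (ψ t) (ψ (t + 1)) (ψ (t + 2))

variable (T T') in
/-- a vertex with excess having the skip properties -/
def Found (k : ℕ) (f : ℕ → V) (M : ℕ) (n : V → V → ℤ) (ψ : ℕ → V') (Sp : ℕ → Prop) : Prop :=
  ∃ z, k < T.deg z ∧ T.Skip k f M n z ∧ T.Skip2 k f M n z ∧
    (T.Inn n z ∨ ∃ t, t + 2 < M ∧ f (t + 1) = z ∧
      Sp (t + 1) ∧ ∀ j < M, T.G.Adj z (f j) → n z (f j) = 1 ∨ n (f j) z = 1 →
        T'.G.Adj (ψ (t + 1)) (ψ j))

variable (T) in
/-- a part of the disc bounded by `f a, ..., f (a+r)` and a chord or an interior vertex -/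
structure Part (f : ℕ → V) (M : ℕ) (n : V → V → ℤ) (g : ℕ → V) (m : ℕ) (n' : V → V → ℤ)
    (a r : ℕ) : Prop where
  cy : T.Cy g m
  wn : T.Wn n' (pc g 0 m)
  pos : T.Pos n'
  le : ∀ a b, T.G.Adj a b → n' a b = 1 → n a b = 1
  one : 1 ≤ r
  lt : r < m
  two : m ≤ r + 2
  rng : a + r < M
  eq : ∀ i ≤ r, g i = f (a + i)
  off : m = r + 2 → ¬On f M (g (r + 1))

variable (T T') in
def Flt (ψ : ℕ → V') (g : ℕ → V) (n' : V → V → ℤ) (a r : ℕ) : Prop :=
  ∃ φ, T.FP T' n' φ ∧ ∀ i ≤ r, φ (g i) = ψ (a + i)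

variable {f g : ℕ → V} {M m a r : ℕ} {n n' : V → V → ℤ} {ψ : ℕ → V'} {Sp : ℕ → Prop}

theorem Part.idx (D : T.Dev T' k f M n ψ Sp) (P : T.Part f M n g m n' a r) {v : V}
    (hv : On f M v) (hc : T.Cl n' v) : ∃ i ≤ r, g i = v := by
  obtain ⟨i, hi, rfl⟩ := on_of_cl D.h6 D.cy D.wn P.cy P.wn P.le hv hc
  refine ⟨i, ?_, rfl⟩
  by_contra h
  have := P.two
  exact P.off (by omega) (by rwa [show r + 1 = i by omega])

theorem Part.chord (D : T.Dev T' k f M n ψ Sp) (P : T.Part f M n g m n' a r) {s t : ℕ}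
    (hst : s < t) (ht : t ≤ r) (ha : T.G.Adj (g t) (g s)) (h1 : n' (g t) (g s) = 1)
    (h2 : n' (g s) (g t) = 1) : ∃ g₁ n₁, T.Part f M n g₁ (t - s + 1) n₁ (a + s) (t - s) ∧
      T.Sub n₁ n' := by
  have := P.rng
  obtain ⟨g₁, n₁, h3, h4, h5, h6⟩ := cut1 D.h6 P.cy P.wn P.pos hst (ht.trans_lt P.lt) ha h1 h2
  exact ⟨g₁, n₁, ⟨h3, h5, h6.pos, fun x y e e' => P.le x y e (h6.le x y e e'), by omega, by omega,
    by omega, by omega, fun i hi => by rw [h4 i hi, P.eq _ (by omega), add_assoc], by omega⟩, h6⟩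

theorem Part.via (D : T.Dev T' k f M n ψ Sp) (P : T.Part f M n g m n' a r) {s t : ℕ}
    (hst : s < t) (ht : t ≤ r) {z : V} (hz : T.Inn n' z) (h1 : T.G.Adj z (g s))
    (h2 : T.G.Adj z (g t)) : ∃ g₁ n₁, T.Part f M n g₁ (t - s + 2) n₁ (a + s) (t - s) ∧
      T.Sub n₁ n' ∧ g₁ (t - s + 1) = z ∧
      ∀ p < T.pos z (g s) (g t), n₁ z (T.rot z (g s) p) = 1 := by
  have := P.rng
  obtain ⟨g₁, n₁, h3, h4, h7, h5, h6⟩ := cut2 D.h6 P.cy P.wn P.pos hst (ht.trans_lt P.lt) hz h1 h2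
  refine ⟨g₁, n₁, ⟨h3, h5, h6.pos, fun x y e e' => P.le x y e (h6.le x y e e'), by omega, by omega,
    by omega, by omega, fun i hi => by rw [h4 i hi, P.eq _ (by omega), add_assoc], fun _ e =>
      D.wn.not_inn D.h6 D.cy e fun w hw => P.le _ _ hw (by rw [h7] at hw ⊢; exact hz w hw)⟩,
    h6, h7, fun p hp => ?_⟩
  have e := h5.corner' D.h6 h3 (by omega) h6.pos (i := t - s + 1) (j := t - s) (s := p) (by omega)
    (by omega) rfl (by rw [h7]; exact hp.trans (pos_lt h1 h2))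
  rw [h3.cl, h4 0 (by omega), h4 _ le_rfl, h7, add_zero, show s + (t - s) = t by omega,
    if_pos hp] at e
  exact e

theorem Part.corner (D : T.Dev T' k f M n ψ Sp) (P : T.Part f M n g m n' a r) {t : ℕ}
    (ht : t + 2 ≤ r) {p : ℕ} (hp : p < T.pos (g (t + 1)) (g (t + 2)) (g t)) :
    n' (g (t + 1)) (T.rot (g (t + 1)) (g (t + 2)) p) = 1 := by
  have := P.lt
  rw [P.wn.corner' D.h6 P.cy (by omega) P.pos (i := t + 1) (j := t) (by omega) (by omega) rfl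
    (hp.trans (pos_lt (P.cy.adj _ (by omega)) (P.cy.adj _ (by omega)).symm)), if_pos hp]

theorem Wn.back {c : V → V → ℤ} (hn : T.Wn n c) {z v : V} (h : T.G.Adj z v) (p : ℕ) :
    n (T.rot z v (p + 1)) z = n z (T.rot z v p) := by
  have h0 := adj_rot h p
  have h1 := hn.face _ _ (adj_nx2 h0)
  rw [face1 h0 rfl] at h1
  rw [rot_succ, h1, hn.face _ _ h0]

theorem Part.flat (D : T.Dev T' k f M n ψ Sp) (P : T.Part f M n g m n' a r)
    (h1 : ∀ v, T.Inn n' v → T.deg v = k) (h2 : ∀ t, t + 2 ≤ r → ψ (a + t) =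
      T'.rot (ψ (a + t + 1)) (ψ (a + t + 2)) (T.pos (g (t + 1)) (g (t + 2)) (g t))) :
    T.Flt T' ψ g n' a r := by
  have := P.rng
  have := P.one
  have := P.lt
  obtain ⟨φ, p0, p1, hφ⟩ := PlaneTri.flat D.h6 D.hT' _ g m n' (Nat.lt_succ_self _) P.cy P.wn P.pos
    h1 _ _ (D.adj a (by omega))
  have key : ∀ i < r, φ (g i) = ψ (a + i) ∧ φ (g (i + 1)) = ψ (a + i + 1) := by
    intro i hi
    induction i with
    | zero => exact ⟨p0, p1⟩
    | succ i ih =>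
      obtain ⟨e1, e2⟩ := ih (by omega)
      have ha := P.cy.adj (i + 1) (by omega)
      have e3 := hφ.rot ha fun j hj => P.corner D (t := i) (by omega) hj
      rw [rot_pos ha (P.cy.adj i (by omega)).symm, e1, h2 i (by omega), e2] at e3
      refine ⟨e2, (rot_cancel (D.adj _ (by omega)) ?_ _ e3).symm⟩
      exact e2 ▸ (hφ _ _ ha (P.wn.left_one D.h6 P.cy (by omega) P.pos (by omega))).1
  refine ⟨φ, hφ, fun i hi => ?_⟩
  rcases i with _ | i
  · exact p0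
  · exact (key i (by omega)).2

variable (T T') in
/-- smaller parts closed by a chord are flat -/
def IH (f : ℕ → V) (M : ℕ) (n : V → V → ℤ) (ψ : ℕ → V') (n₀ : V → V → ℤ) : Prop :=
  ∀ g n' a r, T.Sub n' n₀ → T.Part f M n g (r + 1) n' a r → T.Flt T' ψ g n' a r

variable (T T') in
/-- all smaller parts are flat -/
def IHs (f : ℕ → V) (M : ℕ) (n : V → V → ℤ) (ψ : ℕ → V') (n₀ : V → V → ℤ) (a₀ r₀ : ℕ) : Prop :=
  ∀ g m n' a r, T.Sub n' n₀ → a₀ ≤ a → a + r ≤ a₀ + r₀ → T.Part f M n g m n' a r →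
    T.Flt T' ψ g n' a r

theorem Part.sideR (D : T.Dev T' k f M n ψ Sp) (P : T.Part f M n g m n' a r)
    (ih : T.IH T' f M n ψ n') {t : ℕ} (ht : t + 2 ≤ r) :
    ∃ ρ, (∀ p ≤ T.pos (g (t + 1)) (g (t + 2)) (g t), ∀ i ≤ r, t + 1 < i →
      g i = T.rot (g (t + 1)) (g (t + 2)) p → p ≤ ρ) ∧ ∀ p ≤ ρ, ∀ i ≤ r,
      g i = T.rot (g (t + 1)) (g (t + 2)) p →
        t + 1 < i ∧ ψ (a + i) = T'.rot (ψ (a + t + 1)) (ψ (a + t + 2)) p := by
  classical
  have hm := P.lt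
  have ha := P.cy.adj (t + 1) (by omega)
  have hb := (P.cy.adj t (by omega)).symm
  have hD := pos_lt ha hb
  have hr := rot_pos ha hb
  set α := T.pos (g (t + 1)) (g (t + 2)) (g t)
  set Q : ℕ → Prop := fun p => ∃ i ≤ r, t + 1 < i ∧ g i = T.rot (g (t + 1)) (g (t + 2)) p
  have h0 : Q (Nat.findGreatest Q α) :=
    Nat.findGreatest_spec (Nat.zero_le α) ⟨t + 2, ht, by omega, rfl⟩
  have h1 := Nat.findGreatest_le (P := Q) α
  refine ⟨Nat.findGreatest Q α, fun p hp i hi h2 h3 => Nat.le_findGreatest hp ⟨i, hi, h2, h3⟩, ?_⟩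
  generalize Nat.findGreatest Q α = ρ at h0 h1
  obtain ⟨j, j1, j2, j3⟩ := h0
  rcases ρ with _ | ρ
  · intro p hp i hi e
    obtain rfl : p = 0 := by omega
    obtain rfl := P.cy.inj _ (by omega) _ (by omega) e
    exact ⟨by omega, rfl⟩
  have h2 : ρ + 1 < α := by
    refine h1.lt_of_ne fun e => ?_
    rw [e, hr] at j3
    have := P.cy.inj _ (by omega) _ (by omega) j3
    omega
  have h3 : j ≠ t + 2 := by
    rintro rfl
    have := rot_inj ha (i := 0) (by omega) (by omega) j3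
    omega
  obtain ⟨g₁, n₁, P₁, lt⟩ := P.chord D j2 j1 (j3 ▸ (adj_rot ha _).symm)
    (by rw [j3, P.wn.back ha]; exact P.corner D ht (by omega)) (j3 ▸ P.corner D ht h2)
  obtain ⟨φ, hφ, hψ⟩ := ih _ _ _ _ lt P₁
  have hg : ∀ i ≤ j - (t + 1), g₁ i = g (t + 1 + i) := fun i hi => by
    rw [P₁.eq i hi, P.eq _ (by omega), add_assoc]
  have hc : ∀ p < ρ + 1, n₁ (g (t + 1)) (T.rot (g (t + 1)) (g (t + 2)) p) = 1 := fun p hp => by
    have e := P₁.wn.corner' D.h6 P₁.cy (by omega) P₁.pos (i := 0) (j := j - (t + 1)) (s := p)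
      (by omega) (by omega) P₁.cy.cl (by rw [hg 0 (by omega)]; show p < T.deg (g (t + 1)); omega)
    rw [hg 0 (by omega), hg _ (by omega), hg _ le_rfl, show t + 1 + (j - (t + 1)) = j by omega, j3,
      add_zero, pos_rot ha (by omega), if_pos hp] at e
    exact e
  intro p hp i hi e
  obtain ⟨l, l1, l2⟩ := P₁.idx D (v := g i) (P.eq i hi ▸ D.cy.on (by have := P.rng; omega))
    (e ▸ P₁.wn.cl_rot ha (by omega) hc hp)
  have l3 : t + 1 + l = i := P.cy.inj _ (by omega) _ (by omega) (by rw [← hg l l1, l2])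
  have l4 : l ≠ 0 := by
    rintro rfl
    exact (adj_rot ha p).ne (by rw [← e, ← l3])
  refine ⟨by omega, ?_⟩
  have e0 := hψ 0 (by omega)
  have e1 := hψ 1 (by omega)
  rw [hg _ (by omega)] at e0 e1
  rw [← l3, ← add_assoc, ← hψ l l1, l2, e, hφ.rot ha fun j hj => hc j (by omega)]
  exact congrArg₂ (fun x y => T'.rot x y p) e0 e1

theorem Part.sideL (D : T.Dev T' k f M n ψ Sp) (P : T.Part f M n g m n' a r)
    (ih : T.IH T' f M n ψ n') {t : ℕ} (ht : t + 2 ≤ r) {p : ℕ}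
    (hp : p ≤ T.pos (g (t + 1)) (g (t + 2)) (g t)) (h0 : 0 < p) {i : ℕ} (hi : i ≤ t)
    (e : g i = T.rot (g (t + 1)) (g (t + 2)) p) : T'.G.Adj (ψ (a + t + 1)) (ψ (a + i)) ∧
      ψ (a + t) = T'.rot (ψ (a + t + 1)) (ψ (a + i)) (T.pos (g (t + 1)) (g (t + 2)) (g t) - p) := by
  have hm := P.lt
  have := P.rng
  have ha := P.cy.adj (t + 1) (by omega)
  have hb := (P.cy.adj t (by omega)).symm
  have hD := pos_lt ha hb
  have hr := rot_pos ha hb
  set α := T.pos (g (t + 1)) (g (t + 2)) (g t)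
  rcases hp.lt_or_eq with hp | rfl
  swap
  · rw [hr] at e
    obtain rfl := P.cy.inj _ (by omega) _ (by omega) e
    exact ⟨(D.adj _ (by omega)).symm, by simp⟩
  have h3 : i ≠ t := by
    rintro rfl
    have := rot_inj ha (by omega) (by omega) (hr.trans e)
    omega
  obtain ⟨q, rfl⟩ : ∃ q, p = q + 1 := ⟨p - 1, by omega⟩
  have hc : T.G.Adj (g (t + 1)) (g i) := e ▸ adj_rot ha _
  obtain ⟨g₁, n₁, P₁, lt⟩ := P.chord D (s := i) (t := t + 1) (by omega) (by omega) hc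
    (e ▸ P.corner D ht hp) (by rw [e, P.wn.back ha]; exact P.corner D ht (by omega))
  obtain ⟨φ, hφ, hψ⟩ := ih _ _ _ _ lt P₁
  have hg : ∀ l ≤ t + 1 - i, g₁ l = g (i + l) := fun l hl => by
    rw [P₁.eq l hl, P.eq _ (by omega), add_assoc]
  have g0 : g₁ 0 = g i := hg 0 (by omega)
  have g1 : g₁ (t + 1 - i) = g (t + 1) := by rw [hg _ le_rfl]; congr 1; omega
  have g2 : g₁ (t - i) = g t := by rw [hg _ (by omega)]; congr 1; omega
  have e2 : T.rot (g (t + 1)) (g i) (α - (q + 1)) = g t := by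
    rw [e, ← rot_add, show q + 1 + (α - (q + 1)) = α by omega, hr]
  have hf : ∀ s < α - (q + 1), n₁ (g (t + 1)) (T.rot (g (t + 1)) (g i) s) = 1 := fun s hs => by
    have e := P₁.wn.corner' D.h6 P₁.cy (by omega) P₁.pos (i := t + 1 - i) (j := t - i) (s := s)
      (by omega) (by omega) (by congr 1; omega) (by rw [g1]; omega)
    rw [P₁.cy.cl, g0, g1, g2, ← e2, pos_rot hc (by omega), if_pos hs] at e
    exact e
  have e3 := hφ.rot hc hf
  have e4 := (hφ _ _ hc (hf 0 (by omega))).1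
  have p0 := hψ 0 (by omega)
  have p1 := hψ _ le_rfl
  have p2 := hψ (t - i) (by omega)
  rw [g0, add_zero] at p0
  rw [g1, show a + i + (t + 1 - i) = a + t + 1 by omega] at p1
  rw [g2, show a + i + (t - i) = a + t by omega] at p2
  rw [e2, p0, p1, p2] at e3
  rw [p0, p1] at e4
  exact ⟨e4, e3⟩

theorem Part.caseA (D : T.Dev T' k f M n ψ Sp) (P : T.Part f M n g m n' a r)
    (ih : T.IH T' f M n ψ n') {t : ℕ} (ht : t + 2 ≤ r) (hk : k < T.deg (g (t + 1)))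
    (hψ : ψ (a + t) = T'.rot (ψ (a + t + 1)) (ψ (a + t + 2))
      (T.pos (g (t + 1)) (g (t + 2)) (g t) - (T.deg (g (t + 1)) - k))) :
    T.Skip k f M n (g (t + 1)) := by
  intro j' j d h1 h2 h3 h4 h5 h6 h7 h8 h9
  have hm := P.lt
  have := P.rng
  have ha := P.cy.adj (t + 1) (by omega)
  have hb := (P.cy.adj t (by omega)).symm
  have hD := pos_lt ha hb
  obtain ⟨ρ, r1, r2⟩ := P.sideR D ih ht
  have hL := fun p hp h0 i hi e => P.sideL D ih ht (p := p) hp h0 (i := i) hi e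
  have hc := fun p hp => P.corner D ht (p := p) hp
  have hn := fun s hs => D.wn.corner' D.h6 D.cy D.three D.pos (i := a + (t + 1)) (j := a + t)
    (s := s) (by omega) (by omega) rfl hs
  rw [add_assoc, ← P.eq _ (by omega), ← P.eq _ (by omega), ← P.eq _ (by omega)] at hn
  obtain ⟨h10, h11⟩ := h9 _ (by omega) (P.eq (t + 1) (by omega)).symm
  set α := T.pos (g (t + 1)) (g (t + 2)) (g t)
  obtain ⟨p₀, p1, p2⟩ := rot_surj ha h3
  rw [← p2] at h4 h7 h8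
  simp only [← rot_add] at h4 h7 h8
  have p3 : p₀ + d ≤ α := by
    have e1 := h7 0 (by omega)
    rw [hn _ (by omega)] at e1
    have e2 : p₀ < α := by by_contra e; rw [if_neg (by omega)] at e1; omega
    by_contra e
    have e3 := h7 (α - p₀) (by omega)
    rw [hn _ (by omega), if_neg (by omega)] at e3
    omega
  have hon : ∀ p, p₀ ≤ p → p ≤ p₀ + d → ∃ i ≤ r, g i = T.rot (g (t + 1)) (g (t + 2)) p :=
    fun p q1 q2 => P.idx D (by
      have := h8 (p - p₀) (by omega)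
      rwa [show p₀ + (p - p₀) = p by omega] at this) (P.wn.cl_rot ha (by omega) hc (by omega))
  have hi : ∀ l < M, ∀ i ≤ r, g i = f l → l = a + i := fun l hl i hi e =>
    D.cy.inj _ hl _ (by omega) (by rw [← e, P.eq i hi])
  have p4 : p₀ ≤ ρ := by
    obtain ⟨i, i1, i2⟩ := hon p₀ le_rfl (by omega)
    have := hi j h2 i i1 (i2.trans p2)
    exact r1 _ (by omega) i i1 (by omega) i2
  have p5 : ρ < p₀ + d := by
    by_contra e
    obtain ⟨i, i1, i2⟩ := hon (p₀ + d) (by omega) le_rfl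
    have := hi j' (by omega) i i1 (i2.trans h4.symm)
    have := (r2 _ (not_lt.1 e) i i1 i2).1
    omega
  obtain ⟨p, q1, q2, q3, q4⟩ : ∃ p, p₀ ≤ p ∧ p ≤ ρ ∧ ρ < p + (T.deg (g (t + 1)) - k) ∧
      p + (T.deg (g (t + 1)) - k) ≤ p₀ + d :=
    ⟨max p₀ (ρ + 1 - (T.deg (g (t + 1)) - k)), by omega, by omega, by omega, by omega⟩
  generalize T.deg (g (t + 1)) - k = e at *
  obtain ⟨i, i1, i2⟩ := hon p q1 (by omega)
  obtain ⟨l, l1, l2⟩ := hon (p + e) (by omega) q4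
  obtain ⟨i3, i4⟩ := r2 p q2 i i1 i2
  have l3 : l ≤ t := by
    by_contra e'
    rcases (show l = t + 1 ∨ t + 1 < l by omega) with rfl | e'
    · exact (adj_rot ha _).ne l2
    · have := r1 _ (by omega) l l1 e' l2; omega
  obtain ⟨l4, l5⟩ := hL (p + e) (by omega) (by omega) l l3 l2
  rw [hψ, show α - e = p + (α - (p + e)) by omega, rot_add, ← i4] at l5
  have := D.inj _ (by omega) _ (by omega)
    (rot_cancel (i4 ▸ adj_rot (D.adj _ (by omega)) _) l4 _ l5)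
  omega

theorem Part.caseB (D : T.Dev T' k f M n ψ Sp) (P : T.Part f M n g m n' a r)
    (ih : T.IHs T' f M n ψ n' a r) {z : V} (hz : T.Inn n' z) (hk : k < T.deg z) :
    T.Skip k f M n z := by
  classical
  intro j' j d h1 h2 h3 h4 h5 h6 _ h8 _
  have hm := P.lt
  have := P.rng
  have hon : ∀ v, T.G.Adj z v → On f M v → ∃ i ≤ r, g i = v := fun v e1 e2 =>
    P.idx D e2 (P.wn.cl_face e1 (hz v e1)).2.1
  have hi : ∀ l < M, ∀ i ≤ r, g i = f l → l = a + i := fun l hl i hi e =>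
    D.cy.inj _ hl _ (by omega) (by rw [← e, P.eq i hi])
  obtain ⟨i₁, a1, a2⟩ := hon _ h3 (D.cy.on h2.le)
  obtain ⟨i₂, b1, b2⟩ := hon _ (h4 ▸ adj_rot h3 d) (D.cy.on (by omega : j' ≤ M))
  have a3 := hi _ h2 _ a1 a2
  have b3 := hi _ (by omega) _ b1 b2
  have hex : ∃ i, i ≤ r ∧ T.G.Adj z (g i) := ⟨i₁, a1, a2 ▸ h3⟩
  obtain ⟨s1, s2⟩ := Nat.find_spec hex
  have s3 : ∀ i ≤ r, T.G.Adj z (g i) → Nat.find hex ≤ i := fun i e1 e2 => Nat.find_min' hex ⟨e1, e2⟩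
  generalize Nat.find hex = s at s1 s2 s3
  obtain ⟨p₀, p1, p2⟩ := rot_surj s2 h3
  rw [← p2] at h4 h8
  simp only [← rot_add] at h4 h8
  have hw : T.deg z ≤ p₀ + d := by
    by_contra e
    have c1 : T.G.Adj z (g i₂) := by rw [b2, h4]; exact adj_rot s2 _
    obtain ⟨g₁, n₁, P₁, -, e1, e2⟩ := P.via D (s := i₂) (t := i₁) (by omega) a1 hz c1 (a2 ▸ h3)
    have e3 : ∀ x, T.rot z (g i₂) (T.deg z - (p₀ + d) + x) = T.rot z (g s) x := fun x => by
      rw [b2, h4, ← rot_add, ← add_assoc, show p₀ + d + (T.deg z - (p₀ + d)) = T.deg z by omega,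
        rot_add, rot_deg s2]
    rw [a2, ← p2, ← e3, pos_rot c1 (by omega)] at e2
    obtain ⟨l, l1, l2⟩ := P₁.idx D (v := g s) (P.eq s s1 ▸ D.cy.on (by omega))
      (by have := P₁.wn.cl_rot c1 (by omega) e2 (Nat.le_add_right _ _)
          rwa [← add_zero (T.deg z - (p₀ + d)), e3] at this)
    rw [P₁.eq l l1, P.eq s s1] at l2
    have l3 := D.cy.inj _ (by omega) _ (by omega) l2
    have := s3 _ b1 c1
    have l4 : s = i₂ := by omega
    rw [← l4] at b2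
    have := rot_inj s2 (i := 0) (by omega) (by omega) (b2.trans h4)
    omega
  set Q : ℕ → Prop := fun p => On f M (T.rot z (g s) p)
  have q1 : ∀ p < T.deg z, Q p → p ≤ Nat.findGreatest Q (T.deg z - 1) := fun p e1 e2 =>
    Nat.le_findGreatest (by omega) e2
  have q2 : Q (Nat.findGreatest Q (T.deg z - 1)) :=
    Nat.findGreatest_spec (Nat.zero_le _) (show On f M (g s) from P.eq s s1 ▸ D.cy.on (by omega))
  have q3 := Nat.findGreatest_le (P := Q) (T.deg z - 1)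
  generalize Nat.findGreatest Q (T.deg z - 1) = β at q1 q2 q3
  obtain ⟨x, x1, x2, x3, x4⟩ : ∃ x, p₀ ≤ x + k ∧ x + k < T.deg z ∧ x + T.deg z ≤ p₀ + d ∧
      x + k ≤ p₀ + d := ⟨p₀ - k, by omega, by omega, by omega, by omega⟩
  have y1 : Q (x + k) := by
    have := h8 (x + k - p₀) (by omega)
    rwa [show p₀ + (x + k - p₀) = x + k by omega] at this
  have y2 : Q x := by
    have := h8 (T.deg z + x - p₀) (by omega)
    rwa [show p₀ + (T.deg z + x - p₀) = T.deg z + x by omega, rot_add, rot_deg s2] at this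
  have k0 : 0 < k := D.hT' (ψ 0) ▸ deg_pos (D.adj 0 (by have := D.three; omega))
  have y3 := q1 _ x2 y1
  obtain ⟨t, t1, t2⟩ := hon _ (adj_rot s2 β) q2
  have t3 : s < t := (s3 t t1 (t2 ▸ adj_rot s2 β)).lt_of_ne fun e => by
    have := rot_inj s2 (i := 0) (by omega) (by omega) (by rw [← t2, ← e]; rfl : _ = T.rot z (g s) β)
    omega
  obtain ⟨g₁, n₁, P₁, lt, e1, e2⟩ := P.via D t3 t1 hz s2 (t2 ▸ adj_rot s2 β)
  rw [t2, pos_rot s2 (by omega)] at e2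
  obtain ⟨φ, hφ, hψ⟩ := ih _ _ _ _ _ lt (by omega) (by omega) P₁
  have key : ∀ p ≤ β, Q p → ∃ l < M, f l = T.rot z (g s) p ∧ ψ l = T'.rot (φ z) (φ (g s)) p := by
    intro p e3 e4
    obtain ⟨l, l1, l2⟩ := P₁.idx D e4 (P₁.wn.cl_rot s2 (by omega) e2 e3)
    exact ⟨a + s + l, by omega, by rw [← P₁.eq l l1, l2],
      by rw [← hψ l l1, l2, hφ.rot s2 fun j hj => e2 j (by omega)]⟩
  obtain ⟨l, l1, l2, l3⟩ := key _ y3 y1
  obtain ⟨l', l1', l2', l3'⟩ := key x (by omega) y2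
  have e5 := (hφ _ _ s2 (e2 0 (by omega))).1
  rw [add_comm x k, rot_add, ← D.hT' (φ z), rot_deg e5, ← l3'] at l3
  obtain rfl := D.inj _ l1 _ l1' l3
  have := rot_inj s2 (by omega) (by omega) (l2.symm.trans l2')
  omega

theorem Part.mid (D : T.Dev T' k f M n ψ Sp) (P : T.Part f M n g m n' a r) {u : V}
    (hu : T.Inn n' u) {s t x : ℕ} (hst : s < t) (ht : t ≤ r) (hx : x ≤ r) (h1 : T.G.Adj u (g s))
    {c : ℕ} (hc : c ≤ 3) (e1 : g t = T.rot u (g s) 3) (e2 : g x = T.rot u (g s) c) :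
    s ≤ x ∧ x ≤ t := by
  have := P.rng
  have := P.lt
  have := D.h6 u
  obtain ⟨g₁, n₁, P₁, -, -, e⟩ := P.via D hst ht hu h1 (e1 ▸ adj_rot h1 3)
  rw [e1, pos_rot h1 (by omega)] at e
  obtain ⟨l, l1, l2⟩ := P₁.idx D (v := g x) (P.eq x hx ▸ D.cy.on (by omega))
    (e2 ▸ P₁.wn.cl_rot h1 (by omega) e hc)
  rw [P₁.eq l l1, P.eq x hx] at l2
  have := D.cy.inj _ (by omega) _ (by omega) l2
  omega

theorem Part.lt_corner (D : T.Dev T' k f M n ψ Sp) (P : T.Part f M n g m n' a r) {t : ℕ}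
    (ht : t + 2 ≤ r) {p : ℕ} (hp : p ≤ T.pos (g (t + 1)) (g (t + 2)) (g t) ∨ p < T.deg (g (t + 1)))
    (h : n' (g (t + 1)) (T.rot (g (t + 1)) (g (t + 2)) p) = 1) :
    p < T.pos (g (t + 1)) (g (t + 2)) (g t) := by
  have := P.lt
  have hD := pos_lt (P.cy.adj (t + 1) (by omega)) (P.cy.adj t (by omega)).symm
  rw [P.wn.corner' D.h6 P.cy (by omega) P.pos (i := t + 1) (j := t) (by omega) (by omega) rfl
    (hp.elim (fun e => e.trans_lt hD) id)] at h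
  by_contra e
  rw [if_neg e] at h
  omega

theorem Part.core (D : T.Dev T' k f M n ψ Sp) (P : T.Part f M n g (r + 1) n' a r)
    (ih : T.IH T' f M n ψ n') (hε : ∀ t, t + 2 ≤ r → ∃ ε ≤ 1, ψ (a + t) = T'.rot (ψ (a + t + 1))
      (ψ (a + t + 2)) (T.pos (g (t + 1)) (g (t + 2)) (g t) - ε)) {z : V}
    (hz : ∀ v, T.G.Adj z v → n z v = 1 → n' z v = 1)
    (H : ∀ s s', s' < s → s + 2 ≤ r → T.deg z = k + 1 → T.G.Adj z (g (s + 1)) →
      g (s' + 1) = T.rot z (g (s + 1)) 2 → (∀ i < 2, n' z (T.rot z (g (s + 1)) i) = 1) →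
      (∀ t < M, f t = z → a + s' + 1 < t ∧ t < a + s + 1) →
      0 < T.pos (g (s + 1)) (g (s + 2)) z →
      T.pos (g (s + 1)) (g (s + 2)) z ≤ T.pos (g (s + 1)) (g (s + 2)) (g s) →
      T.pos (g (s' + 1)) (g (s' + 2)) z ≤ T.pos (g (s' + 1)) (g (s' + 2)) (g s') →
      ∃ z', T'.G.Adj (ψ (a + s + 1)) z' ∧ ψ (a + s) = T'.rot (ψ (a + s + 1)) z'
          (T.pos (g (s + 1)) (g (s + 2)) (g s) - T.pos (g (s + 1)) (g (s + 2)) z) ∧
        z' = T'.rot (ψ (a + s' + 1)) (ψ (a + s' + 2)) (T.pos (g (s' + 1)) (g (s' + 2)) z) ∧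
        ψ (a + s' + 1) = T'.nx z' (ψ (a + s + 1))) : T.Skip2 k f M n z := by
  intro j' j l l' h1 h2 h3 h4 h5 h6 h7 h8 h9 h10 h11 h12 h13
  have := P.rng
  have a1 : T.G.Adj z (T.rot z (f j) 1) := adj_rot h7 1
  have b1 : T.nx z (f j) = T.rot z (f j) 1 := rfl
  have b2 : T.nx z (T.rot z (f j) 1) = f j' := h8.symm
  have h9' : ∀ i < 2, n' z (T.rot z (f j) i) = 1 := fun i hi => hz _ (adj_rot h7 i) (h9 i hi)
  have hu : T.Inn n' (T.rot z (f j) 1) := P.wn.inn P.cy (fun ⟨i, hi, e⟩ =>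
    h10 ⟨a + i, by omega, by rw [← P.eq i (by omega), e]⟩) (P.wn.cl_face a1 (h9' 1 (by omega))).2.1
  generalize T.rot z (f j) 1 = u at a1 b1 b2 hu h10 h12 h13
  have hd := D.h6 u
  have b3 : T.nx u z = f j := face2 h7 b1
  have b4 : T.nx u (f j') = z := face1 a1 b2
  have b5 : T.nx u (f j) = f l := by rw [h12, ← b3]; rfl
  have a2 : T.G.Adj u (f j) := b3 ▸ adj_nx1 a1.symm
  have a3 : T.G.Adj u (f j') := b2 ▸ adj_nx2 a1
  have a4 : T.G.Adj u (f l) := b5 ▸ adj_nx1 a2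
  have a5 : T.G.Adj u (f l') := h13 ▸ adj_rot a1.symm _
  have b6 : T.nx u (f l') = f j' := nx_inj (adj_nx1 a5) a3 (by
    rw [b4]
    change T.rot u (f l') 2 = z
    rw [h13, ← rot_add, show T.deg u - 2 + 2 = T.deg u by omega, rot_deg a1.symm])
  have hon : ∀ i < M, T.G.Adj u (f i) → ∃ x ≤ r, i = a + x ∧ g x = f i := fun i hi e => by
    obtain ⟨x, x1, x2⟩ := P.idx D (D.cy.on hi.le) (P.wn.cl_face e (hu _ e)).2.1
    exact ⟨x, x1, D.cy.inj _ hi _ (by omega) (by rw [← x2, P.eq x x1]), x2⟩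
  obtain ⟨y, y1, rfl, y2⟩ := hon j h2 a2
  obtain ⟨y', y3, rfl, y4⟩ := hon j' (by omega) a3
  obtain ⟨x, x1, rfl, x2⟩ := hon l h3 a4
  obtain ⟨x', x3, rfl, x4⟩ := hon l' (by omega) a5
  rw [← y2] at h7 h8 h9' b1 b3 b5 a2
  rw [← y4] at h8 b2 b4 b6 a3
  rw [← x2] at b5 a4
  rw [← x4] at b6 a5
  have o1 : y < x := ((P.mid D hu (s := y') (t := x) (x := y) (by omega) x1 y1 a3 (c := 2) (by omega)
    (by rw [← b5, ← b3, ← b4]; rfl) (by rw [← b3, ← b4]; rfl)).2).lt_of_ne fun e =>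
      (adj_nx2 a2).ne (by rw [b5, e])
  have o2 : x' < y' := ((P.mid D hu (s := x') (t := y) (x := y') (by omega) y1 y3 a5 (c := 1)
    (by omega) (by rw [← b3, ← b4, ← b6]; rfl) b6.symm).1).lt_of_ne fun e =>
      (adj_nx2 a5).ne (by rw [b6, e])
  obtain ⟨s, rfl⟩ : ∃ s, y = s + 1 := ⟨y - 1, by omega⟩
  obtain ⟨s', rfl⟩ : ∃ s, y' = s + 1 := ⟨y' - 1, by omega⟩
  have hs : s + 2 ≤ r := by omega
  have hs' : s' + 2 ≤ r := by omega
  have c1 := P.cy.adj (s + 1) (by omega)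
  have c2 := P.cy.adj (s' + 1) (by omega)
  have c3 : T.G.Adj (g (s + 1)) (g x) := b5 ▸ adj_nx2 a2
  have c4 : T.G.Adj (g (s' + 1)) z := b4 ▸ adj_nx2 a3
  have d1 : T.pos (g (s + 1)) (g (s + 2)) (g s) < _ := pos_lt c1 (P.cy.adj s (by omega)).symm
  obtain ⟨p, p1, p2⟩ := rot_surj c1 c3
  obtain ⟨q, q1, q2⟩ := rot_surj c2 c4
  have p3 : T.rot (g (s + 1)) (g (s + 2)) (p + 1) = u := by rw [rot_succ, p2, face1 a2 b5]
  have p4 : T.rot (g (s + 1)) (g (s + 2)) (p + 2) = z := by rw [rot_succ, p3, face1 h7 b1]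
  have q3 : T.rot (g (s' + 1)) (g (s' + 2)) (q + 1) = u := by rw [rot_succ, q2, face1 a3 b4]
  have q4 : T.rot (g (s' + 1)) (g (s' + 2)) (q + 2) = g x' := by rw [rot_succ, q3, face2 a5 b6]
  have p5 := P.lt_corner D hs (Or.inr p1) (by rw [p2, ← b5, P.wn.face _ _ a2]; exact hu _ a2)
  have p6 := P.lt_corner D hs (p := p + 1) (Or.inl p5) (by
    rw [p3, ← b1, P.wn.face _ _ h7]; exact h9' 0 (by omega))
  have q5 := P.lt_corner D hs' (Or.inr q1) (by rw [q2, ← b4, P.wn.face _ _ a3]; exact hu _ a3)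
  have q6 := P.lt_corner D hs' (p := q + 1) (Or.inl q5) (by
    rw [q3, ← face1 a5 b6, ← b6, P.wn.face _ _ (adj_nx2 a5), P.wn.face _ _ a5]; exact hu _ a5)
  have p7 : T.pos (g (s + 1)) (g (s + 2)) z = p + 2 := by rw [← p4, pos_rot c1 (by omega)]
  have q7 : T.pos (g (s' + 1)) (g (s' + 2)) z = q := by rw [← q2, pos_rot c2 q1]
  obtain ⟨z', z1, z2, z3, z4⟩ := H s s' (by omega) hs h6 h7 h8 h9' h11 (by omega) (by omega)
    (by omega)
  obtain ⟨ρ, r1, r2⟩ := P.sideR D ih hs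
  have r3 := (r2 p (r1 p p5.le x x1 o1 p2.symm) x x1 p2.symm).2
  obtain ⟨r4, r5⟩ := P.sideL D ih hs' (p := q + 2) q6 (by omega) (i := x') (by omega) q4.symm
  obtain ⟨ε, e1, e2⟩ := hε s hs
  obtain ⟨ε', e3, e4⟩ := hε s' hs'
  have k1 := D.adj (a + s + 1) (by omega)
  have k2 := D.adj (a + s' + 1) (by omega)
  rw [p7] at z2
  rw [q7] at z3
  generalize T.pos (g (s + 1)) (g (s + 2)) (g s) = α at *
  generalize T.pos (g (s' + 1)) (g (s' + 2)) (g s') = β at *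
  rw [z2, show α - ε = p + (2 - ε) + (α - (p + 2)) by omega, rot_add, rot_add, ← r3] at e2
  rw [r5, show β - ε' = q + (2 - ε') + (β - (q + 2)) by omega, rot_add, rot_add, ← z3] at e4
  have k3 : T'.G.Adj (ψ (a + s + 1)) (ψ (a + x)) := r3 ▸ adj_rot k1 p
  have k4 : T'.G.Adj (ψ (a + s' + 1)) z' := z3 ▸ adj_rot k2 q
  have k5 : T'.G.Adj (ψ (a + s + 1)) (ψ (a + s' + 1)) := z4 ▸ adj_nx2 z1.symm
  have e5 := rot_cancel z1 (adj_rot k3 _) _ e2
  have e6 := rot_cancel r4 (adj_rot k4 _) _ e4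
  have e7 := face1 z1.symm z4.symm
  have e8 := face2 z1.symm z4.symm
  rcases (by omega : ε = 1 ∨ ε = 0) with rfl | rfl
  · have := D.inj _ (by omega) _ (by omega) (nx_inj k5 k3 (e7.trans e5))
    omega
  rcases (by omega : ε' = 1 ∨ ε' = 0) with rfl | rfl
  · have := D.inj _ (by omega) _ (by omega) (e6.trans e8)
    omega
  have e9 := face2 k3 (nx_inj k5 (adj_nx1 k3) (e7.trans e5)).symm
  have := D.inj _ (by omega) _ (by omega) (e6.trans ((congrArg _ e8).trans e9))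
  omega

theorem Part.caseA2 (D : T.Dev T' k f M n ψ Sp) (P : T.Part f M n g (r + 1) n' a r)
    (ih : T.IH T' f M n ψ n') (hε : ∀ t, t + 2 ≤ r → ∃ ε ≤ 1, ψ (a + t) = T'.rot (ψ (a + t + 1))
      (ψ (a + t + 2)) (T.pos (g (t + 1)) (g (t + 2)) (g t) - ε)) {t : ℕ} (ht : t + 2 ≤ r)
    (hψ : ψ (a + t) = T'.rot (ψ (a + t + 1)) (ψ (a + t + 2))
      (T.pos (g (t + 1)) (g (t + 2)) (g t) - (T.deg (g (t + 1)) - k))) :
    T.Skip2 k f M n (g (t + 1)) := by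
  have := P.rng
  have ha := P.cy.adj (t + 1) (by omega)
  refine P.core D ih hε (fun v h1 h2 => ?_) fun s s' h1 h2 h3 h4 h5 h6 h7 h8 h9 h10 => ?_
  · obtain ⟨p, p1, rfl⟩ := rot_surj ha h1
    have hn := D.wn.corner' D.h6 D.cy D.three D.pos (i := a + (t + 1)) (j := a + t)
      (s := p) (by omega) (by omega) rfl (by rwa [← P.eq _ (by omega)])
    rw [add_assoc, ← P.eq _ (by omega), ← P.eq _ (by omega), ← P.eq _ (by omega), h2] at hn
    exact P.corner D ht (by by_contra e; rw [if_neg e] at hn; omega)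
  obtain ⟨t1, t2⟩ := h7 _ (by omega) (P.eq (t + 1) (by omega)).symm
  have c1 := P.cy.adj (s + 1) (by omega)
  have c2 := P.cy.adj (s' + 1) (by omega)
  have c3 : T.G.Adj (g (s' + 1)) (g (t + 1)) := (h5 ▸ adj_rot h4 2).symm
  obtain ⟨l1, l2⟩ := P.sideL D ih h2 h9 h8 (i := t + 1) (by omega) (rot_pos c1 h4.symm).symm
  obtain ⟨ρ, r1, r2⟩ := P.sideR D ih (t := s') (by omega)
  have r3 := (r2 _ (r1 _ h10 (t + 1) (by omega) (by omega) (rot_pos c2 c3).symm) (t + 1) (by omega)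
    (rot_pos c2 c3).symm).2
  refine ⟨_, l1, l2, r3, ?_⟩
  obtain ⟨p, p1, p2⟩ := rot_surj ha h4
  have p3 := P.lt_corner D ht (Or.inr p1) (by rw [p2]; exact h6 0 (by omega))
  have p4 := P.lt_corner D ht (p := p + 1) (Or.inl p3) (by rw [rot_add, p2]; exact h6 1 (by omega))
  obtain ⟨ρ', s1, s2⟩ := P.sideR D ih ht
  have s3 := (s2 p (s1 p p3.le (s + 1) (by omega) (by omega) p2.symm) (s + 1) (by omega) p2.symm).2
  obtain ⟨s4, s5⟩ := P.sideL D ih ht (p := p + 2) p4 (by omega) (i := s' + 1) (by omega)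
    (by rw [rot_add, p2, h5])
  rw [s5, h3, show T.pos (g (t + 1)) (g (t + 2)) (g t) - (k + 1 - k) =
    p + 1 + (T.pos (g (t + 1)) (g (t + 2)) (g t) - (p + 2)) by omega, rot_add, rot_succ,
    ← s3] at hψ
  exact rot_cancel s4 (adj_nx1 (s3 ▸ adj_rot (D.adj _ (by omega)) p)) _ hψ

theorem Part.caseB2 (D : T.Dev T' k f M n ψ Sp) (P : T.Part f M n g (r + 1) n' a r)
    (ih : T.IH T' f M n ψ n') (hε : ∀ t, t + 2 ≤ r → ∃ ε ≤ 1, ψ (a + t) = T'.rot (ψ (a + t + 1))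
      (ψ (a + t + 2)) (T.pos (g (t + 1)) (g (t + 2)) (g t) - ε)) {g₀ : ℕ → V} {m₀ a₀ r₀ : ℕ}
    {n₀ : V → V → ℤ} (Q : T.Part f M n g₀ m₀ n₀ a₀ r₀) (ihs : T.IHs T' f M n ψ n₀ a₀ r₀)
    (hle : ∀ x y, T.G.Adj x y → n₀ x y = 1 → n' x y = 1) {z : V} (hz : T.Inn n₀ z) :
    T.Skip2 k f M n z := by
  have := P.rng
  have := Q.rng
  refine P.core D ih hε (fun v h1 _ => hle _ _ h1 (hz v h1))
    fun s s' h1 h2 h3 h4 h5 _ _ h8 h9 _ => ?_
  have c3 : T.G.Adj z (g (s' + 1)) := h5 ▸ adj_rot h4 2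
  have hon : ∀ i ≤ r, T.G.Adj z (g i) → ∃ x ≤ r₀, a + i = a₀ + x ∧ g₀ x = g i := fun i hi e => by
    obtain ⟨x, x1, x2⟩ := Q.idx D (P.eq i hi ▸ D.cy.on (by omega)) (Q.wn.cl_face e (hz _ e)).2.1
    exact ⟨x, x1, D.cy.inj _ (by omega) _ (by omega) (by rw [← Q.eq x x1, x2, P.eq i hi]), x2⟩
  obtain ⟨x, x1, x2, x3⟩ := hon _ (by omega) h4
  obtain ⟨y, y1, y2, y3⟩ := hon _ (by omega) c3
  obtain ⟨g₁, n₁, P₁, lt, e1, e2⟩ := Q.via D (s := y) (t := x) (by omega) x1 hz (y3 ▸ c3) (x3 ▸ h4)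
  obtain ⟨φ, hφ, hψ⟩ := ihs _ _ _ _ _ lt (by omega) (by omega) P₁
  obtain ⟨d, rfl⟩ : ∃ d, s = s' + 1 + d := ⟨s - (s' + 1), by omega⟩
  rw [show x - y = d + 1 by omega, ← y2] at P₁ hψ
  rw [show x - y = d + 1 by omega] at e1
  have hg : ∀ i ≤ d + 1, g₁ i = g (s' + 1 + i) := fun i hi => by
    rw [P₁.eq i hi, P.eq _ (by omega), add_assoc]
  have g0 : g₁ 0 = g (s' + 1) := hg 0 (by omega)
  have g1 : g₁ 1 = g (s' + 2) := hg 1 (by omega)
  have g2 : g₁ d = g (s' + 1 + d) := hg d (by omega)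
  have g3 : g₁ (d + 1) = g (s' + 1 + d + 1) := hg _ le_rfl
  have p0 := hψ 0 (by omega)
  have p1 := hψ 1 (by omega)
  have p2 := hψ d (by omega)
  have p3 := hψ _ le_rfl
  rw [g0] at p0
  rw [g1] at p1
  rw [g2, add_assoc a] at p2
  rw [g3, show a + (s' + 1) + (d + 1) = a + (s' + 1 + d) + 1 by omega] at p3
  have c1 := P.cy.adj (s' + 1 + d + 1) (by omega)
  have c2 := P.cy.adj (s' + 1) (by omega)
  have c4 := (P.cy.adj (s' + 1 + d) (by omega)).symm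
  have d1 : T.pos _ (g (s' + 1 + d + 2)) _ < _ := pos_lt c1 c4
  have k0 := D.h6 z
  have f1 := fun c hc => P₁.wn.corner' D.h6 P₁.cy (by omega) P₁.pos (i := d + 1) (j := d) (s := c)
    (by omega) (by omega) rfl hc
  have f2 := fun c hc => P₁.wn.corner' D.h6 P₁.cy (by omega) P₁.pos (i := 0) (j := d + 1 + 1)
    (s := c) (by omega) (by omega) P₁.cy.cl hc
  have f3 := P₁.wn.left_one D.h6 P₁.cy (by omega) P₁.pos (i := d + 1) (by omega)
  rw [e1, g2, g3] at f1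
  rw [e1, g0, zero_add, g1] at f2
  rw [e1, g3] at f3
  have e3 : T.rot (g (s' + 1 + d + 1)) z (T.pos (g (s' + 1 + d + 1)) (g (s' + 1 + d + 2))
      (g (s' + 1 + d)) - T.pos (g (s' + 1 + d + 1)) (g (s' + 1 + d + 2)) z) = g (s' + 1 + d) := by
    conv_lhs => rw [← rot_pos c1 h4.symm]
    rw [← rot_add, rot_pos c1 h4.symm, Nat.add_sub_cancel' h9, rot_pos c1 c4]
  have e4 : T.rot z (g (s' + 1)) (k - 1) = g (s' + 1 + d + 1) := by
    rw [h5, ← rot_add, show 2 + (k - 1) = T.deg z by omega, rot_deg h4]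
  rw [x3, y3, ← e4, pos_rot c3 (by omega)] at e2
  have a1 := (hφ _ _ c3 (e2 0 (by omega))).1
  refine ⟨φ z, p3 ▸ (hφ _ _ h4.symm f3).1, ?_, ?_, ?_⟩
  · rw [← p2, ← p3, ← hφ.rot h4.symm fun j hj => by
      rw [f1 j (by omega), if_pos (by rwa [← e3, pos_rot h4.symm (by omega)])], e3]
  · refine Eq.trans ?_ (congrArg₂ (fun v w => T'.rot v w _) p0 p1)
    rw [← hφ.rot c2 fun j hj => by
      rw [f2 j (hj.trans (pos_lt c2 c3.symm)), if_pos hj], rot_pos c2 c3.symm]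
  · refine p0.symm.trans (Eq.trans ?_ (congrArg (T'.nx (φ z)) p3))
    rw [← e4, hφ.rot c3 e2, ← rot_succ, show k - 1 + 1 = T'.deg (φ z) by rw [D.hT']; omega,
      rot_deg a1]

theorem Part.near (D : T.Dev T' k f M n ψ Sp) (P : T.Part f M n g m n' a r)
    (ih : T.IH T' f M n ψ n') {t : ℕ} (ht : t + 2 ≤ r) {j : ℕ} (hj : j < M)
    (h3 : T.G.Adj (g (t + 1)) (f j)) (h : n (g (t + 1)) (f j) = 1 ∨ n (f j) (g (t + 1)) = 1) :
    T'.G.Adj (ψ (a + t + 1)) (ψ j) := by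
  have hm := P.lt
  have := P.rng
  have ha := P.cy.adj (t + 1) (by omega)
  have hb := (P.cy.adj t (by omega)).symm
  have hD := pos_lt ha hb
  obtain ⟨ρ, r1, r2⟩ := P.sideR D ih ht
  have hc := fun p hp => P.corner D ht (p := p) hp
  have hn := fun s hs => D.wn.corner' D.h6 D.cy D.three D.pos (i := a + (t + 1)) (j := a + t)
    (s := s) (by omega) (by omega) rfl hs
  rw [add_assoc, ← P.eq _ (by omega), ← P.eq _ (by omega), ← P.eq _ (by omega)] at hn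
  have h0 := (P.wn.corner P.cy (by omega) (i := t + 1) (j := t) (by omega) (by omega) rfl hD).1
  obtain ⟨p, p1, p2⟩ := rot_surj ha h3
  have p3 : p ≤ T.pos (g (t + 1)) (g (t + 1 + 1)) (g t) := by
    by_contra e
    obtain ⟨q, rfl⟩ : ∃ q, p = q + 1 := ⟨p - 1, by omega⟩
    rw [← p2, D.wn.back ha, hn _ p1, hn _ (by omega), if_neg (by omega), if_neg (by omega)] at h
    omega
  obtain ⟨i, i1, i2⟩ := P.idx D (D.cy.on hj.le) (p2 ▸ P.wn.cl_rot ha h0 hc p3)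
  obtain rfl : j = a + i := D.cy.inj _ hj _ (by omega) (by rw [← i2, P.eq i i1])
  rcases lt_trichotomy i (t + 1) with e | rfl | e
  · refine (P.sideL D ih ht p3 (Nat.pos_of_ne_zero ?_) (by omega) (i2.trans p2.symm)).1
    rintro rfl
    have := P.cy.inj _ (by omega) _ (by omega) (i2.trans p2.symm)
    omega
  · exact absurd i2 h3.ne
  · rw [(r2 p (r1 p p3 i i1 e (i2.trans p2.symm)) i i1 (i2.trans p2.symm)).2]
    exact adj_rot (D.adj _ (by omega)) _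

theorem Found.out (_D : T.Dev T' k f M n ψ Sp) (h : T.Found T' k f M n ψ Sp) :
    ∃ z, k < T.deg z ∧ T.Skip k f M n z ∧ T.Skip2 k f M n z ∧
      (T.Inn n z ∨ ∃ t, t + 2 < M ∧ f (t + 1) = z ∧
      Sp (t + 1) ∧ ∀ j < M, T.G.Adj z (f j) → n z (f j) = 1 ∨ n (f j) z = 1 →
        T'.G.Adj (ψ (t + 1)) (ψ j)) := h

theorem Dev.part (D : T.Dev T' k f M n ψ Sp) (h : ¬T.Found T' k f M n ψ Sp) (N : ℕ) :
    ∀ g n' a r, T.area n' < N → T.Part f M n g (r + 1) n' a r → T.Flt T' ψ g n' a r := by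
  induction N with
  | zero => intro g n' a r h; omega
  | succ N ih =>
  intro g n' a r hN P
  have := P.rng
  have ih' : T.IH T' f M n ψ n' := fun g n₁ a r e => ih g n₁ a r (by have := e.lt; omega)
  have ht : ∀ t, t + 2 ≤ r → T.Turn T' k (Sp (a + t + 1)) (g t) (g (t + 1)) (g (t + 2))
      (ψ (a + t)) (ψ (a + t + 1)) (ψ (a + t + 2)) := fun t ht => by
    have := D.turn (a + t) (by omega)
    rwa [← P.eq t (by omega), add_assoc a t 1, add_assoc a t 2, ← P.eq _ (by omega),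
      ← P.eq _ ht] at this
  have hε : ∀ t, t + 2 ≤ r → ∃ ε ≤ 1, ψ (a + t) = T'.rot (ψ (a + t + 1)) (ψ (a + t + 2))
      (T.pos (g (t + 1)) (g (t + 2)) (g t) - ε) := fun t h1 => by
    rcases ht t h1 with e | ⟨e1, e2, -, e3⟩
    · exact ⟨0, by omega, e⟩
    · refine ⟨_, ?_, e3⟩
      by_contra e
      exact h ⟨_, e2, P.caseA D ih' h1 e2 e3, fun _ _ _ _ _ _ _ _ _ e4 => by omega, Or.inr ⟨a + t,
        by omega, (P.eq (t + 1) (by omega)).symm, e1, fun j hj => P.near D ih' h1 hj⟩⟩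
  have h2 : ∀ t, a ≤ t → t + 2 ≤ a + r →
      ψ t = T'.rot (ψ (t + 1)) (ψ (t + 2)) (T.pos (f (t + 1)) (f (t + 2)) (f t)) := fun t h0 h1 => by
    obtain ⟨t, rfl⟩ := Nat.exists_eq_add_of_le h0
    rcases ht t (by omega) with e | ⟨e1, e2, -, e3⟩
    · rwa [P.eq _ (by omega), P.eq _ (by omega), P.eq _ (by omega)] at e
    · exact absurd ⟨_, e2, P.caseA D ih' (by omega) e2 e3, P.caseA2 D ih' hε (by omega) e3,
        Or.inr ⟨a + t, by omega, (P.eq (t + 1) (by omega)).symm, e1,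
          fun j hj => P.near D ih' (by omega) hj⟩⟩ h
  suffices H : ∀ N g₀ m₀ n₀ a₀ r₀, T.area n₀ < N → (∀ x y, T.G.Adj x y → n₀ x y = 1 → n' x y = 1) →
      a ≤ a₀ → a₀ + r₀ ≤ a + r → T.Part f M n g₀ m₀ n₀ a₀ r₀ → T.Flt T' ψ g₀ n₀ a₀ r₀ from
    H _ _ _ _ _ _ (Nat.lt_succ_self _) (fun _ _ _ e => e) le_rfl le_rfl P
  intro N
  induction N with
  | zero => intro _ _ _ _ _ h; omega
  | succ N ih2 =>
  intro g₀ m₀ n₀ a₀ r₀ hN hle q1 q2 Q
  have ihs : T.IHs T' f M n ψ n₀ a₀ r₀ := fun g m n₁ a r e e1 e2 => ih2 g m n₁ a r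
    (by have := e.lt; omega) (fun x y e3 e4 => hle x y e3 (e.le x y e3 e4)) (by omega) (by omega)
  refine Q.flat D (fun z hz => ?_) fun t ht => ?_
  · by_contra e
    have hk := (D.hk z).lt_of_ne' e
    exact h ⟨z, hk, Q.caseB D ihs hz hk, P.caseB2 D ih' hε Q ihs hle hz,
      Or.inl fun w hw => Q.le _ _ hw (hz w hw)⟩
  · rw [Q.eq _ (by omega), Q.eq _ (by omega), Q.eq _ (by omega)]
    exact h2 (a₀ + t) (by omega) (by omega)

/-- either the disc is flat or there is a special vertex with the skip property -/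
theorem Dev.skip (D : T.Dev T' k f M n ψ Sp) (h : ¬T.Found T' k f M n ψ Sp) :
    ∃ φ, T.FP T' n φ ∧ ∀ i < M, φ (f i) = ψ i := by
  have := D.three
  obtain ⟨M, rfl⟩ : ∃ m, M = m + 1 := ⟨M - 1, by omega⟩
  obtain ⟨φ, h1, h2⟩ := D.part h _ f n 0 M (Nat.lt_succ_self _) ⟨D.cy, D.wn, D.pos,
    fun _ _ _ e => e, by omega, by omega, by omega, by omega, by simp, by omega⟩
  exact ⟨φ, h1, fun i hi => by simpa using h2 i (by omega)⟩

theorem Dev.skipB {t : ℕ} (D : T.Dev T' k f (t + 1) n ψ Sp) (h : ¬T'.G.Adj (ψ t) (ψ 0)) :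
    T.Found T' k f (t + 1) n ψ Sp := by
  by_contra e
  obtain ⟨φ, h1, h2⟩ := D.skip e
  have := (h1 _ _ (D.cy.adj t (by omega)) (D.wn.left_one D.h6 D.cy D.three D.pos (by omega))).1
  rw [D.cy.cl, h2 _ (by omega), h2 _ (by omega)] at this
  exact h this

/-- the last dart of the cycle has a new image -/
theorem Dev.skipL {t : ℕ} (D : T.Dev T' k f (t + 2) n ψ Sp) {y : V'} {S : Prop}
    (hy : T'.G.Adj (ψ (t + 1)) y) (hn : ∀ i < t + 2, ψ i ≠ y)
    (ht : T.Turn T' k S (f t) (f (t + 1)) (f 0) (ψ t) (ψ (t + 1)) y) :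
    T.Found T' k f (t + 2) n ψ Sp ∨ (S ∧ k < T.deg (f (t + 1)) ∧
      ¬On f (t + 2) (T.rot (f (t + 1)) (f 0) (T.deg (f (t + 1)) - k))) := by
  refine or_iff_not_imp_left.2 fun e => ?_
  obtain ⟨φ, h1, h2⟩ := D.skip e
  have ha := D.cy.adj (t + 1) (by omega)
  have hb := (D.cy.adj t (by omega)).symm
  have hc := fun s hs => D.wn.corner' D.h6 D.cy D.three D.pos (i := t + 1) (j := t) (s := s)
    (by omega) (by omega) rfl hs
  have h3 := (h1 _ _ ha (D.wn.left_one D.h6 D.cy D.three D.pos (by omega))).1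
  rw [D.cy.cl] at ha hc h3
  rw [h2 _ (by omega), h2 _ (by omega)] at h3
  have hD := pos_lt ha hb
  have h4 : ∀ s ≤ T.pos (f (t + 1)) (f 0) (f t), φ (T.rot (f (t + 1)) (f 0) s) =
      T'.rot (ψ (t + 1)) (ψ 0) s := fun s hs => by
    rw [h1.rot ha fun j hj => by rw [hc j (by omega), if_pos (by omega)], h2 _ (by omega),
      h2 _ (by omega)]
  have h5 := h4 _ le_rfl
  rw [rot_pos ha hb, h2 _ (by omega)] at h5
  rcases ht with e1 | ⟨e1, e2, e3, e4⟩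
  · exact absurd (rot_cancel h3 hy _ (h5.symm.trans e1)) (hn 0 (by omega))
  refine ⟨e1, e2, fun ⟨i, hi, e5⟩ => hn i hi ?_⟩
  rw [← h2 i hi, e5, h4 _ e3]
  refine rot_cancel (adj_rot h3 _) hy _ (Eq.trans ?_ e4)
  rw [← rot_add, Nat.add_sub_cancel' e3, h5]

/-- the last dart of the cycle, read backwards, has a new image -/
theorem Dev.skipF {t : ℕ} (D : T.Dev T' k f (t + 1) n ψ Sp) {y : V'} {S : Prop}
    (hn : ∀ i < t + 1, ψ i ≠ y) (ht : T.Turn T' k S (f t) (f 0) (f 1) y (ψ 0) (ψ 1)) :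
    T.Found T' k f (t + 1) n ψ Sp ∨ (S ∧ k < T.deg (f 0) ∧ ¬On f (t + 1)
      (T.rot (f 0) (f 1) (T.pos (f 0) (f 1) (f t) - (T.deg (f 0) - k)))) := by
  refine or_iff_not_imp_left.2 fun e => ?_
  obtain ⟨φ, h1, h2⟩ := D.skip e
  have := D.three
  have ha := D.cy.adj 0 (by omega)
  have hb := (D.cy.adj t (by omega)).symm
  have hc := fun s hs => D.wn.corner' D.h6 D.cy D.three D.pos (i := 0) (j := t) (s := s)
    (by omega) (by omega) D.cy.cl hs
  rw [D.cy.cl] at hb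
  rw [zero_add] at ha hc
  have hD := pos_lt ha hb
  have h4 : ∀ s ≤ T.pos (f 0) (f 1) (f t), φ (T.rot (f 0) (f 1) s) = T'.rot (ψ 0) (ψ 1) s :=
    fun s hs => by
    rw [h1.rot ha fun j hj => by rw [hc j (by omega), if_pos (by omega)], h2 _ (by omega),
      h2 _ (by omega)]
  rcases ht with e1 | ⟨e1, e2, e3, e4⟩
  · rw [← h4 _ le_rfl, rot_pos ha hb, h2 _ (by omega)] at e1
    exact absurd e1.symm (hn t (by omega))
  exact ⟨e1, e2, fun ⟨i, hi, e5⟩ => hn i hi (by rw [← h2 i hi, e5, h4 _ (by omega), e4])⟩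

end PlaneTri
end Pool.Agent.P.MP_e4ac67_pr
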