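import Pool.Agent.P.MP_e4ac67_pr.A.Rule
import Pool.Agent.P.MP_e4ac67_pr.A.Skip

/-! Grid points and vertices of the triangulation; a cycle in the cone has its disc in the cone. -/

namespace Pool.Agent.P.MP_e4ac67_pr
namespace PlaneTri
variable {V : Type} {T : PlaneTri V} {f : ℕ → V} {m : ℕ} {n : V → V → ℤ}

variable (T) in
/-- vertices outside the closed disc -/
def Zr (n : V → V → ℤ) (v : V) : Prop := ∀ w, T.G.Adj v w → n v w = 0

theorem Zr.adj (h : T.Cy f m) (hn : T.Wn n (pc f 0 m)) {a b : V} (ha : T.Zr n a)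
    (hab : T.G.Adj a b) (hb : ¬On f m b) : T.Zr n b := fun w hw => by
  have := hn.off h hb hab.symm hw
  rw [this.1, ← this.2, ha b hab]

theorem zr_of_ray (h : T.Cy f m) (hn : T.Wn n (pc f 0 m)) {r : ℕ → V}
    (h1 : ∀ i, T.G.Adj (r i) (r (i + 1))) (h2 : ∀ i, ¬On f m (r i)) (h3 : Function.Injective r) :
    T.Zr n (r 0) := by
  have key : ∀ i, T.Zr n (r i) → T.Zr n (r 0) := fun i => by
    induction i with
    | zero => exact id
    | succ i ih => exact fun e => ih (e.adj h hn (h1 i).symm (h2 i))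
  by_contra hc
  refine Set.infinite_of_injective_forall_mem (f := fun i : ℕ => (r i, r (i + 1)))
    (fun i j e => h3 (Prod.ext_iff.1 e).1) (fun i => ?_) hn.fin
  refine ⟨h1 i, fun e => hc (key i fun w hw => ?_)⟩
  rw [(hn.off h (h2 i) (h1 i) hw).1]
  exact e

end PlaneTri

namespace Gr
open PlaneTri

/-- cyclic difference -/
def cy (D p q : ℕ) : ℕ := if p ≤ q then q - p else q + D - p

namespace Grid
variable {G : Grid}

theorem lk_eq {z : Pt} {i : ℕ} (h : i < G.dg z) : G.lk z i = G.nb z i := by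
  rw [lk, Nat.mod_eq_of_lt h]

theorem adj_lk {z : Pt} (hz : 1 ≤ z.1) (i : ℕ) : G.Adj z (G.lk z i) :=
  adj_nb hz (Nat.mod_lt _ (by have := G.seven_le z; omega))

theorem cone_iff {w : ℕ} {y : Pt} {i : ℕ} {x : ℤ} :
    G.Cn w y (y.1 + i, x) ↔ G.lr y i - w ≤ x ∧ x ≤ G.rr y i + w := by simp [Cn]

theorem cone_ex {w : ℕ} {y v : Pt} (h : G.Cn w y v) : ∃ i x, v = (y.1 + i, x) := by
  obtain ⟨i, e⟩ := Nat.exists_eq_add_of_le h.1
  exact ⟨i, v.2, Prod.ext e rfl⟩

theorem cone_le (y : Pt) (i : ℕ) : G.lr y i ≤ G.rr y i := by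
  induction i with
  | zero => exact le_rfl
  | succ i ih => exact G.A_le (by omega)

theorem cone_child {b v u : Pt} (h : G.Cn 0 b v) (e : u.1 = v.1 + 1) (hc : G.Ch v.1 v.2 u.2) :
    G.Cn 0 b u := by
  obtain ⟨i, x, rfl⟩ := cone_ex h
  obtain ⟨n, y⟩ := u
  obtain rfl : n = b.1 + (i + 1) := e
  rw [cone_iff] at h ⊢
  have h1 : G.A (b.1 + i) (G.lr b i - 1) ≤ G.A (b.1 + i) (x - 1) := G.A_le (by omega)
  have h2 : G.A (b.1 + i) x ≤ G.A (b.1 + i) (G.rr b i) := G.A_le (by omega)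
  have := hc.1
  have := hc.2
  simp only [lr, rr] at *
  omega

theorem cone_ind {b : Pt} {P : Pt → Prop} (h0 : P b)
    (hs : ∀ v u : Pt, P v → u.1 = v.1 + 1 → G.Ch v.1 v.2 u.2 → P u) {v : Pt} (h : G.Cn 0 b v) :
    P v := by
  obtain ⟨i, x, rfl⟩ := cone_ex h
  induction i generalizing x with
  | zero =>
    rw [cone_iff] at h
    obtain rfl : x = b.2 := by simp only [lr, rr] at h; omega
    exact h0
  | succ i ih =>
    obtain ⟨h1, h2⟩ := cone_iff.1 h
    simp only [lr, rr, Nat.cast_zero, sub_zero, add_zero] at h1 h2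
    obtain ⟨h3, h4⟩ := G.lp_spec (b.1 + i) x
    rcases le_or_gt (G.lr b i) (G.lp (b.1 + i) x) with e | e
    · have := (G.A_lt _).lt_iff_lt.1 (h3.trans_le h2)
      exact hs _ _ (ih (G.lp (b.1 + i) x) (cone_iff.2 ⟨by omega, by omega⟩)) rfl ⟨h3.le, h4⟩
    · exact hs _ _ (ih (G.lr b i) (cone_iff.2 ⟨by omega, by
        have := cone_le (G := G) b i; omega⟩)) rfl
        ⟨h1, h4.trans (G.A_le e.le)⟩

theorem cone_trans {a b v : Pt} (h : G.Cn 0 a b) (h' : G.Cn 0 b v) : G.Cn 0 a v :=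
  cone_ind h (fun _ _ => cone_child) h'

theorem cone_anc {b v : Pt} (h : G.Cn 0 b v) : G.Anc v b := by
  refine cone_ind (P := fun v => G.Anc v b) .base (fun v u h1 h2 h3 => ?_) h
  clear h
  induction h1 with
  | base => exact .step .base h2 h3
  | step _ e1 e2 ih => exact .step ih e1 e2

theorem cone_one {b v : Pt} (h : G.Cn 0 b v) : G.Cn 1 b v :=
  ⟨h.1, by have := h.2.1; omega, by have := h.2.2; omega⟩

theorem cone_nb {b v u : Pt} (h : G.Cn 0 b v) (hu : b.1 ≤ u.1) (ha : G.Adj v u) : G.Cn 1 b u := by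
  obtain ⟨i, x, rfl⟩ := cone_ex h
  obtain ⟨n, y⟩ := u
  rcases G.adj_iff.1 ha with ⟨e, e'⟩ | ⟨e, e'⟩ | ⟨e, e1, e2⟩
  · obtain rfl : n = b.1 + i := e
    rw [cone_iff] at h ⊢
    simp only at e'
    omega
  · exact cone_one (cone_child h e e')
  · simp only at e hu e1 e2
    obtain ⟨j, rfl⟩ : ∃ j, i = j + 1 := ⟨i - 1, by omega⟩
    obtain rfl : n = b.1 + j := by omega
    rw [cone_iff] at h ⊢
    simp only [lr, rr, Nat.cast_zero, sub_zero, add_zero] at h
    have h1 := (G.A_lt _).le_iff_le.1 (h.1.trans e2)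
    have h2 := (G.A_lt _).le_iff_le.1 (e1.trans h.2)
    omega

end Grid

namespace Emb
variable {V : Type} {G : Grid} {T : PlaneTri V} (E : Emb G T)

theorem lk {v : Pt} (hv : 1 ≤ v.1) (i : ℕ) :
    E.π (G.lk v i) = T.rot (E.π v) (E.π (G.nb v 0)) i := by
  rw [← rot_mod (E.adj0 v hv), E.deg v hv,
    E.rot v hv _ (Nat.mod_lt _ (by have := G.seven_le v; omega)), Grid.lk]

theorem rot_lk {v : Pt} (hv : 1 ≤ v.1) (i r : ℕ) :
    T.rot (E.π v) (E.π (G.lk v i)) r = E.π (G.lk v (i + r)) := by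
  rw [E.lk hv, E.lk hv, rot_add]

theorem adj_lk {v : Pt} (hv : 1 ≤ v.1) (i : ℕ) : T.G.Adj (E.π v) (E.π (G.lk v i)) :=
  E.lk hv i ▸ adj_rot (E.adj0 v hv) i

theorem adj {v u : Pt} (hv : 1 ≤ v.1) (h : G.Adj v u) : T.G.Adj (E.π v) (E.π u) := by
  obtain ⟨j, hj, rfl⟩ := Grid.exists_nb h
  exact Grid.lk_eq hj ▸ E.adj_lk hv j

theorem exists_lk {v : Pt} (hv : 1 ≤ v.1) {w : V} (h : T.G.Adj (E.π v) w) :
    ∃ i < G.dg v, E.π (G.lk v i) = w := by
  obtain ⟨i, hi, rfl⟩ := rot_surj (E.adj0 v hv) h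
  exact ⟨i, E.deg v hv ▸ hi, E.lk hv i⟩

theorem pos_lk {v : Pt} (hv : 1 ≤ v.1) {p q : ℕ} (hp : p < G.dg v) (hq : q < G.dg v) :
    T.pos (E.π v) (E.π (G.lk v p)) (E.π (G.lk v q)) = cy (G.dg v) p q := by
  have : G.lk v q = G.lk v (p + cy (G.dg v) p q) := by
    unfold cy Grid.lk
    split_ifs with h
    · rw [Nat.add_sub_cancel' h]
    · rw [show p + (q + G.dg v - p) = q + G.dg v by omega, Nat.add_mod_right]
  rw [this, ← E.rot_lk hv, pos_rot (E.adj_lk hv p)]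
  rw [E.deg v hv]
  unfold cy
  split_ifs <;> omega

variable {f : ℕ → V} {m N : ℕ} {n : V → V → ℤ} {o : Pt}

theorem out (h : T.Cy f m) (hn : T.Wn n (pc f 0 m)) (h1 : 2 ≤ o.1) (h0 : G.Cn 0 (0, 0) o)
    (hK : ∀ a, On f m a → ∃ u, G.Hm o N u ∧ E.π u = a) {v u : Pt} (hv : G.Hm o N v)
    (ha : G.Adj v u) (hu : ¬G.Hm o N u) : T.Zr n (E.π u) := by
  have ray : ∀ r : ℕ → Pt, (∀ i, (r i).1 = (r 0).1 + i) → 1 ≤ (r 0).1 →
      (∀ i, G.Ch (r i).1 (r i).2 (r (i + 1)).2) → (∀ i, ¬On f m (E.π (r i))) →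
      T.Zr n (E.π (r 0)) := fun r r1 r2 r3 r4 => by
    refine zr_of_ray (r := fun i => E.π (r i)) h hn (fun i => E.adj (by rw [r1]; omega)
      (Or.inr (Or.inl ⟨by rw [r1, r1 i]; omega, r3 i⟩))) r4 fun i j e => ?_
    have e1 := E.lev (r i)
    have e2 := E.lev (r j)
    rw [show E.π (r i) = E.π (r j) from e, e2, r1 i, r1 j] at e1
    omega
  have off : ∀ u, G.Cn 1 (0, 0) u → ¬G.Hm o N u → ¬On f m (E.π u) := fun u u1 u2 e => by
    obtain ⟨w, w1, w2⟩ := hK _ e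
    exact u2 (E.inj _ _ (Grid.cone_one (Grid.cone_trans h0 w1.1)) u1 w2 ▸ w1)
  have lev : ∀ u, On f m (E.π u) → o.1 ≤ u.1 ∧ u.1 ≤ o.1 + N := fun u e => by
    obtain ⟨w, w1, w2⟩ := hK _ e
    have e1 := E.lev w
    rw [w2, E.lev] at e1
    have := w1.1.1
    have := w1.2
    omega
  have side : ∀ i x, x = G.lr o i - 1 ∨ x = G.rr o i + 1 → T.Zr n (E.π (o.1 + i, x)) := by
    have c1 : ∀ j, G.Cn 0 (0, 0) (o.1 + j, G.lr o j) := fun j => Grid.cone_trans h0
      (Grid.cone_iff.2 ⟨by omega, by have := Grid.cone_le (G := G) o j; omega⟩)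
    have c2 : ∀ j, G.Cn 0 (0, 0) (o.1 + j, G.rr o j) := fun j => Grid.cone_trans h0
      (Grid.cone_iff.2 ⟨by have := Grid.cone_le (G := G) o j; omega, by omega⟩)
    rintro i x (rfl | rfl)
    · refine ray (fun j => (o.1 + (i + j), G.lr o (i + j) - 1)) (fun j => by simp [add_assoc])
        (by simp only; omega) (fun j => ?_) fun j => off _ (Grid.cone_nb (c1 _) (Nat.zero_le _)
          (G.adj_iff.2 (Or.inl ⟨rfl, Or.inr rfl⟩))) fun e => ?_
      · have := G.A_pred (o.1 + (i + j)) (G.lr o (i + j) - 1)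
        have e : G.lr o (i + (j + 1)) = G.A (o.1 + (i + j)) (G.lr o (i + j) - 1) := rfl
        simp only [Grid.Ch, e]
        omega
      · have := (Grid.cone_iff.1 e.1).1
        omega
    · refine ray (fun j => (o.1 + (i + j), G.rr o (i + j) + 1)) (fun j => by simp [add_assoc])
        (by simp only; omega) (fun j => ?_) fun j => off _ (Grid.cone_nb (c2 _) (Nat.zero_le _)
          (G.adj_iff.2 (Or.inl ⟨rfl, Or.inl rfl⟩))) fun e => ?_
      · have := G.A_pred (o.1 + (i + j)) (G.rr o (i + j) + 1)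
        have e : G.rr o (i + (j + 1)) = G.A (o.1 + (i + j)) (G.rr o (i + j)) := rfl
        simp only [Grid.Ch, e, add_sub_cancel_right] at this ⊢
        omega
      · have := (Grid.cone_iff.1 e.1).2
        omega
  have hv1 := hv.1.1
  have hv2 := hv.2
  by_cases c1 : o.1 + N < u.1
  · refine ray (fun j => (u.1 + j, G.lr u j)) (fun j => rfl) (by simp only; omega) (fun j => ?_)
      fun j e => ?_
    · exact ⟨le_rfl, (G.A_pred _ _).le⟩
    · have := (lev _ e).2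
      simp only at this
      omega
  by_cases c2 : o.1 ≤ u.1
  · have c3 := Grid.cone_nb hv.1 c2 ha
    obtain ⟨i, x, rfl⟩ := Grid.cone_ex c3
    refine side i x ?_
    have := Grid.cone_iff.1 c3
    by_contra e
    exact hu ⟨Grid.cone_iff.2 (by omega), not_lt.1 c1⟩
  have c3 : ¬On f m (E.π u) := fun e => c2 (lev u e).1
  obtain ⟨i, x, rfl⟩ := Grid.cone_ex hv.1
  have c4 := Grid.cone_iff.1 hv.1
  have c5 := G.adj_iff.1 ha
  obtain rfl : i = 0 := by simp only at c5; omega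
  have c6 := G.A_pred u.1 u.2
  simp only [Grid.lr, Grid.rr, add_zero] at c4 c5
  by_cases c7 : G.A u.1 (u.2 - 1) < o.2
  · exact (side 0 _ (Or.inl rfl)).adj h hn (E.adj (by simp only; omega)
      (G.adj_iff.2 (by simp only [Grid.lr]; omega))) c3
  · exact (side 0 _ (Or.inr rfl)).adj h hn (E.adj (by simp only; omega)
      (G.adj_iff.2 (by simp only [Grid.rr]; omega))) c3

theorem inside (h : T.Cy f m) (hn : T.Wn n (pc f 0 m)) (h1 : 2 ≤ o.1) (h0 : G.Cn 0 (0, 0) o)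
    (hK : ∀ a, On f m a → ∃ u, G.Hm o N u ∧ E.π u = a) (a : V) :
    (∃ u, G.Hm o N u ∧ E.π u = a) ∨ T.Zr n a := by
  have key : ∀ {a b}, T.G.Walk a b → (∃ u, G.Hm o N u ∧ E.π u = b) ∨ T.Zr n b →
      (∃ u, G.Hm o N u ∧ E.π u = a) ∨ T.Zr n a := fun p => by
    induction p with
    | nil => exact id
    | @cons a b c h' p ih =>
      intro e
      rcases ih e with ⟨u, u1, rfl⟩ | e
      · obtain ⟨i, -, rfl⟩ := E.exists_lk (by have := u1.1.1; omega) h'.symm
        by_cases e : G.Hm o N (G.lk u i)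
        · exact Or.inl ⟨_, e, rfl⟩
        · exact Or.inr (E.out h hn h1 h0 hK u1 (Grid.adj_lk (by have := u1.1.1; omega) i) e)
      · by_cases e' : On f m a
        · exact Or.inl (hK a e')
        · exact Or.inr (e.adj h hn h'.symm e')
  obtain ⟨p⟩ := T.conn a (f 0)
  exact key p (Or.inl (hK _ (h.on (Nat.zero_le m))))

end Emb
end Gr
end Pool.Agent.P.MP_e4ac67_pr
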