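import Pool.Agent.P.MP_e4ac67_pr.A.Jor

/-! A disc whose interior vertices have degree `k` develops into the `k`-regular triangulation. -/

namespace Pool.Agent.P.MP_e4ac67_pr
namespace PlaneTri
variable {V V' : Type} {T : PlaneTri V} {T' : PlaneTri V'} {k : ℕ}

variable (T) in
/-- interior vertices -/
def Inn (n : V → V → ℤ) (v : V) : Prop := ∀ w, T.G.Adj v w → n v w = 1

variable (T) in
/-- vertices of the closed disc -/
def Cl (n : V → V → ℤ) (v : V) : Prop := ∃ w, T.G.Adj v w ∧ n v w = 1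

variable (T T') in
/-- face preserving maps -/
def FP (n : V → V → ℤ) (φ : V → V') : Prop :=
  ∀ a b, T.G.Adj a b → n a b = 1 → T'.G.Adj (φ a) (φ b) ∧ φ (T.nx a b) = T'.nx (φ a) (φ b)

variable (T) in
noncomputable def area (n : V → V → ℤ) : ℕ := {x : V × V | T.G.Adj x.1 x.2 ∧ n x.1 x.2 ≠ 0}.ncard

variable {f : ℕ → V} {m : ℕ} {n : V → V → ℤ}

theorem area_lt {c n' : V → V → ℤ} (hn : T.Wn n c) (h : ∀ a b, T.G.Adj a b → n a b = 0 → n' a b = 0)
    {a b : V} (hab : T.G.Adj a b) (h1 : n a b ≠ 0) (h0 : n' a b = 0) : T.area n' < T.area n := by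
  refine Set.ncard_lt_ncard ⟨fun x hx => ⟨hx.1, fun e => hx.2 (h _ _ hx.1 e)⟩, fun hs => ?_⟩ hn.fin
  exact (hs (a := (a, b)) ⟨hab, h1⟩).2 h0

theorem Wn.inn (h : T.Cy f m) (hn : T.Wn n (pc f 0 m)) {v : V} (hv : ¬On f m v) (hc : T.Cl n v) :
    T.Inn n v := fun w' hw' => by
  obtain ⟨w, hw, e⟩ := hc
  rw [(hn.off h hv hw hw').1, e]

theorem Wn.right_le (h6 : ∀ v, 6 ≤ T.deg v) (h : T.Cy f m) (hn : T.Wn n (pc f 0 m)) {i : ℕ}
    (hi : i < m) : n (f (i + 1)) (f i) ≤ 0 := by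
  rcases h.two.lt_or_eq with h3 | rfl
  · have := hn.right h h3 hi
    have := hn.le_one h6 h (h.adj i hi)
    omega
  · exact (hn.two h6 h (h.adj i hi).symm).le

theorem Wn.not_inn (h6 : ∀ v, 6 ≤ T.deg v) (h : T.Cy f m) (hn : T.Wn n (pc f 0 m)) {v : V}
    (hv : On f m v) : ¬T.Inn n v := fun hi => by
  obtain ⟨i, hi', rfl⟩ := hv
  obtain ⟨j, hj, e⟩ := h.exists_prev hi'
  have h1 := hn.right_le h6 h hj
  have h2 := hi (f j) (e ▸ (h.adj j hj).symm)
  rw [e] at h1
  omega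

theorem Wn.cl_face {c : V → V → ℤ} (hn : T.Wn n c) {a b : V} (hab : T.G.Adj a b)
    (h : n a b = 1) : T.Cl n a ∧ T.Cl n b ∧ T.Cl n (T.nx a b) := by
  have h1 := hn.face a b hab
  have h2 := hn.face _ _ (adj_nx2 hab)
  rw [face1 hab rfl] at h2
  exact ⟨⟨b, hab, h⟩, ⟨_, adj_nx2 hab, by omega⟩, ⟨a, (adj_nx1 hab).symm, by omega⟩⟩

theorem FP.rot {φ : V → V'} (h : T.FP T' n φ) {v w : V} (hvw : T.G.Adj v w) {s : ℕ}
    (hs : ∀ j < s, n v (T.rot v w j) = 1) : φ (T.rot v w s) = T'.rot (φ v) (φ w) s := by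
  induction s with
  | zero => rfl
  | succ s ih =>
    rw [rot_succ, rot_succ, (h _ _ (adj_rot hvw s) (hs s (by omega))).2,
      ih fun j hj => hs j (by omega)]

theorem fi_cases (a b x y : V) : T.fi a b x y = 0 ∨ (T.fi a b x y = 1 ∧
    ((x = a ∧ y = b) ∨ (x = b ∧ y = T.nx a b) ∨ (x = T.nx a b ∧ y = a))) := by
  unfold fi
  split_ifs with h
  · exact Or.inr ⟨rfl, h⟩
  · exact Or.inl rfl

theorem fp_face {φ : V → V'} {a b : V} (hab : T.G.Adj a b) (h1 : T'.G.Adj (φ a) (φ b))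
    (h2 : φ (T.nx a b) = T'.nx (φ a) (φ b)) {x y : V}
    (h : (x = a ∧ y = b) ∨ (x = b ∧ y = T.nx a b) ∨ (x = T.nx a b ∧ y = a)) :
    T'.G.Adj (φ x) (φ y) ∧ φ (T.nx x y) = T'.nx (φ x) (φ y) := by
  rcases h with ⟨rfl, rfl⟩ | ⟨rfl, rfl⟩ | ⟨rfl, rfl⟩
  · exact ⟨h1, h2⟩
  · rw [h2, face1 hab rfl, face1 h1 rfl]; exact ⟨adj_nx2 h1, rfl⟩
  · rw [h2, face2 hab rfl, face2 h1 rfl]; exact ⟨(adj_nx1 h1).symm, rfl⟩

theorem cy_push (h : T.Cy f m) {c : V} (hc : ¬On f m c) (h0 : T.G.Adj (f 0) c)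
    (h1 : T.G.Adj c (f 1)) : ∃ g : ℕ → V, g 0 = f 0 ∧ g 1 = c ∧ T.Cy g (m + 1) ∧
      ∀ a b, pc g 0 (m + 1) a b = dd (f 0) c a b + dd c (f 1) a b + pc f 1 m a b := by
  have h2 := h.two
  refine ⟨fun i => if i = 0 then f 0 else if i = 1 then c else f (i - 1), by simp, by simp,
    ⟨by omega, fun i hi => ?_, by simp [show m ≠ 0 by omega, h.cl], fun i hi j hj e => ?_⟩,
    fun a b => ?_⟩
  · rcases i with _ | _ | i
    · simpa using h0
    · simpa using h1
    · simpa using h.adj (i + 1) (by omega)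
  · have hc' : ∀ l < m, f l ≠ c := fun l hl e => hc ⟨l, hl, e⟩
    rcases i with _ | _ | i <;> rcases j with _ | _ | j <;> simp at e ⊢ <;>
      first
      | exact absurd e (hc' _ (by omega))
      | exact absurd e.symm (hc' _ (by omega))
      | (have := h.inj _ (by omega) _ (by omega) e; omega)
  · rw [← pc_add _ (Nat.zero_le 2) (by omega), pc_succ _ (Nat.zero_le 1), pc_one,
      pc_shift (f := f) (s' := 1) (fun i h1 _ => by
        rw [if_neg (by omega), if_neg (by omega)]; congr 1; omega) (by omega),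
      show m + 1 - 2 + 1 = m by omega]
    simp

/-- the part of a cycle between two indices, closed by a chord, read from the larger index -/
theorem cy_sub (h : T.Cy f m) {s t : ℕ} (hst : s < t) (ht : t ≤ m) (hm : t - s < m)
    (ha : T.G.Adj (f t) (f s)) : ∃ g : ℕ → V, g 0 = f t ∧ (∀ i, g (i + 1) = f (s + i)) ∧
      T.Cy g (t - s + 1) ∧ ∀ a b, pc g 0 (t - s + 1) a b = dd (f t) (f s) a b + pc f s t a b := by
  have key : ∀ i j, s ≤ i → i < j → j ≤ t → f i ≠ f j := fun i j h1 h2 h3 e => by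
    rcases (h3.trans ht).lt_or_eq with h4 | h4
    · have := h.inj _ (by omega) _ h4 e; omega
    · rw [h4, h.cl] at e
      have := h.inj _ (by omega) _ (by omega) e; omega
  refine ⟨fun i => if i = 0 then f t else f (s + (i - 1)), by simp, by simp,
    ⟨by omega, fun i hi => ?_, by simp [show s + (t - s) = t by omega], fun i hi j hj e => ?_⟩,
    fun a b => ?_⟩
  · rcases i with _ | i
    · simpa using ha
    · simpa [← add_assoc] using h.adj (s + i) (by omega)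
  · rcases i with _ | i <;> rcases j with _ | j <;> simp at e ⊢
    · exact key _ _ (by omega) (by omega) le_rfl e.symm
    · exact key _ _ (by omega) (by omega) le_rfl e
    · rcases lt_trichotomy i j with h1 | h1 | h1
      · exact absurd e (key _ _ (by omega) (by omega) (by omega))
      · exact h1
      · exact absurd e.symm (key _ _ (by omega) (by omega) (by omega))
  · rw [← pc_add _ (Nat.zero_le 1) (by omega), pc_one,
      pc_shift (f := f) (s' := s) (fun i h1 _ => by rw [if_neg (by omega), add_comm]) (by omega),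
      show t - s + 1 - 1 + s = t by omega]
    simp

theorem fi_self (a b : V) : T.fi a b a b = 1 ∧ T.fi a b b (T.nx a b) = 1 ∧
    T.fi a b (T.nx a b) a = 1 := by simp [fi]

theorem flat (h6 : ∀ v, 6 ≤ T.deg v) (hT' : ∀ v, T'.deg v = k) (N : ℕ) :
    ∀ (f : ℕ → V) (m : ℕ) (n : V → V → ℤ), T.area n < N → T.Cy f m → T.Wn n (pc f 0 m) →
      T.Pos n → (∀ v, T.Inn n v → T.deg v = k) → ∀ x y, T'.G.Adj x y →
      ∃ φ : V → V', φ (f 0) = x ∧ φ (f 1) = y ∧ T.FP T' n φ := by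
  classical
  induction N with
  | zero => intro f m n h; omega
  | succ N ih =>
  intro f m n hN h hn hp hk x y hxy
  have hab := h.adj 0 (by have := h.two; omega)
  rw [zero_add] at hab
  rcases h.two.lt_or_eq with h3 | rfl
  swap
  · refine ⟨fun v => if v = f 1 then y else x, if_neg hab.ne, if_pos rfl, fun a b h1 h2 => ?_⟩
    rw [hn.two h6 h h1] at h2
    omega
  have h1 : n (f 0) (f 1) = 1 := hn.left_one h6 h h3 hp (by omega : 0 < m)
  have hac := adj_nx1 hab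
  have hbc := adj_nx2 hab
  have hf := wn_fi hab
  have fs := fi_self (T := T) (f 0) (f 1)
  have nbc := hn.face _ _ hab
  have nca := hn.face _ _ hbc
  rw [face1 hab rfl] at nca
  have hpc : ∀ a b, pc f 0 m a b = dd (f 0) (f 1) a b + pc f 1 m a b := fun a b => by
    rw [← pc_add f (Nat.zero_le 1) (by omega), pc_one]
  set c := T.nx (f 0) (f 1) with hc
  by_cases hon : On f m c
  swap
  · obtain ⟨g, g0, g1, hg, hgc⟩ := cy_push h hon hac hbc.symm
    have hn' := (hn.add hf.neg).congr (c' := pc g 0 (m + 1)) fun a b => by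
      rw [hgc, hpc, dd_rev (f 1) c, dd_rev (f 0) c]; ring
    have hp' := hn'.pos_of h6 hg (i := 0) (by omega) (by rw [g0, zero_add, g1]; omega)
    have hle : ∀ a b, T.G.Adj a b → n a b + -T.fi (f 0) (f 1) a b = 1 → n a b = 1 :=
      fun a b e1 e2 => by have := hp a b e1; have := fi_cases (T := T) (f 0) (f 1) a b; omega
    have hin : T.Inn n c := hn.inn h hon ⟨_, hac.symm, by omega⟩
    have hd := hk c hin
    obtain ⟨φ, p0, p1, hφ⟩ := ih g (m + 1) _ (lt_of_lt_of_le (area_lt hn (fun a b e1 e2 => by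
      have := hp' a b e1; have := fi_cases (T := T) (f 0) (f 1) a b; beta_reduce at *; omega) hab
      (by omega) (by omega)) (by omega)) hg hn' hp' (fun v hv => hk v fun w hw => hle _ _ hw (hv w hw)) x _
      (adj_nx1 hxy)
    rw [g0] at p0
    rw [g1] at p1
    have h7 := h6 c
    obtain ⟨l, hl⟩ : ∃ l, k = l + 1 := ⟨k - 1, by omega⟩
    have e1 : T.rot c (f 1) l = f 0 := nx_inj (adj_rot hbc.symm l) hac.symm
      (by rw [← rot_succ, ← hl, ← hd, rot_deg hbc.symm, face2 hab rfl])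
    have e2 : ∀ j < l, n c (T.rot c (f 1) j) + -T.fi (f 0) (f 1) c (T.rot c (f 1) j) = 1 := by
      intro j hj
      rw [hin _ (adj_rot hbc.symm j)]
      rcases fi_cases (T := T) (f 0) (f 1) c (T.rot c (f 1) j) with e | ⟨-, e | e | e⟩
      · omega
      · exact absurd e.1 hac.ne'
      · exact absurd e.1 hbc.ne'
      · have := rot_inj hbc.symm (by omega) (by omega) (e.2.trans e1.symm); omega
    have e3 := hφ.rot hbc.symm e2
    have e4 := (hφ _ _ hbc.symm (e2 0 (by omega))).1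
    have e5 : φ (f 1) = y := by
      rw [← rot_deg e4, hT', hl, rot_succ, ← e3, e1, p0, p1, face2 hxy rfl]
    refine ⟨φ, p0, e5, fun a b e6 e7 => ?_⟩
    rcases fi_cases (T := T) (f 0) (f 1) a b with e | ⟨-, e⟩
    · exact hφ a b e6 (by beta_reduce; omega)
    · exact fp_face hab (by rwa [p0, e5]) (by rw [p0, e5, ← p1]) e
  obtain ⟨t, ht, et⟩ := hon
  have t0 : t ≠ 0 := by rintro rfl; exact hac.ne et
  have t1 : t ≠ 1 := by rintro rfl; exact hbc.ne et
  obtain ⟨g, g0, g1, hg, hgc⟩ := cy_sub h (s := 1) (t := t) (by omega) ht.le (by omega)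
    (et ▸ hbc.symm)
  obtain ⟨g', g0', g1', hg', hgc'⟩ := cy_sub h (s := t) (t := m) ht le_rfl (by omega)
    (by rw [h.cl, et]; exact hac)
  obtain ⟨n1, hn1⟩ := exists_wn g _ hg.adj hg.cl
  obtain ⟨n2, hn2⟩ := exists_wn g' _ hg'.adj hg'.cl
  rw [h.cl] at g0' hgc'
  rw [et] at g0 hgc hgc'
  have gb : g 1 = f 1 := g1 0
  have gc : g' 1 = c := (g1' 0).trans et
  have hs : ∀ a b, T.G.Adj a b → n a b = n1 a b + n2 a b + T.fi (f 0) (f 1) a b := fun a b e =>
    hn.unique h6 (((hn1.add hn2).add hf).congr fun a b => by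
      rw [hgc, hgc', hpc, ← pc_add f (by omega : 1 ≤ t) ht.le, dd_rev (f 1) c, dd_rev (f 0) c]
      ring) e
  have r1 := hn1.right_le h6 hg (i := 0) (by omega)
  have r2 := hn2.right_le h6 hg' (i := 0) (by omega)
  rw [zero_add, gb, g0] at r1
  rw [zero_add, gc, g0'] at r2
  have s1 := hs _ _ hbc
  have s2 := hn2.face _ _ hbc
  rw [face1 hab rfl] at s2
  have s3 := hn1.face _ _ hab
  have s4 := hn2.face _ _ hab
  rw [← hc] at s3 s4
  have hp1 := hn1.pos_of h6 hg (i := 0) (by omega) (by rw [zero_add, gb, g0]; omega)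
  have hp2 := hn2.pos_of h6 hg' (i := 0) (by omega) (by rw [zero_add, gc, g0']; omega)
  have hall : ∀ a b, T.G.Adj a b → (n a b = 0 → n1 a b = 0 ∧ n2 a b = 0) ∧
      (n1 a b = 1 → n a b = 1 ∧ n2 a b = 0) ∧ (n2 a b = 1 → n a b = 1) := fun a b e => by
    have := hs a b e; have := hp a b e; have := hp1 a b e; have := hp2 a b e
    have := fi_cases (T := T) (f 0) (f 1) a b
    omega
  have i1 : ∀ v, T.Inn n1 v → T.Inn n v := fun v hv w hw => ((hall _ _ hw).2.1 (hv w hw)).1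
  have i2 : ∀ v, T.Inn n2 v → T.Inn n v := fun v hv w hw => (hall _ _ hw).2.2 (hv w hw)
  obtain ⟨φ, p0, p1, hφ⟩ := ih g _ n1 (lt_of_lt_of_le (area_lt hn
    (fun a b e1 e2 => ((hall a b e1).1 e2).1) hab (by omega) (by omega)) (by omega)) hg hn1 hp1
    (fun v hv => hk v (i1 v hv)) _ y (adj_nx2 hxy).symm
  obtain ⟨φ', p0', p1', hφ'⟩ := ih g' _ n2 (lt_of_lt_of_le (area_lt hn
    (fun a b e1 e2 => ((hall a b e1).1 e2).2) hab (by omega) (by omega)) (by omega)) hg' hn2 hp2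
    (fun v hv => hk v (i2 v hv)) x _ (adj_nx1 hxy)
  rw [g0] at p0
  rw [gb] at p1
  rw [g0'] at p0'
  rw [gc] at p1'
  have o1 : ∀ v, On g (t - 1 + 1) v → ∃ i, 1 ≤ i ∧ i ≤ t ∧ f i = v := by
    rintro v ⟨_ | i, hi, rfl⟩
    · exact ⟨t, by omega, le_rfl, by rw [g0, et]⟩
    · exact ⟨1 + i, by omega, by omega, (g1 i).symm⟩
  have o2 : ∀ v, On g' (m - t + 1) v → ∃ i < m, (i = 0 ∨ t ≤ i) ∧ f i = v := by
    rintro v ⟨_ | i, hi, rfl⟩
    · exact ⟨0, by omega, Or.inl rfl, g0'.symm⟩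
    · exact ⟨t + i, by omega, by omega, (g1' i).symm⟩
  have k1 : ∀ v, T.Cl n2 v ∨ v = f 0 → T.Cl n1 v ∨ v = f 1 → v = c := by
    intro v hv hv'
    have a1 : On g (t - 1 + 1) v := by
      rcases hv' with hv' | rfl
      · by_contra hc'
        have := hn1.inn hg hc' hv'
        rcases hv with ⟨w, hw, e⟩ | rfl
        · have := ((hall _ _ hw).2.1 (this w hw)).2; omega
        · exact hn.not_inn h6 h (h.on (Nat.zero_le _)) (i1 _ this)
      · exact gb ▸ hg.on (by omega)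
    obtain ⟨i, a2, a3, rfl⟩ := o1 v a1
    have a4 : On g' (m - t + 1) (f i) := by
      rcases hv with hv | e
      · by_contra hc'
        exact hn.not_inn h6 h (h.on (by omega)) (i2 _ (hn2.inn hg' hc' hv))
      · rw [e, ← g0']; exact hg'.on (Nat.zero_le _)
    obtain ⟨j, a5, a6, a7⟩ := o2 _ a4
    have := h.inj _ a5 _ (by omega) a7
    rw [← et]; congr 1; omega
  set ψ : V → V' := fun v => if T.Cl n1 v ∨ v = f 1 then φ v else φ' v with hψ
  have q1 : ∀ v, T.Cl n1 v ∨ v = f 1 → ψ v = φ v := fun v hv => if_pos hv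
  have q2 : ∀ v, T.Cl n2 v ∨ v = f 0 → ψ v = φ' v := fun v hv => by
    by_cases hv' : T.Cl n1 v ∨ v = f 1
    · rw [q1 v hv', k1 v hv hv', p0, p1']
    · exact if_neg hv'
  have q3 : ψ c = T'.nx x y := by
    by_cases hv' : T.Cl n1 c ∨ c = f 1
    · rw [q1 _ hv', p0]
    · exact (if_neg hv').trans p1'
  have q4 := (q2 _ (Or.inr rfl)).trans p0'
  have q5 := (q1 _ (Or.inr rfl)).trans p1
  refine ⟨ψ, q4, q5, fun a b e6 e7 => ?_⟩
  rcases fi_cases (T := T) (f 0) (f 1) a b with e | ⟨-, e⟩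
  · have := hs a b e6
    rcases hp1 a b e6 with e8 | e8
    · obtain ⟨c1, c2, c3⟩ := hn2.cl_face e6 (by omega)
      rw [q2 _ (Or.inl c1), q2 _ (Or.inl c2), q2 _ (Or.inl c3)]
      exact hφ' a b e6 (by omega)
    · obtain ⟨c1, c2, c3⟩ := hn1.cl_face e6 e8
      rw [q1 _ (Or.inl c1), q1 _ (Or.inl c2), q1 _ (Or.inl c3)]
      exact hφ a b e6 e8
  · exact fp_face hab (by rwa [q4, q5]) (by rw [q4, q5, ← q3]) e

end PlaneTri
end Pool.Agent.P.MP_e4ac67_pr
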