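import Pool.Agent.P.MP_e4ac67_pr.G.Grid

/-! Neighbours of a grid point in cyclic order, cones. -/

namespace Pool.Agent.P.MP_e4ac67_pr.Gr

open Classical in
/-- the left parent -/
noncomputable def lpOf (A : ℤ → ℤ) (y : ℤ) : ℤ :=
  if h : ∃ x, A (x - 1) < y ∧ y ≤ A x then h.choose else 0

theorem lpOf_spec {A : ℤ → ℤ} (hA : ∀ x, A (x - 1) < A x) (y : ℤ) :
    A (lpOf A y - 1) < y ∧ y ≤ A (lpOf A y) := by
  have h1 : ∀ d : ℕ, A 0 + d ≤ A d := fun d => by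
    induction d with
    | zero => simp
    | succ d ih => have := hA (d + 1); simp at this; push_cast; omega
  have h2 : ∀ d : ℕ, A (-d) + d ≤ A 0 := fun d => by
    induction d with
    | zero => simp
    | succ d ih =>
      have := hA (-d)
      rw [show (-((d + 1 : ℕ) : ℤ)) = -d - 1 by push_cast; ring]
      push_cast; omega
  have hm : StrictMono A := strictMono_int_of_lt_succ fun m => by simpa using hA (m + 1)
  have h : ∃ x, A (x - 1) < y ∧ y ≤ A x := by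
    obtain ⟨x, h3, h4⟩ := Int.exists_least_of_bdd (P := fun x => y ≤ A x)
      ⟨-((A 0 - y + 1).toNat : ℤ), fun x hx => by
        by_contra e
        have := hm (not_le.1 e)
        have := h2 (A 0 - y + 1).toNat
        omega⟩ ⟨(y - A 0).toNat, by have := h1 (y - A 0).toNat; omega⟩
    exact ⟨x, by by_contra e; have := h4 (x - 1) (not_lt.1 e); omega, h3⟩
  rw [lpOf, dif_pos h]
  exact h.choose_spec

theorem lpOf_eq {A : ℤ → ℤ} (hA : ∀ x, A (x - 1) < A x) {x y : ℤ} (h1 : A (x - 1) < y)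
    (h2 : y ≤ A x) : lpOf A y = x := by
  have hm : StrictMono A := strictMono_int_of_lt_succ fun m => by simpa using hA (m + 1)
  have h := lpOf_spec hA y
  have a := hm.lt_iff_lt.1 (h1.trans_le h.2)
  have b := hm.lt_iff_lt.1 (h.1.trans_le h2)
  omega

namespace Grid
variable (G : Grid)

theorem A_pred (n : ℕ) (x : ℤ) : G.A n (x - 1) < G.A n x := by have := G.gap2 n x; omega

theorem A_le {n : ℕ} {x y : ℤ} (h : x ≤ y) : G.A n x ≤ G.A n y := (G.A_lt n).monotone h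

noncomputable def lp (n : ℕ) (y : ℤ) : ℤ := lpOf (G.A n) y

theorem lp_spec (n : ℕ) (y : ℤ) : G.A n (G.lp n y - 1) < y ∧ y ≤ G.A n (G.lp n y) :=
  lpOf_spec (G.A_pred n) y

theorem lp_eq {n : ℕ} {x y : ℤ} (h1 : G.A n (x - 1) < y) (h2 : y ≤ G.A n x) : G.lp n y = x :=
  lpOf_eq (G.A_pred n) h1 h2

open Classical in
noncomputable def tau (v : Pt) : ℕ := if Two G.A v.1 v.2 then 1 else 0

def gap (v : Pt) : ℕ := (G.A v.1 v.2 - G.A v.1 (v.2 - 1)).toNat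

/-- degree -/
noncomputable def dg (v : Pt) : ℕ := G.gap v + 4 + G.tau v

/-- the `j`-th neighbour counted counterclockwise from the left parent -/
noncomputable def nb (v : Pt) (j : ℕ) : Pt :=
  if j = 0 then (v.1 - 1, G.lp (v.1 - 1) v.2) else if j = 1 then (v.1, v.2 - 1)
  else if j ≤ G.gap v + 2 then (v.1 + 1, G.A v.1 (v.2 - 1) + j - 2)
  else if j = G.gap v + 3 then (v.1, v.2 + 1) else (v.1 - 1, G.lp (v.1 - 1) v.2 + 1)

theorem gap_eq (v : Pt) : (G.gap v : ℤ) = G.A v.1 v.2 - G.A v.1 (v.2 - 1) := by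
  have := G.A_pred v.1 v.2
  unfold gap; omega

theorem tau_le (v : Pt) : G.tau v ≤ 1 := by unfold tau; split_ifs <;> omega

theorem tau_succ (n : ℕ) (y : ℤ) :
    (G.tau (n + 1, y) = 1 ∧ y = G.A n (G.lp n y)) ∨
      (G.tau (n + 1, y) = 0 ∧ y < G.A n (G.lp n y)) := by
  have h := G.lp_spec n y
  rcases h.2.lt_or_eq with e | e
  · exact Or.inr ⟨if_neg (G.not_two h.1 e), e⟩
  · exact Or.inl ⟨if_pos ⟨_, e.symm⟩, e⟩

theorem seven_le (v : Pt) : 7 ≤ G.dg v := by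
  have h1 := G.gap_eq v
  have h2 := G.gap2 v.1 v.2
  have h3 := G.gap3 v.1 v.2
  unfold dg tau
  split_ifs with h
  · omega
  · have := h3 h; omega

theorem nb_zero (v : Pt) : G.nb v 0 = (v.1 - 1, G.lp (v.1 - 1) v.2) := if_pos rfl
theorem nb_one (v : Pt) : G.nb v 1 = (v.1, v.2 - 1) := by simp [nb]
theorem nb_ch (v : Pt) {j : ℕ} (h1 : 2 ≤ j) (h2 : j ≤ G.gap v + 2) :
    G.nb v j = (v.1 + 1, G.A v.1 (v.2 - 1) + j - 2) := by
  rw [nb, if_neg (by omega), if_neg (by omega), if_pos h2]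
theorem nb_rt (v : Pt) : G.nb v (G.gap v + 3) = (v.1, v.2 + 1) := by simp [nb]
theorem nb_up (v : Pt) {j : ℕ} (h : G.gap v + 4 ≤ j) :
    G.nb v j = (v.1 - 1, G.lp (v.1 - 1) v.2 + 1) := by
  rw [nb, if_neg (by omega), if_neg (by omega), if_neg (by omega), if_neg (by omega)]

theorem adj_iff {v u : Pt} : G.Adj v u ↔ (u.1 = v.1 ∧ (u.2 = v.2 + 1 ∨ u.2 = v.2 - 1)) ∨
    (u.1 = v.1 + 1 ∧ G.A v.1 (v.2 - 1) ≤ u.2 ∧ u.2 ≤ G.A v.1 v.2) ∨
    (v.1 = u.1 + 1 ∧ G.A u.1 (u.2 - 1) ≤ v.2 ∧ v.2 ≤ G.A u.1 u.2) := by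
  refine or_congr_left ?_
  obtain ⟨a, b⟩ := u
  simp only [Bool.exists_bool, hop, sg, Prod.mk.injEq]
  omega

variable {G}

theorem Adj.symm {v u : Pt} (h : G.Adj v u) : G.Adj u v := by
  rw [adj_iff] at h ⊢; omega

theorem Adj.ne {v u : Pt} (h : G.Adj v u) : v ≠ u := by
  rintro rfl
  rw [adj_iff] at h; omega

theorem nb_cases (v : Pt) (j : ℕ) : (j = 0 ∧ G.nb v j = (v.1 - 1, G.lp (v.1 - 1) v.2)) ∨
    (j = 1 ∧ G.nb v j = (v.1, v.2 - 1)) ∨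
    (2 ≤ j ∧ j ≤ G.gap v + 2 ∧ G.nb v j = (v.1 + 1, G.A v.1 (v.2 - 1) + j - 2)) ∨
    (j = G.gap v + 3 ∧ G.nb v j = (v.1, v.2 + 1)) ∨
    (G.gap v + 4 ≤ j ∧ G.nb v j = (v.1 - 1, G.lp (v.1 - 1) v.2 + 1)) := by
  rcases (by omega : j = 0 ∨ j = 1 ∨ (2 ≤ j ∧ j ≤ G.gap v + 2) ∨ j = G.gap v + 3 ∨
    G.gap v + 4 ≤ j) with rfl | rfl | h | rfl | h
  · exact Or.inl ⟨rfl, G.nb_zero v⟩
  · exact Or.inr (Or.inl ⟨rfl, G.nb_one v⟩)
  · exact Or.inr (Or.inr (Or.inl ⟨h.1, h.2, G.nb_ch v h.1 h.2⟩))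
  · exact Or.inr (Or.inr (Or.inr (Or.inl ⟨rfl, G.nb_rt v⟩)))
  · exact Or.inr (Or.inr (Or.inr (Or.inr ⟨h, G.nb_up v h⟩)))

theorem adj_nb {v : Pt} (hv : 1 ≤ v.1) {j : ℕ} (hj : j < G.dg v) : G.Adj v (G.nb v j) := by
  obtain ⟨n, y⟩ := v
  obtain ⟨n, rfl⟩ : ∃ m, n = m + 1 := ⟨n - 1, by simp at hv; omega⟩
  have h1 := G.gap_eq (n + 1, y)
  have h2 := G.lp_spec n y
  have h3 := G.tau_succ n y
  have h4 := G.A_pred n (G.lp n y + 1)
  rw [adj_iff]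
  unfold dg at hj
  rcases nb_cases (G := G) (n + 1, y) j with ⟨h, e⟩ | ⟨h, e⟩ | ⟨h, h', e⟩ | ⟨h, e⟩ | ⟨h, e⟩ <;>
    rw [e] <;> simp at h1 h4 ⊢ <;> omega

theorem nb_inj {v : Pt} (hv : 1 ≤ v.1) {i j : ℕ} (hi : i < G.dg v) (hj : j < G.dg v)
    (e : G.nb v i = G.nb v j) : i = j := by
  have := G.tau_le v
  unfold dg at hi hj
  rcases nb_cases (G := G) v i with ⟨h, a⟩ | ⟨h, a⟩ | ⟨h, h', a⟩ | ⟨h, a⟩ | ⟨h, a⟩ <;>
    rcases nb_cases (G := G) v j with ⟨g, b⟩ | ⟨g, b⟩ | ⟨g, g', b⟩ | ⟨g, b⟩ | ⟨g, b⟩ <;>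
    rw [a, b, Prod.mk.injEq] at e <;> omega

theorem exists_nb {v u : Pt} (h : G.Adj v u) : ∃ j < G.dg v, G.nb v j = u := by
  have h1 := G.gap_eq v
  obtain ⟨m, x⟩ := u
  rw [adj_iff] at h
  rcases h with ⟨e, e' | e'⟩ | ⟨e, e1, e2⟩ | ⟨e, e1, e2⟩
  · exact ⟨G.gap v + 3, by unfold dg; omega, by rw [nb_rt]; simp at e e' ⊢; omega⟩
  · exact ⟨1, by unfold dg; omega, by rw [nb_one]; simp at e e' ⊢; omega⟩
  · simp only at e e1 e2
    refine ⟨(x - G.A v.1 (v.2 - 1)).toNat + 2, by unfold dg; omega, ?_⟩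
    rw [nb_ch _ _ (by omega) (by omega)]
    simp only [Prod.mk.injEq]; omega
  · obtain ⟨n, y⟩ := v
    simp only at e e1 e2
    subst e
    rcases e1.lt_or_eq with e1 | e1
    · exact ⟨0, by unfold dg; omega, by rw [nb_zero]; simp [G.lp_eq e1 e2]⟩
    · have h2 : G.lp m y = x - 1 := G.lp_eq (e1 ▸ G.A_pred m _) e1.ge
      have h3 := G.tau_succ m y
      rw [h2] at h3
      exact ⟨G.gap (m + 1, y) + 4, by unfold dg; omega, by rw [nb_up _ _ le_rfl]; simp [h2]⟩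

variable (G)

/-- position of a neighbour -/
noncomputable def ps (v u : Pt) : ℕ := sInf {j | G.nb v j = u}

/-- rotation around `v` -/
noncomputable def rg (v t : Pt) (r : ℕ) : Pt := G.nb v ((G.ps v t + r) % G.dg v)

/-- leftmost and rightmost descendants -/
def lr (b : Pt) : ℕ → ℤ
  | 0 => b.2
  | i + 1 => G.A (b.1 + i) (lr b i - 1)

def rr (b : Pt) : ℕ → ℤ
  | 0 => b.2
  | i + 1 => G.A (b.1 + i) (rr b i)

/-- the cone of descendants of `b`, widened by `w` on both sides -/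
def Cn (w : ℕ) (b v : Pt) : Prop :=
  b.1 ≤ v.1 ∧ G.lr b (v.1 - b.1) - w ≤ v.2 ∧ v.2 ≤ G.rr b (v.1 - b.1) + w

variable {G}

theorem ps_nb {v : Pt} (hv : 1 ≤ v.1) {j : ℕ} (hj : j < G.dg v) : G.ps v (G.nb v j) = j := by
  have h1 : G.ps v (G.nb v j) ≤ j := Nat.sInf_le rfl
  exact nb_inj hv (h1.trans_lt hj) hj (Nat.sInf_mem (s := {i | G.nb v i = G.nb v j}) ⟨j, rfl⟩)

theorem ps_spec {v u : Pt} (hv : 1 ≤ v.1) (h : G.Adj v u) :
    G.ps v u < G.dg v ∧ G.nb v (G.ps v u) = u := by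
  obtain ⟨j, hj, rfl⟩ := exists_nb h
  rw [ps_nb hv hj]
  exact ⟨hj, rfl⟩

theorem adj_rg {v : Pt} (hv : 1 ≤ v.1) (t : Pt) (r : ℕ) : G.Adj v (G.rg v t r) :=
  adj_nb hv (Nat.mod_lt _ (by have := G.seven_le v; omega))

end Grid

/-- a grid drawn on a triangulation -/
structure Emb {V : Type} (G : Grid) (T : PlaneTri V) where
  O : V
  π : Pt → V
  h6 : ∀ v, 6 ≤ T.deg v
  deg : ∀ v : Pt, 1 ≤ v.1 → T.deg (π v) = G.dg v
  adj0 : ∀ v : Pt, 1 ≤ v.1 → T.G.Adj (π v) (π (G.nb v 0))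
  rot : ∀ v : Pt, 1 ≤ v.1 → ∀ j < G.dg v, T.rot (π v) (π (G.nb v 0)) j = π (G.nb v j)
  lev : ∀ v : Pt, T.d O (π v) = v.1 + 1
  inj : ∀ u v, G.Cn 1 (0, 0) u → G.Cn 1 (0, 0) v → π u = π v → u = v

end Pool.Agent.P.MP_e4ac67_pr.Gr
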