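import Pool.Agent.P.MP_e4ac67_pr.A.Wind

/-! Winding functions of simple cycles take two values. -/

namespace Pool.Agent.P.MP_e4ac67_pr
namespace PlaneTri
variable {V : Type} {T : PlaneTri V}

variable (T) in
/-- a simple cycle `f 0, ..., f m = f 0` -/
structure Cy (f : ℕ → V) (m : ℕ) : Prop where
  two : 2 ≤ m
  adj : ∀ i < m, T.G.Adj (f i) (f (i + 1))
  cl : f m = f 0
  inj : ∀ i < m, ∀ j < m, f i = f j → i = j

/-- the vertices of the cycle -/
def On (f : ℕ → V) (m : ℕ) (v : V) : Prop := ∃ i < m, f i = v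

variable (T) in
/-- a function on faces with values `0`, `1` -/
def Pos (n : V → V → ℤ) : Prop := ∀ a b, T.G.Adj a b → n a b = 0 ∨ n a b = 1

variable {f : ℕ → V} {m : ℕ} {n : V → V → ℤ}

theorem Cy.on (h : T.Cy f m) {i : ℕ} (hi : i ≤ m) : On f m (f i) := by
  rcases hi.lt_or_eq with hi | rfl
  · exact ⟨i, hi, rfl⟩
  · exact ⟨0, by have := h.two; omega, h.cl.symm⟩

theorem Cy.inj' (h : T.Cy f m) {i j : ℕ} (hi : i < m) (hj : j < m) (e : f (i + 1) = f (j + 1)) :
    i = j := by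
  have := h.two
  by_cases h1 : i + 1 = m <;> by_cases h2 : j + 1 = m
  · omega
  · rw [h1, h.cl] at e
    have := h.inj 0 (by omega) _ (by omega) e; omega
  · rw [h2, h.cl] at e
    have := h.inj _ (by omega) 0 (by omega) e; omega
  · have := h.inj _ (by omega) _ (by omega) e; omega

theorem Cy.pc_off (h : T.Cy f m) {v : V} (hv : ¬On f m v) (w : V) : pc f 0 m v w = 0 := by
  refine Finset.sum_eq_zero fun i hi => ?_
  have hi := (Finset.mem_Ico.1 hi).2
  have h1 : f i ≠ v := fun e => hv (e ▸ h.on hi.le)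
  have h2 : f (i + 1) ≠ v := fun e => hv (e ▸ h.on hi)
  simp [dd, h1, h2]

open Classical in
/-- the chain at a vertex of the cycle with successor `f (i+1)` and predecessor `f j` -/
theorem Cy.pc_at (h : T.Cy f m) {i j : ℕ} (hi : i < m) (hj : j < m) (e : f (j + 1) = f i) (w : V) :
    pc f 0 m (f i) w = (if f (i + 1) = w then 1 else 0) - if f j = w then 1 else 0 := by
  unfold pc dd
  rw [Finset.sum_sub_distrib, Finset.sum_eq_single i, Finset.sum_eq_single j]
  · simp [e]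
  · intro l hl hlj
    rw [if_neg]
    rintro ⟨-, e'⟩
    by_cases h0 : l + 1 = m
    · exact hlj (h.inj' (by omega) hj (by rw [e', e]))
    · exact hlj (h.inj' (Finset.mem_Ico.1 hl).2 hj (by rw [e', e]))
  · intro hh; exact absurd (Finset.mem_Ico.2 ⟨Nat.zero_le _, hj⟩) hh
  · intro l hl hli
    rw [if_neg]
    rintro ⟨e', -⟩
    exact hli (h.inj _ (Finset.mem_Ico.1 hl).2 _ hi e')
  · intro hh; exact absurd (Finset.mem_Ico.2 ⟨Nat.zero_le _, hi⟩) hh

theorem Cy.exists_prev (h : T.Cy f m) {i : ℕ} (hi : i < m) : ∃ j < m, f (j + 1) = f i := by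
  rcases Nat.eq_zero_or_pos i with rfl | h0
  · exact ⟨m - 1, by omega, by rw [show m - 1 + 1 = m by omega, h.cl]⟩
  · exact ⟨i - 1, by omega, by rw [show i - 1 + 1 = i by omega]⟩

theorem Cy.next_ne_prev (h : T.Cy f m) (h3 : 3 ≤ m) {i j : ℕ} (hi : i < m) (hj : j < m)
    (e : f (j + 1) = f i) : f (i + 1) ≠ f j := by
  intro e'
  by_cases h1 : j + 1 = m <;> by_cases h2 : i + 1 = m
  · have : i = j := by omega
    subst this
    exact (h.adj i hi).ne e.symm
  · rw [h1, h.cl] at e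
    have := h.inj 0 (by omega) _ hi e
    have := h.inj _ (by omega) _ hj e'
    omega
  · rw [h2, h.cl] at e'
    have := h.inj 0 (by omega) _ hj e'
    have := h.inj _ (by omega) _ hi e
    omega
  · have := h.inj _ (by omega) _ hj e'
    have := h.inj _ (by omega) _ hi e
    omega

/-- constant values around a vertex between two jumps -/
theorem Wn.rot_const {c : V → V → ℤ} (h : T.Wn n c) {v w : V} (hvw : T.G.Adj v w) {s t : ℕ}
    (hst : s ≤ t) (hc : ∀ j, s < j → j ≤ t → c v (T.rot v w j) = 0) :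
    n v (T.rot v w t) = n v (T.rot v w s) := by
  induction t, hst using Nat.le_induction with
  | base => rfl
  | succ t ht ih =>
    rw [rot_succ, h.step (adj_rot hvw t), ← rot_succ, hc _ (by omega) le_rfl, add_zero,
      ih fun j h1 h2 => hc j h1 (by omega)]

theorem Wn.off (h : T.Cy f m) (hn : T.Wn n (pc f 0 m)) {v : V} (hv : ¬On f m v) {w w' : V}
    (hw : T.G.Adj v w) (hw' : T.G.Adj v w') : n v w' = n v w ∧ n w v = n v w := by
  obtain ⟨j, -, rfl⟩ := rot_surj hw hw'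
  refine ⟨hn.rot_const hw (Nat.zero_le j) fun _ _ _ => h.pc_off hv _, ?_⟩
  have := hn.bd _ _ hw
  rw [h.pc_off hv] at this
  omega

/-- the values around a vertex of the cycle -/
theorem Wn.corner (h : T.Cy f m) (h3 : 3 ≤ m) (hn : T.Wn n (pc f 0 m)) {i j : ℕ} (hi : i < m)
    (hj : j < m) (e : f (j + 1) = f i) {s : ℕ} (hs : s < T.deg (f i)) :
    0 < T.pos (f i) (f (i + 1)) (f j) ∧ n (f i) (T.rot (f i) (f (i + 1)) s) =
      if s < T.pos (f i) (f (i + 1)) (f j) then n (f i) (f (i + 1))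
      else n (f i) (f (i + 1)) - 1 := by
  have ha := h.adj i hi
  have hb : T.G.Adj (f i) (f j) := e ▸ (h.adj j hj).symm
  have hne := h.next_ne_prev h3 hi hj e
  have hp := pos_lt ha hb
  have hr := rot_pos ha hb
  set α := T.pos (f i) (f (i + 1)) (f j)
  have h0 : 0 < α := Nat.pos_of_ne_zero fun e0 => hne (by rw [← hr, e0, rot_zero])
  have hz : ∀ l, 0 < l → l < T.deg (f i) → l ≠ α → pc f 0 m (f i) (T.rot (f i) (f (i + 1)) l) = 0 := by
    intro l h1 h2 h4
    rw [h.pc_at hi hj e, if_neg, if_neg, sub_zero]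
    · rw [← hr]; exact fun e' => h4 (rot_inj ha h2 hp e'.symm)
    · exact fun e' => by have := rot_inj ha (i := 0) (by omega) h2 e'; omega
  refine ⟨h0, ?_⟩
  split_ifs with h1
  · exact hn.rot_const ha (Nat.zero_le s) fun l h2 h4 => hz l h2 (by omega) (by omega)
  · rw [hn.rot_const ha (not_lt.1 h1) fun l h2 h4 => hz l (by omega) (by omega) (by omega)]
    obtain ⟨β, hβ⟩ : ∃ β, α = β + 1 := ⟨α - 1, by omega⟩
    rw [hβ, rot_succ, hn.step (adj_rot ha β), ← rot_succ, ← hβ, hr, h.pc_at hi hj e, if_neg hne,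
      if_pos rfl, hn.rot_const ha (Nat.zero_le β) fun l h2 h4 => hz l h2 (by omega) (by omega)]
    rfl

theorem Wn.right (h : T.Cy f m) (h3 : 3 ≤ m) (hn : T.Wn n (pc f 0 m)) {i : ℕ} (hi : i < m) :
    n (f (i + 1)) (f i) = n (f i) (f (i + 1)) - 1 := by
  obtain ⟨j, hj, e⟩ := h.exists_prev hi
  have := hn.bd _ _ (h.adj i hi)
  rw [h.pc_at hi hj e, if_pos rfl, if_neg (h.next_ne_prev h3 hi hj e).symm] at this
  omega

theorem Wn.left (h : T.Cy f m) (h3 : 3 ≤ m) (hn : T.Wn n (pc f 0 m)) {i : ℕ} (hi : i < m) :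
    n (f i) (f (i + 1)) = n (f 0) (f 1) := by
  induction i with
  | zero => rfl
  | succ i ih =>
    have ha := h.adj _ hi
    have hb := (h.adj i (by omega)).symm
    have h1 := (hn.corner h h3 hi (j := i) (by omega) rfl (pos_lt ha hb)).2
    rw [if_neg (lt_irrefl _), rot_pos ha hb, hn.right h h3 (by omega)] at h1
    rw [← ih (by omega)]
    omega

theorem Wn.values (h : T.Cy f m) (h3 : 3 ≤ m) (hn : T.Wn n (pc f 0 m)) {a b : V}
    (hab : T.G.Adj a b) : n a b = n (f 0) (f 1) ∨ n a b = n (f 0) (f 1) - 1 := by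
  refine dart_ind (P := fun a b => n a b = n (f 0) (f 1) ∨ n a b = n (f 0) (f 1) - 1)
    (fun a b h1 h2 => by rwa [hn.face a b h1]) (fun a b h1 _h2 => ?_) (h.adj 0 (by omega))
    (Or.inl rfl) hab
  by_cases hb : On f m b
  · obtain ⟨i, hi, rfl⟩ := hb
    obtain ⟨j, hj, e⟩ := h.exists_prev hi
    obtain ⟨s, hs, rfl⟩ := rot_surj (h.adj i hi) h1.symm
    rw [(hn.corner h h3 hi hj e hs).2, hn.left h h3 hi]
    split_ifs <;> simp
  · rwa [← (hn.off h hb h1.symm h1.symm).2]

/-- the two orientations of a simple cycle -/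
theorem Wn.jordan (h6 : ∀ v, 6 ≤ T.deg v) (h : T.Cy f m) (h3 : 3 ≤ m) (hn : T.Wn n (pc f 0 m)) :
    (n (f 0) (f 1) = 1 ∧ T.Pos n) ∨ (n (f 0) (f 1) = 0 ∧ T.Pos fun a b => -n a b) := by
  obtain ⟨x, y, hxy, e⟩ := hn.exists_zero h6
  rcases hn.values h h3 hxy with h1 | h1
  · refine Or.inr ⟨by omega, fun a b hab => ?_⟩
    have := hn.values h h3 hab
    beta_reduce
    omega
  · refine Or.inl ⟨by omega, fun a b hab => ?_⟩
    have := hn.values h h3 hab
    omega

theorem Wn.two (h6 : ∀ v, 6 ≤ T.deg v) (h : T.Cy f 2) (hn : T.Wn n (pc f 0 2)) {a b : V}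
    (hab : T.G.Adj a b) : n a b = 0 := by
  refine hn.unique h6 (Wn.zero.congr fun x y => ?_) hab
  rw [pc_succ f (by omega), pc_one, h.cl, dd_rev (f 0) (f 1)]
  simp

theorem Wn.left_one (h6 : ∀ v, 6 ≤ T.deg v) (h : T.Cy f m) (h3 : 3 ≤ m) (hn : T.Wn n (pc f 0 m))
    (hp : T.Pos n) {i : ℕ} (hi : i < m) : n (f i) (f (i + 1)) = 1 := by
  have h1 := hp _ _ (h.adj i hi)
  have h2 := hp _ _ (h.adj i hi).symm
  have := hn.right h h3 hi
  have _ := h6
  omega

/-- every winding function of a simple cycle is at most one -/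
theorem Wn.le_one (h6 : ∀ v, 6 ≤ T.deg v) (h : T.Cy f m) (hn : T.Wn n (pc f 0 m)) {a b : V}
    (hab : T.G.Adj a b) : n a b ≤ 1 := by
  rcases h.two.lt_or_eq with h3 | rfl
  · rcases hn.jordan h6 h h3 with h1 | h1
    · have := h1.2 a b hab; omega
    · have := h1.2 a b hab
      beta_reduce at this
      omega
  · rw [hn.two h6 h hab]; omega

/-- a simple cycle is positive unless the right side of its first dart has value `-1` -/
theorem Wn.pos_of (h6 : ∀ v, 6 ≤ T.deg v) (h : T.Cy f m) (hn : T.Wn n (pc f 0 m)) {i : ℕ}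
    (hi : i < m) (h0 : 0 ≤ n (f (i + 1)) (f i)) : T.Pos n := by
  rcases h.two.lt_or_eq with h3 | rfl
  · rcases hn.jordan h6 h h3 with h1 | h1
    · exact h1.2
    · have := hn.right h h3 hi
      have := hn.left h h3 hi
      omega
  · exact fun a b hab => Or.inl (hn.two h6 h hab)

end PlaneTri
end Pool.Agent.P.MP_e4ac67_pr
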