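import Pool.Agent.P.MP_e4ac67_pr.A.GDef
import Pool.Agent.P.MP_e4ac67_pr.Geo

/-! Every triangulation with degrees at least seven carries a grid. -/

namespace Pool.Agent.P.MP_e4ac67_pr.Gr
open Node

def cum (g : ℤ → ℕ) (x : ℤ) : ℤ :=
  (∑ i ∈ Finset.range x.toNat, (g (i + 1) : ℤ)) - ∑ i ∈ Finset.range (-x).toNat, (g (-i) : ℤ)

theorem cum_step (g : ℤ → ℕ) (x : ℤ) : cum g x = cum g (x - 1) + g x := by
  unfold cum
  rcases lt_or_ge 0 x with h | h
  · obtain ⟨m, rfl⟩ : ∃ m : ℕ, x = m + 1 := ⟨(x - 1).toNat, by omega⟩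
    rw [show ((m : ℤ) + 1).toNat = m + 1 by omega, show ((m : ℤ) + 1 - 1).toNat = m by omega,
      show (-((m : ℤ) + 1)).toNat = 0 by omega, show (-((m : ℤ) + 1 - 1)).toNat = 0 by omega,
      Finset.sum_range_succ]
    ring
  · obtain ⟨m, rfl⟩ : ∃ m : ℕ, x = -m := ⟨(-x).toNat, by omega⟩
    rw [show (-(m : ℤ)).toNat = 0 by omega, show (-(m : ℤ) - 1).toNat = 0 by omega,
      show (- -(m : ℤ)).toNat = m by omega, show (-(-(m : ℤ) - 1)).toNat = m + 1 by omega,
      Finset.sum_range_succ]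
    ring

variable (D : List ℕ → ℕ)

def gp (L : ℤ → List ℕ) (x : ℤ) : ℕ := D (L x) - 4 - tau D (L x)

noncomputable def lat : ℕ → ℤ → List ℕ
  | 0, x => [(x % D []).toNat]
  | n + 1, y => ((y - cum (gp D (lat n)) (lpOf (cum (gp D (lat n))) y - 1)).toNat + 2) ::
      lat n (lpOf (cum (gp D (lat n))) y)

noncomputable def lA (n : ℕ) : ℤ → ℤ := cum (gp D (lat D n))

variable {D}

theorem lat_ne (n : ℕ) (x : ℤ) : lat D n x ≠ [] := by cases n <;> simp [lat]

theorem lat_len (n : ℕ) (x : ℤ) : (lat D n x).length = n + 1 := by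
  induction n generalizing x with
  | zero => simp [lat]
  | succ n ih => simp [lat, ih]

theorem lA_step (hD : ∀ w, 7 ≤ D w) (n : ℕ) (x : ℤ) :
    lA D n x + 4 + tau D (lat D n x) = lA D n (x - 1) + D (lat D n x) := by
  have h1 := cum_step (gp D (lat D n)) x
  have h2 := hD (lat D n x)
  have h3 := tau_le (D := D) (lat D n x)
  unfold lA
  unfold gp at h1 ⊢
  omega

theorem lA_lt (hD : ∀ w, 7 ≤ D w) (n : ℕ) (x : ℤ) : lA D n (x - 1) < lA D n x := by
  have h1 := lA_step hD n x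
  have h2 := hD (lat D n x)
  have h3 := tau_le (D := D) (lat D n x)
  omega

theorem lat_succ (hD : ∀ w, 7 ≤ D w) {n : ℕ} {x y : ℤ} (h1 : lA D n (x - 1) < y)
    (h2 : y ≤ lA D n x) : lat D (n + 1) y = ((y - lA D n (x - 1)).toNat + 2) :: lat D n x := by
  have := lpOf_eq (lA_lt hD n) h1 h2
  unfold lA at this ⊢
  rw [lat, this]

theorem lat_valid (hD : ∀ w, 7 ≤ D w) (n : ℕ) (x : ℤ) : Valid D (lat D n x) := by
  induction n generalizing x with
  | zero =>
    have h := hD []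
    have h1 := Int.emod_lt_of_pos x (show (0 : ℤ) < D [] by omega)
    exact valid_single (by omega)
  | succ n ih =>
    obtain ⟨h1, h2⟩ := lpOf_spec (lA_lt hD n) x
    have h3 := lA_step hD n (lpOf (lA D n) x)
    rw [lat_succ hD h1 h2]
    exact valid_cons (ih _) (lat_ne _ _) (by omega) (by omega)

theorem succ_lat (hD : ∀ w, 7 ≤ D w) (n : ℕ) (x : ℤ) :
    succ D (lat D n x) = lat D n (x + 1) := by
  induction n generalizing x with
  | zero =>
    have h := hD []
    have h1 := Int.emod_nonneg x (show (D [] : ℤ) ≠ 0 by omega)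
    have h2 := Int.emod_nonneg (x + 1) (show (D [] : ℤ) ≠ 0 by omega)
    simp only [lat, succ, if_true, List.cons.injEq, and_true]
    zify
    rw [Int.toNat_of_nonneg h1, Int.toNat_of_nonneg h2, Int.emod_add_emod]
  | succ n ih =>
    obtain ⟨h1, h2⟩ := lpOf_spec (lA_lt hD n) x
    generalize lpOf (lA D n) x = m at h1 h2
    have h3 := lA_step hD n m
    have h4 := lA_lt hD n (m + 1)
    rw [add_sub_cancel_right] at h4
    rw [lat_succ hD h1 h2, succ, if_neg (lat_ne _ _)]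
    split_ifs with h5
    · rw [ih, lat_succ hD (x := m + 1) (by rw [add_sub_cancel_right]; omega) (by omega),
        add_sub_cancel_right]
      congr 1; omega
    · rw [lat_succ hD (x := m) (by omega) (by omega)]
      congr 1; omega

theorem pred_lat (hD : ∀ w, 7 ≤ D w) (n : ℕ) (x : ℤ) :
    pred D (lat D n x) = lat D n (x - 1) := by
  have := pred_succ (fun w => (hD w).trans' (by omega)) (lat_valid hD n (x - 1))
  rwa [succ_lat hD, sub_add_cancel] at this

theorem tau_lat (hD : ∀ w, 7 ≤ D w) (n : ℕ) (x : ℤ) :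
    tau D (lat D n x) = 1 ↔ Two (lA D) n x := by
  cases n with
  | zero => simp [lat, tau, Two]
  | succ n =>
    obtain ⟨h1, h2⟩ := lpOf_spec (lA_lt hD n) x
    have h0 := fun m => lpOf_eq (lA_lt hD n) (lA_lt hD n m) le_rfl
    have h3 := lA_step hD n (lpOf (lA D n) x)
    rw [lat_succ hD h1 h2, tau]
    constructor
    · intro h
      rw [ite_eq_left_iff] at h
      exact ⟨lpOf (lA D n) x, by have := (not_not.1 fun e => absurd (h e) (by omega)).2; omega⟩
    · rintro ⟨m, rfl⟩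
      rw [h0] at h3 ⊢
      exact if_pos ⟨lat_ne _ _, by have := lA_lt hD n m; omega⟩

noncomputable def latG (hD : ∀ w, 7 ≤ D w) : Grid where
  A := lA D
  gap2 n m := by
    have := lA_step hD n m; have := hD (lat D n m); have := tau_le (D := D) (lat D n m); omega
  gap3 n m h := by
    have := lA_step hD n m; have := hD (lat D n m); have := tau_le (D := D) (lat D n m)
    have := mt (tau_lat hD n m).1 h
    omega

theorem latG_A (hD : ∀ w, 7 ≤ D w) : (latG hD).A = lA D := rfl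

theorem latG_tau (hD : ∀ w, 7 ≤ D w) (v : Pt) : (latG hD).tau v = tau D (lat D v.1 v.2) := by
  have h1 := tau_lat hD v.1 v.2
  have := tau_le (D := D) (lat D v.1 v.2)
  unfold Grid.tau
  split_ifs with h
  · exact (h1.2 h).symm
  · have := mt h1.1 h; omega

theorem latG_dg (hD : ∀ w, 7 ≤ D w) (v : Pt) : (latG hD).dg v = D (lat D v.1 v.2) := by
  have h1 := lA_step hD v.1 v.2
  have h2 := (latG hD).gap_eq v
  unfold Grid.dg
  rw [latG_tau]
  rw [latG_A] at h2
  omega

theorem nb_lat (hD : ∀ w, 7 ≤ D w) {v : Pt} (hv : 1 ≤ v.1) {j : ℕ} (hj : j < (latG hD).dg v) :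
    nb D (lat D v.1 v.2) j = lat D ((latG hD).nb v j).1 ((latG hD).nb v j).2 := by
  have h6 : ∀ w, 6 ≤ D w := fun w => (hD w).trans' (by omega)
  have h1 := latG_dg hD v
  have h2 := latG_tau hD v
  have h3 := (latG hD).gap_eq v
  obtain ⟨n, y⟩ := v
  obtain ⟨n, rfl⟩ : ∃ m, n = m + 1 := ⟨n - 1, by simp at hv; omega⟩
  have h0 := lat_ne (D := D) (n + 1) y
  have ht : (lat D (n + 1) y).tail = lat D n ((latG hD).lp n y) := rfl
  have h4 := tau_le (D := D) (lat D (n + 1) y)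
  unfold Grid.dg at h1 hj
  rw [latG_A] at h3
  rcases Grid.nb_cases (G := latG hD) (n + 1, y) j with
    ⟨h, e⟩ | ⟨h, e⟩ | ⟨h, h', e⟩ | ⟨h, e⟩ | ⟨h, e⟩ <;> rw [e] <;> simp only at h1 h2 h3 ⊢
  · rw [h, nb_zero h0, ht]; rfl
  · rw [h, nb_one h0, pred_lat hD]
  · rcases h.lt_or_eq with h | rfl
    · rw [nb_child h0 h (by omega)]
      rw [latG_A, lat_succ hD (n := n + 1) (x := y) (by omega) (by omega)]
      congr 1; omega
    · have h5 := lA_step hD (n + 1) (y - 1)
      have h6 := lA_lt hD (n + 1) (y - 1)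
      rw [nb_two h0, pred_lat hD]
      rw [latG_A, lat_succ hD (n := n + 1) (x := y - 1) (by omega) (by omega), last]
      congr 1; omega
  · rw [nb_succ h6 h0 (by omega), succ_lat hD]
  · rw [nb_up h6 (by omega) (by omega), ht, succ_lat hD]; rfl

theorem lat_inj (hD : ∀ w, 7 ≤ D w) (n : ℕ) : ∀ x y, (latG hD).Cn 1 (0, 0) (n, x) →
    (latG hD).Cn 1 (0, 0) (n, y) → lat D n x = lat D n y → x = y := by
  induction n with
  | zero =>
    rintro x y ⟨-, h1, h2⟩ ⟨-, h3, h4⟩ e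
    have h := hD []
    simp only [lat, List.cons.injEq, and_true, Grid.lr, Grid.rr, Nat.sub_self] at *
    have h5 := Int.emod_nonneg x (show (D [] : ℤ) ≠ 0 by omega)
    have h6 := Int.emod_nonneg y (show (D [] : ℤ) ≠ 0 by omega)
    have h7 : (D [] : ℤ) ∣ x - y := Int.ModEq.dvd
      (show y ≡ x [ZMOD D []] by unfold Int.ModEq; omega)
    have := Int.eq_zero_of_abs_lt_dvd h7 (abs_lt.2 ⟨by omega, by omega⟩)
    omega
  | succ n ih =>
    have key : ∀ x, (latG hD).Cn 1 (0, 0) (n + 1, x) →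
        (latG hD).Cn 1 (0, 0) (n, lpOf (lA D n) x) := by
      rintro x ⟨-, h1, h2⟩
      obtain ⟨h3, h4⟩ := lpOf_spec (lA_lt hD n) x
      simp only [Grid.lr, Grid.rr, Nat.sub_zero, zero_add, Grid.Cn] at *
      have a := (latG hD).gap2 n ((latG hD).lr (0, 0) n - 1)
      have b := (latG hD).gap2 n ((latG hD).rr (0, 0) n + 1)
      rw [add_sub_cancel_right] at b
      have c : (latG hD).lr (0, 0) n - 1 - 1 < lpOf (lA D n) x :=
        ((latG hD).A_lt n).lt_iff_lt.1 (by rw [latG_A] at *; omega)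
      have d : lpOf (lA D n) x - 1 < (latG hD).rr (0, 0) n + 1 :=
        ((latG hD).A_lt n).lt_iff_lt.1 (by rw [latG_A] at *; omega)
      omega
    intro x y hx hy e
    obtain ⟨h1, h2⟩ := lpOf_spec (lA_lt hD n) x
    obtain ⟨h3, h4⟩ := lpOf_spec (lA_lt hD n) y
    rw [lat_succ hD h1 h2, lat_succ hD h3 h4, List.cons.injEq] at e
    have := ih _ _ (key x hx) (key y hy) e.2
    rw [this] at e h1
    omega

theorem exists_emb {V : Type} (T : PlaneTri V) (h7 : ∀ v, 7 ≤ T.deg v) :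
    ∃ G : Grid, Nonempty (Emb G T) := by
  have h6 : ∀ v, 6 ≤ T.deg v := fun v => (h7 v).trans' (by omega)
  obtain ⟨o⟩ := T.conn.nonempty
  obtain ⟨r, ν, M⟩ := PlaneTri.exists_geoMod' h6 o
  have hD : ∀ w, 7 ≤ T.nD o r w := fun w => h7 _
  have h0 : ∀ v : Pt, 1 ≤ v.1 → (T.pj o r (lat (T.nD o r) v.1 v.2)).2 =
      (T.pj o r (lat (T.nD o r) ((latG hD).nb v 0).1 ((latG hD).nb v 0).2)).1 := by
    rintro ⟨_ | n, y⟩ hv
    · simp at hv
    · rfl
  refine ⟨latG hD, ⟨⟨o, fun v => (T.pj o r (lat (T.nD o r) v.1 v.2)).1, h6,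
    fun v _ => (latG_dg hD v).symm, fun v hv => h0 v hv ▸ PlaneTri.adj_pj M.adj _,
    fun v hv j hj => ?_, fun v => by rw [M.d_pj (lat_valid hD _ _), lat_len], fun u v hu hv e => ?_⟩⟩⟩
  · rw [← h0 v hv, ← nb_lat hD hv hj,
      PlaneTri.pj_nb h6 M.adj (lat_valid hD _ _) (latG_dg hD v ▸ hj)]
  · have e1 := congrArg ν e
    rw [M.nu_pj _ (lat_valid hD _ _), M.nu_pj _ (lat_valid hD _ _)] at e1
    have e2 := congrArg List.length e1
    rw [lat_len, lat_len] at e2
    obtain ⟨n, x⟩ := u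
    obtain ⟨m, y⟩ := v
    obtain rfl : n = m := by simpa using e2
    rw [lat_inj hD n x y hu hv e1]

end Pool.Agent.P.MP_e4ac67_pr.Gr
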