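import Pool.Agent.P.MP_e4ac67_pr.A.GDef

/-! Tubes, sides, the stop rule, blocks, letters and marked arcs. Words are lists of grid points
read backwards: the head is the newest vertex. -/

namespace Pool.Agent.P.MP_e4ac67_pr.Gr
namespace Grid
variable (G : Grid)

/-- `z` and its ancestors -/
inductive Anc (z : Pt) : Pt → Prop
  | base : Anc z z
  | step {v u : Pt} : Anc z v → v.1 = u.1 + 1 → G.Ch u.1 u.2 v.2 → Anc z u

/-- what the topological part needs from the tube `W` and the position `c z` of the bonus vertex -/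
structure TubeOK (W : Pt → Pt → Prop) (c : Pt → ℕ) : Prop where
  cp : ∀ z, c z = 3 ∨ c z = 4
  anc : ∀ z v, G.Anc z v → v ≠ z → W z v
  lev : ∀ z v, W z v → v.1 ≤ z.1 ∧ v ≠ z
  two : ∀ z, G.tau z = 0 → W z (G.nb z 1) ∨ W z (G.nb z (G.gap z + 3))

/-- the chain of left parents -/
noncomputable def an (z : Pt) : ℕ → ℤ
  | 0 => z.2
  | i + 1 => G.lp (z.1 - (i + 1)) (an z i)

/-- `v` is on the right of the tube of `z` and of the cut on the left of the link vertex `g` -/
def Rt (z : Pt) (g : ℕ) (v : Pt) : Prop :=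
  if v.1 ≤ z.1 then G.an z (z.1 - v.1) < v.2 else G.lr (G.nb z g) (v.1 - (z.1 + 1)) ≤ v.2

/-- the real domain -/
def Hm (o : Pt) (N : ℕ) (v : Pt) : Prop := G.Cn 0 o v ∧ v.1 ≤ o.1 + N

variable (W : Pt → Pt → Prop) (c : Pt → ℕ) (k : ℕ)

def Wz (z v : Pt) : Prop := v = z ∨ W z v

open Classical in
/-- the part of a word after its last vertex in the tube -/
noncomputable def itr (z : Pt) (w : List Pt) : List Pt := w.takeWhile fun v => decide ¬Wz W z v

open Classical in
/-- the last vertex of a word in the tube -/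
noncomputable def bas (z : Pt) (w : List Pt) : Pt :=
  (w.dropWhile fun v => decide ¬Wz W z v).headD z

/-- the dart from the head of `w` to `y` violates the rule of `z` -/
def Viol (z : Pt) (w : List Pt) (y : Pt) : Prop :=
  ∃ x f, (itr W z w).head? = some x ∧ (itr W z w).getLast? = some f ∧
    ((y = z ∧ z ∉ w ∧ ((¬G.Rt z (c z) f ∧ c z < G.ps z x) ∨
        (G.Rt z (c z) f ∧ (G.ps z x < c z ∨ G.ps z x + k ≤ G.dg z + 1)))) ∨
      (W z y ∧ ¬(bas W z w = z ∧ f = G.nb z (c z)) ∧ ¬(G.Rt z (c z) f ↔ G.Rt z (c z) x)))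

open Classical in
/-- first omitted position at `z` when `z` is reached from the word `w` (head = tail of `z`) -/
noncomputable def blk (z : Pt) (w : List Pt) : ℕ :=
  if G.ps z (w.headD z) = c z ∧ ∃ f, (itr W z w).getLast? = some f ∧ ¬G.Rt z (c z) f then c z + 1
  else if G.ps z (w.headD z) < c z ∨ G.dg z + c z ≤ G.ps z (w.headD z) + k then c z
  else G.ps z (w.headD z) + k - G.dg z

/-- the real neighbour of `z` read by the letter `a` (`1 ≤ a < k`) -/
noncomputable def hdr (z : Pt) (w : List Pt) (a : ℕ) : Pt :=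
  G.rg z (w.headD z) (if a < (G.blk W c k z w + G.dg z - G.ps z (w.headD z)) % G.dg z then a
    else a + (G.dg z - k))

/-- `u` with image `u'` is read from `z` (reached from the word `w`) by a letter -/
def Stp {V' : Type} (T' : PlaneTri V') (ψ : Pt → V') (z : Pt) (w : List Pt) (u : Pt) (u' : V') :
    Prop :=
  ∃ a, 1 ≤ a ∧ a < k ∧ u = G.hdr W c k z w a ∧ u' = T'.rot (ψ z) (ψ (w.headD z)) a

open Classical in
noncomputable def lo (z bL f : Pt) : ℕ :=
  if bL = z then G.ps z f else if W z (G.nb z 1) then 1 else 0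

open Classical in
noncomputable def hi (z bR l : Pt) : ℕ :=
  if bR = z then G.ps z l else if W z (G.nb z (G.gap z + 3)) then G.gap z + 3 else G.gap z + 4

/-- position `gap + 4` is the rightmost parent also when there is one parent -/
noncomputable def lk (z : Pt) (i : ℕ) : Pt := G.nb z (i % G.dg z)

/-- The marked arc `bL, IL reversed, IR, bR` goes from left to right below `z`; the mark is
between the heads of `IL ++ [bL]` and `IR ++ [bR]`; `f`, `l` are its first and last inner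
vertices. -/
structure Cross (z : Pt) (IL IR : List Pt) (f l : Pt) : Prop where
  fst : (IL.reverse ++ IR).head? = some f
  lst : (IL.reverse ++ IR).getLast? = some l
  left : ¬G.Rt z (c z) f
  right : G.Rt z (c z + 1) l

/-- some link vertex is skipped (in the pocket of the mark when the excess is one) -/
def Pocket (z bL : Pt) (IL IR : List Pt) (bR : Pt) (lo hi : ℕ) : Prop :=
  ∃ i, lo < i ∧ i < hi ∧ G.lk z i ∉ IL ∧ G.lk z i ∉ IR ∧
    (G.dg z = k + 1 → (G.lk z (i + 1) ∈ IL → bR = z ∧ IR = [] ∧ i + 1 = hi) ∧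
      (G.lk z (i - 1) ∈ IR → bL = z ∧ IL = [] ∧ i = lo + 1) ∧
      ¬(G.lk z (i - 1) ∈ bL :: IL ∧ G.rg (G.lk z i) z 2 ∈ IL ∧ G.lk z (i + 1) ∈ bR :: IR ∧
        G.rg (G.lk z i) z (G.dg (G.lk z i) - 2) ∈ IR))

/-- the mark comes before the link of `z` -/
def AltL (z bL : Pt) (IL : List Pt) (bR : Pt) (lo hi : ℕ) : Prop :=
  bL ≠ z ∧ bL ≠ G.lk z lo ∧ G.lk z (lo + 1) ∉ IL ∧ (G.dg z = k + 1 → G.lk z (lo + 2) ∉ IL ∧
    (bR = z → ∀ i, lo < i → i < hi → G.lk z i ∉ IL))

/-- the mark comes after the link of `z` -/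
def AltR (z bL : Pt) (IR : List Pt) (bR : Pt) (lo hi : ℕ) : Prop :=
  bR ≠ z ∧ bR ≠ G.lk z hi ∧ G.lk z (hi - 1) ∉ IR ∧ (G.dg z = k + 1 → G.lk z (hi - 2) ∉ IR ∧
    (bL = z → ∀ i, lo < i → i < hi → G.lk z i ∉ IR))

/-- `z` is the top, or it lies on the word `R` beyond the stem and the last arc of the word of `z`
avoids the other part `I` of the marked arc and does not end through `lo, ..., hi` -/
def Far (z : Pt) (R stem I : List Pt) (lo hi : ℕ) : Prop :=
  stem.head? = some z ∨ ∃ w, z :: w <:+ R ∧ stem <:+ w ∧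
    (∀ v ∈ itr W z w, v ∉ I) ∧ ∀ i, lo ≤ i → i ≤ hi → w.head? ≠ some (G.lk z i)

/-- the link vertices of `z` at the positions `a, ..., b` lying in `I` have images next to `ψ z` -/
def Near {V' : Type} (T' : PlaneTri V') (ψ : Pt → V') (z : Pt) (I : List Pt) (a b : ℕ) : Prop :=
  ∀ i, a ≤ i → i ≤ b → G.lk z i ∈ I → T'.G.Adj (ψ z) (ψ (G.lk z i))

/-- the output of the topological lemma for the words `L` (left part) and `R` (right part) -/
def MArc {V' : Type} (T' : PlaneTri V') (ψ : Pt → V') (z : Pt) (L R stem : List Pt) : Prop :=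
  ∃ f l lo hi, lo = G.lo W z (bas W z L) f ∧ hi = G.hi W z (bas W z R) l ∧
    G.Cross c z (itr W z L) (itr W z R) f l ∧ (∀ v ∈ itr W z L, v ∉ itr W z R) ∧
    (bas W z R = z → G.Near T' ψ z (itr W z R) (c z) hi) ∧
    (bas W z L = z → G.Near T' ψ z (itr W z L) lo (c z)) ∧
    (G.Pocket k z (bas W z L) (itr W z L) (itr W z R) (bas W z R) lo hi ∨
     (G.AltL k z (bas W z L) (itr W z L) (bas W z R) lo hi ∧ (bas W z R = z →
        G.Far W z R stem (itr W z L) lo hi ∧ G.lk z lo ∉ L ++ R ∧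
          G.Near T' ψ z (itr W z R) lo hi)) ∨
     (G.AltR k z (bas W z L) (itr W z R) (bas W z R) lo hi ∧ (bas W z L = z →
        G.Far W z L stem (itr W z R) lo hi ∧ G.lk z hi ∉ L ++ R ∧
          G.Near T' ψ z (itr W z L) lo hi)))

/-- a branch `B` (head = newest) grown by letters on the stem `top :: st` -/
structure Br {V' : Type} (T' : PlaneTri V') (ψ : Pt → V') (o : Pt) (N : ℕ)
    (B : List Pt) (top : Pt) (st : List Pt) : Prop where
  real : ∀ v ∈ B, G.Hm o N v
  ch : (B ++ top :: st).IsChain G.Adj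
  ch' : (B ++ [top]).IsChain fun u v => T'.G.Adj (ψ u) (ψ v)
  rule : ∀ z, G.Hm o N z → k < G.dg z → ∀ v w, v :: w <:+ B ++ top :: st → top :: st <:+ w →
    v ≠ z ∨ v :: w ≠ B ++ top :: st → ¬G.Viol W c k z w v
  step : ∀ u v w, u :: v :: w <:+ B ++ top :: st → top :: st <:+ w → G.Stp W c k T' ψ v w u (ψ u)

/-- Two branches `P`, `Q` on a common stem, closed by an edge. -/
structure Fail {V' : Type} (T' : PlaneTri V') (ψ : Pt → V') (o : Pt) (N : ℕ)
    (P Q : List Pt) (top : Pt) (st : List Pt) : Prop where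
  root : 2 ≤ o.1 ∧ G.Cn 0 (0, 0) o
  last : st.getLast? = some (G.nb o 0)
  dom : ∀ v ∈ st, (G.Cn 0 (0, 0) v ∧ o.1 ≤ v.1) ∨ v = G.nb o 0
  real : G.Hm o N top
  nodup : (P ++ Q ++ top :: st).Nodup
  brP : G.Br W c k T' ψ o N P top st
  brQ : G.Br W c k T' ψ o N Q top st
  three : 2 ≤ P.length + Q.length
  close : G.Adj (P.headD top) (Q.headD top)
  inj : ∀ u ∈ P ++ Q ++ [top], ∀ v ∈ P ++ Q ++ [top], ψ u = ψ v → u = v
  top : ∀ u v, P.getLast? = some u → Q.getLast? = some v →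
    (T'.G.Adj (ψ top) (ψ (st.headD top)) ∧ G.Stp W c k T' ψ top st u (ψ u) ∧
      G.Stp W c k T' ψ top st v (ψ v) ∧ (k < G.dg top → ¬G.Viol W c k top st top)) ∨
    (v = G.rg top u 1 ∧ ψ v = T'.nx (ψ top) (ψ u)) ∨ (u = G.rg top v 1 ∧ ψ u = T'.nx (ψ top) (ψ v))

/-- The closing edge has no image: it is read by a letter at the head of `P` with a new image,
or the images of its ends are not adjacent. -/
def Mode {V' : Type} (T' : PlaneTri V') (ψ : Pt → V') (P Q : List Pt) (top : Pt) (st : List Pt) :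
    Prop :=
  (∃ x B y', P = x :: B ∧ G.Stp W c k T' ψ x (B ++ top :: st) (Q.headD top) y' ∧
    (k < G.dg x → ¬G.Viol W c k x (B ++ top :: st) x) ∧ ∀ v ∈ P ++ Q ++ [top], ψ v ≠ y') ∨
    ¬T'.G.Adj (ψ (P.headD top)) (ψ (Q.headD top))

variable {G k} {z bL bR : Pt} {IL IR : List Pt} {lo hi : ℕ}

theorem AltL.visit (h : G.AltL k z bL IL bR lo hi) (hp : ¬G.Pocket k z bL IL IR bR lo hi)
    (h1 : lo + 1 < hi) (h2 : G.lk z lo ∉ IL) (h3 : G.lk z lo ∉ IR) : G.lk z (lo + 1) ∈ IR :=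
  by_contra fun e => hp ⟨lo + 1, by omega, h1, h.2.2.1, e, fun e' =>
    ⟨fun a => absurd a (h.2.2.2 e').1, fun a => absurd a h3,
      fun a => (List.mem_cons.1 a.1).elim (fun b => h.2.1 b.symm) h2⟩⟩

theorem AltR.visit (h : G.AltR k z bL IR bR lo hi) (hp : ¬G.Pocket k z bL IL IR bR lo hi)
    (h1 : lo + 1 < hi) (h2 : G.lk z hi ∉ IL) (h3 : G.lk z hi ∉ IR) : G.lk z (hi - 1) ∈ IL := by
  refine by_contra fun e => hp ⟨hi - 1, by omega, by omega, e, h.2.2.1, fun e' => ?_⟩
  rw [show hi - 1 + 1 = hi by omega]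
  exact ⟨fun a => absurd a h2, fun a => absurd a (h.2.2.2 e').1,
    fun a => (List.mem_cons.1 a.2.2.1).elim (fun b => h.2.1 b.symm) h3⟩

end Grid
end Pool.Agent.P.MP_e4ac67_pr.Gr
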