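import Pool.Agent.P.MP_e4ac67_pr.A.Dict

/-! The winding number of the face at a cut counts the crossings from left to right. -/

namespace Pool.Agent.P.MP_e4ac67_pr.Gr
open PlaneTri
namespace Grid
variable {G : Grid} {W : Pt → Pt → Prop} {c : Pt → ℕ} {z : Pt} {g : ℕ}

theorem rt_up {i : ℕ} {x : ℤ} : G.Rt z g (z.1 + 1 + i, x) ↔ G.lr (G.nb z g) i ≤ x := by
  rw [Rt, if_neg (by simp only; omega)]; simp

theorem rt_dn {n i : ℕ} {x : ℤ} (h : z.1 = n + i) : G.Rt z g (n, x) ↔ G.an z i < x := by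
  rw [Rt, if_pos (by simp only; omega), show z.1 - (n, x).1 = i by simp only; omega]

theorem an_succ {n i : ℕ} (h : z.1 = n + (i + 1)) : G.an z (i + 1) = G.lp n (G.an z i) := by
  rw [an, show z.1 - (i + 1) = n by omega]

theorem an_anc {n i : ℕ} (h : z.1 = n + i) : G.Anc z (n, G.an z i) := by
  induction i generalizing n with
  | zero => rw [show n = z.1 from h.symm]; exact .base
  | succ i ih =>
    have := G.lp_spec n (G.an z i)
    exact .step (ih (n := n + 1) (by omega)) rfl (an_succ h ▸ ⟨this.1.le, this.2⟩)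

theorem TubeOK.wz (hW : G.TubeOK W c) {v : Pt} (h : G.Anc z v) : Wz W z v :=
  or_iff_not_imp_left.2 (hW.anc z v h)

theorem TubeOK.wz_le (hW : G.TubeOK W c) {v : Pt} (h : Wz W z v) : v.1 ≤ z.1 := by
  rcases h with rfl | h
  exacts [le_rfl, (hW.lev _ _ h).1]

variable (G) in
/-- the two sides of the cut -/
noncomputable def la (z : Pt) (g i : ℕ) : Pt := (z.1 + 1 + i, G.lr (G.nb z g) i)
variable (G) in
noncomputable def mu (z : Pt) (g i : ℕ) : Pt := (z.1 + 1 + i, G.lr (G.nb z g) i - 1)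

theorem lr_cut (h3 : 3 ≤ g) (hg : g ≤ G.gap z + 2) (i : ℕ) : G.lr (G.nb z g) (i + 1) =
    G.A (z.1 + 1 + i) (G.lr (G.nb z g) i - 1) := by
  rw [lr, G.nb_ch z (by omega) hg]

theorem TubeOK.cross (hW : G.TubeOK W c) (h3 : 3 ≤ g) (hg : g ≤ G.gap z + 2) {u v : Pt}
    (h : G.Adj u v) (hu : ¬Wz W z u) (hv : ¬Wz W z v) (h1 : ¬G.Rt z g u) (h2 : G.Rt z g v) :
    ∃ i, u = G.mu z g i ∧ (v = G.la z g i ∨ v = G.la z g (i + 1)) := by
  obtain ⟨n, x⟩ := u
  obtain ⟨m, y⟩ := v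
  have e0 : G.lr (G.nb z g) 0 = G.A z.1 (z.2 - 1) + g - 2 := by rw [lr, G.nb_ch z (by omega) hg]
  have e1 := G.gap_eq z
  have ne : ∀ i, z.1 = n + i → x ≠ G.an z i := fun i e e' => hu (hW.wz (e' ▸ an_anc e))
  rw [adj_iff] at h
  simp only at h
  rcases h with ⟨rfl, h⟩ | ⟨rfl, h, h'⟩ | ⟨rfl, h, h'⟩
  · rcases le_or_gt m z.1 with e | e
    · obtain ⟨i, e⟩ := Nat.exists_eq_add_of_le e
      rw [rt_dn e] at h1 h2
      have := ne i e
      omega
    · obtain ⟨i, rfl⟩ := Nat.exists_eq_add_of_le (show z.1 + 1 ≤ m from e)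
      rw [rt_up] at h1 h2
      exact ⟨i, Prod.ext rfl (by simp only [mu]; omega),
        Or.inl (Prod.ext rfl (by simp only [la]; omega))⟩
  · rcases lt_trichotomy n z.1 with e | rfl | e
    · obtain ⟨i, e⟩ := Nat.exists_eq_add_of_le (show n + 1 ≤ z.1 from e)
      have e' : z.1 = n + (i + 1) := by omega
      have := ne _ e'
      rw [rt_dn e', an_succ e'] at h1
      rw [rt_dn e] at h2
      rw [an_succ e'] at this
      have := G.lp_spec n (G.an z i)
      have : G.A n x ≤ G.A n (G.lp n (G.an z i) - 1) := G.A_le (by omega)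
      omega
    · have := ne 0 rfl
      rw [rt_dn (i := 0) rfl, an] at h1
      rw [an] at this
      have h2 := (rt_up (i := 0)).1 h2
      have : G.A z.1 x ≤ G.A z.1 (z.2 - 1) := G.A_le (by omega)
      omega
    · obtain ⟨i, rfl⟩ := Nat.exists_eq_add_of_le (show z.1 + 1 ≤ n from e)
      rw [rt_up] at h1
      have h2 := (rt_up (i := i + 1)).1 h2
      rw [lr_cut h3 hg] at h2
      have := (G.A_lt _).le_iff_le.1 (h2.trans h')
      obtain rfl : x = G.lr (G.nb z g) i - 1 := by omega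
      exact ⟨i, rfl, Or.inr (Prod.ext rfl (by simp only [la, lr_cut h3 hg]; omega))⟩
  · exfalso
    rcases lt_trichotomy m z.1 with e | rfl | e
    · obtain ⟨i, e⟩ := Nat.exists_eq_add_of_le (show m + 1 ≤ z.1 from e)
      have e' : z.1 = m + (i + 1) := by omega
      have := ne _ e
      rw [rt_dn e', an_succ e'] at h2
      rw [rt_dn e] at h1
      have := G.lp_spec m (G.an z i)
      have : G.A m (G.lp m (G.an z i)) ≤ G.A m (y - 1) := G.A_le (by omega)
      omega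
    · rw [rt_dn (i := 0) rfl, an] at h2
      have : G.A z.1 z.2 ≤ G.A z.1 (y - 1) := G.A_le (by omega)
      exact h1 ((rt_up (i := 0)).2 (by omega))
    · obtain ⟨i, rfl⟩ := Nat.exists_eq_add_of_le (show z.1 + 1 ≤ m from e)
      rw [rt_up] at h2
      exact h1 ((rt_up (i := i + 1)).2 (by
        rw [lr_cut h3 hg]; exact (G.A_le (by omega)).trans h))

variable (G) in
open Classical in
noncomputable def sd (z : Pt) (g : ℕ) (v : Pt) : ℤ := if G.Rt z g v then 1 else 0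

variable (G W) in
open Classical in
/-- the crossing number of a step -/
noncomputable def chi (z : Pt) (g : ℕ) (u v : Pt) : ℤ :=
  if Wz W z u ∨ Wz W z v then 0 else G.sd z g v - G.sd z g u

open Classical in
theorem TubeOK.cnt (hW : G.TubeOK W c) (h3 : 3 ≤ g) (hg : g ≤ G.gap z + 2) {u v : Pt}
    (h : G.Adj u v) {I : ℕ} (hI : u.1 ≤ z.1 + I) :
    (∑ i ∈ Finset.range I, ((if u = G.mu z g i ∧ v = G.la z g i then 1 else 0) +
      if u = G.mu z g i ∧ v = G.la z g (i + 1) then 1 else 0) : ℤ) =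
      if ¬Wz W z u ∧ ¬Wz W z v ∧ ¬G.Rt z g u ∧ G.Rt z g v then 1 else 0 := by
  split_ifs with e
  · obtain ⟨i, rfl, e'⟩ := hW.cross h3 hg h e.1 e.2.1 e.2.2.1 e.2.2.2
    rw [Finset.sum_eq_single_of_mem i (Finset.mem_range.2 (by simp only [mu] at hI; omega))]
    · rcases e' with rfl | rfl <;> simp [la]
    · intro j _ hj
      simp [mu, hj.symm]
  · refine Finset.sum_eq_zero fun i _ => ?_
    have k1 : ∀ j, ¬Wz W z (G.la z g j) := fun j e => by
      have := hW.wz_le e; simp only [la] at this; omega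
    have k2 : ¬Wz W z (G.mu z g i) := fun e => by have := hW.wz_le e; simp only [mu] at this; omega
    have k3 : ¬G.Rt z g (G.mu z g i) := fun e => by have := rt_up.1 e; omega
    rw [if_neg, if_neg, add_zero] <;> rintro ⟨rfl, rfl⟩ <;>
      exact e ⟨k2, k1 _, k3, rt_up.2 le_rfl⟩

theorem TubeOK.cnt' (hW : G.TubeOK W c) (h3 : 3 ≤ g) (hg : g ≤ G.gap z + 2) {u v : Pt}
    (h : G.Adj u v) {I : ℕ} (hu : u.1 ≤ z.1 + I) (hv : v.1 ≤ z.1 + I) :
    ∑ i ∈ Finset.range I, (dd u v (G.mu z g i) (G.la z g i) +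
      dd u v (G.mu z g i) (G.la z g (i + 1))) = G.chi W z g u v := by
  classical
  have h1 := hW.cnt h3 hg h hu
  have h2 := hW.cnt h3 hg h.symm hv
  have : G.chi W z g u v = _ - _ := Eq.trans ?_ (congrArg₂ (· - ·) h1 h2).symm
  · rw [this, ← Finset.sum_sub_distrib]
    refine Finset.sum_congr rfl fun i _ => ?_
    simp only [dd, and_comm (a := v = _)]
    ring_nf
  · unfold chi sd
    grind

end Grid

namespace Emb
variable {V : Type} {G : Grid} {T : PlaneTri V} (E : Emb G T) {W : Pt → Pt → Prop} {c : Pt → ℕ}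
  {F : ℕ → Pt} {M N g : ℕ} {n : V → V → ℤ} {o z : Pt}

theorem dd_eq {u v a b : Pt} (hu : G.Cn 1 (0, 0) u) (hv : G.Cn 1 (0, 0) v) (ha : G.Cn 1 (0, 0) a)
    (hb : G.Cn 1 (0, 0) b) : dd (E.π u) (E.π v) (E.π a) (E.π b) = dd u v a b := by
  have := fun x y hx hy => (⟨E.inj x y hx hy, congrArg E.π⟩ : E.π x = E.π y ↔ x = y)
  simp only [dd, this _ _ hu ha, this _ _ hu hb, this _ _ hv ha, this _ _ hv hb]
  congr

theorem stokes (hW : G.TubeOK W c) (h : T.Cy (fun i => E.π (F i)) M)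
    (hn : T.Wn n (pc (fun i => E.π (F i)) 0 M)) (h1 : 2 ≤ o.1) (h0 : G.Cn 0 (0, 0) o)
    (hF : ∀ i ≤ M, G.Hm o N (F i)) (hA : ∀ i < M, G.Adj (F i) (F (i + 1))) (hz : G.Hm o N z)
    (h3 : 3 ≤ g) (hg : g ≤ G.gap z + 2) :
    n (E.π z) (E.π (G.lk z (g - 1))) = ∑ t ∈ Finset.Ico 0 M, G.chi W z g (F t) (F (t + 1)) := by
  have hz1 := hz.1.1
  have l1 : ∀ i, 1 ≤ (G.la z g i).1 := fun i => by simp only [Grid.la]; omega
  have k1 : ∀ i, G.lk (G.la z g i) 1 = G.mu z g i := fun i => by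
    rw [Grid.lk_eq (by have := G.seven_le (G.la z g i); omega), G.nb_one]; rfl
  have k2 : ∀ i, G.lk (G.la z g i) (1 + 1) = G.la z g (i + 1) := fun i => by
    rw [Grid.lk_eq (by have := G.seven_le (G.la z g i); omega), G.nb_ch _ le_rfl (by omega)]
    simp [Grid.la, Grid.lr_cut h3 hg, add_assoc]
  have k0 : ∀ i, G.lk (G.la z g (i + 1)) 0 = G.mu z g i := fun i => by
    rw [Grid.lk_eq (by have := G.seven_le (G.la z g (i + 1)); omega), G.nb_zero]
    simp only [Grid.la, Grid.mu, Grid.lr_cut h3 hg, ← add_assoc, Nat.add_sub_cancel]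
    rw [G.lp_eq (G.A_pred _ _) le_rfl]
  have c1 : ∀ i, G.Cn 0 (0, 0) (G.la z g i) := fun i => by
    refine Grid.cone_trans (Grid.cone_child (Grid.cone_trans h0 hz.1) (u := G.nb z g) ?_ ?_) ?_
    · rw [G.nb_ch z (by omega) hg]
    · have := G.gap_eq z
      rw [G.nb_ch z (by omega) hg, Grid.Ch]
      simp only
      omega
    · have := Grid.cone_le (G := G) (G.nb z g) i
      rw [Grid.la, show z.1 + 1 = (G.nb z g).1 by rw [G.nb_ch z (by omega) hg]]
      exact Grid.cone_iff.2 ⟨by omega, by omega⟩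
  have c2 : ∀ i, G.Cn 1 (0, 0) (G.mu z g i) := fun i =>
    Grid.cone_nb (c1 i) (Nat.zero_le _) (k1 i ▸ Grid.adj_lk (l1 i) 1)
  have step : ∀ I, n (E.π (G.mu z g 0)) (E.π (G.la z g 0)) = ∑ i ∈ Finset.range I,
      (pc (fun i => E.π (F i)) 0 M (E.π (G.mu z g i)) (E.π (G.la z g i)) +
        pc (fun i => E.π (F i)) 0 M (E.π (G.mu z g i)) (E.π (G.la z g (i + 1)))) +
      n (E.π (G.mu z g I)) (E.π (G.la z g I)) := fun I => by
    induction I with
    | zero => simp
    | succ i ih =>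
      have a1 := E.adj_lk (l1 i) 1
      have a2 := E.adj_lk (l1 (i + 1)) 0
      have b1 := hn.face _ _ a1
      have b2 := hn.back a2 0
      rw [← rot_one, E.rot_lk (l1 i), k1, k2] at b1
      rw [E.rot_lk (l1 _), E.rot_lk (l1 _), k0, zero_add, zero_add, k1] at b2
      rw [k1] at a1
      rw [k0] at a2
      rw [Finset.sum_range_succ, ih, ← hn.bd _ _ a1.symm, ← hn.bd _ _ a2.symm, b1, b2]
      ring
  have e0 := hn.face _ _ (E.adj_lk (v := z) (by omega) (g - 1))
  have hd : g < G.dg z := by unfold Grid.dg; omega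
  rw [← rot_one, E.rot_lk (by omega), show g - 1 + 1 = g by omega] at e0
  have e1 : G.lk z g = G.la z g 0 := by
    rw [Grid.lk_eq hd, Grid.la, Grid.lr, G.nb_ch z (by omega) hg]
  have e2 : G.lk z (g - 1) = G.mu z g 0 := by
    rw [Grid.lk_eq (by omega), Grid.mu, Grid.lr, G.nb_ch z (by omega) hg,
      G.nb_ch z (by omega) (by omega)]
    exact Prod.ext rfl (by simp only; omega)
  have e3 : n (E.π (G.mu z g N)) (E.π (G.la z g N)) = 0 := by
    rcases E.inside h hn h1 h0 (fun a ⟨i, hi, e⟩ => ⟨_, hF i hi.le, e⟩) (E.π (G.mu z g N)) with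
      ⟨u, u1, u2⟩ | e
    · have e1 := E.lev u
      have := u1.2
      rw [u2, E.lev] at e1
      simp only [Grid.mu] at e1
      omega
    · exact e _ (k1 N ▸ E.adj_lk (l1 N) 1).symm
  rw [← e0, e1, e2, step N, e3, add_zero]
  simp only [pc, ← Finset.sum_add_distrib]
  rw [Finset.sum_comm]
  refine Finset.sum_congr rfl fun t ht => ?_
  have ht := (Finset.mem_Ico.1 ht).2
  have f1 := hF t ht.le
  have f2 := hF (t + 1) ht
  rw [← hW.cnt' h3 hg (hA t ht) (I := N) (by have := f1.2; omega) (by have := f2.2; omega)]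
  refine Finset.sum_congr rfl fun i _ => ?_
  have f1 := Grid.cone_one (Grid.cone_trans h0 f1.1)
  have f2 := Grid.cone_one (Grid.cone_trans h0 f2.1)
  rw [E.dd_eq f1 f2 (c2 i) (Grid.cone_one (c1 _)), E.dd_eq f1 f2 (c2 i) (Grid.cone_one (c1 _))]

end Emb
end Pool.Agent.P.MP_e4ac67_pr.Gr
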