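import Pool.Agent.P.MP_e4ac67_pr.A.Arc

/-! The topological theorem: a failure of the coupling produces a marked arc. -/

namespace Pool.Agent.P.MP_e4ac67_pr.Gr
open PlaneTri Grid

variable {G : Grid} {V V' : Type} {T : PlaneTri V} {T' : PlaneTri V'} {W : Pt → Pt → Prop}
  {c : Pt → ℕ} {k N g : ℕ} {ψ : Pt → V'} {o top z t : Pt} {L R st w : List Pt} {n : V → V → ℤ}

namespace Ctx
variable {E : Emb G T} (Y : Ctx T' W c k N ψ o top L R st n E)
include Y

theorem bonus (Z : G.Zd W c k N o top L R st z g) (hn : n (E.π z) (E.π (G.lk z (g - 1))) = 1) :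
    G.Hm o N (G.nb z (c z)) ∧ z ∉ st := by
  have hz : 1 ≤ z.1 := by have := Y.F.lev Z.hm; omega
  have h := Y.cl_lk hz hn
  have := Y.hW.cp z
  have := G.seven_le z
  refine ⟨by_contra fun e => ?_, Y.not_st h.1⟩
  have h0 := E.out (Y.F.cy E) Y.wn Y.F.root.1 Y.F.root.2 Y.hK Z.hm (adj_nb hz (by omega)) e
  obtain ⟨w, h1, h2⟩ : T.Cl n (E.π (G.nb z (c z))) := by
    rw [← lk_eq (by omega)]
    rcases Z.cut with rfl | rfl
    · exact (show c z - 1 + 1 = c z by omega) ▸ h.2.2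
    · exact h.2.1
  have := h0 w h1
  omega

theorem face {i j : ℕ} (hi : i < (cl L R top).length) (hj : j < (cl L R top).length)
    (e : cyc L R top (j + 1) = cyc L R top i) (ez : cyc L R top i = z) (bk : G.Bk W c k z t w)
    (co : G.Cor W c k z (t :: w) (cyc L R top (i + 1)) (cyc L R top j)) :
    n (E.π z) (E.π (G.lk z (G.gc W c k z (t :: w) - 1))) = 1 := by
  have := bk.le
  have := bk.ge
  have := bk.lt
  have := bk.two
  rw [Y.corner hi hj e ez (by omega), if_pos (co _ (by omega) (by omega))]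

omit Y in
theorem zd (hz : G.Hm o N z) (hk : k < G.dg z) (S : G.Spec W c k top L R st z t w)
    (hx : (L.headD top = z → R.headD top ≠ G.nb z (c z)) ∧
      (R.headD top = z → L.headD top ≠ G.nb z (c z))) :
    G.Zd W c k N o top L R st z (G.gc W c k z (t :: w)) := by
  refine ⟨hz, hk, by unfold gc; split_ifs <;> simp, S.noc, fun B hB t' w' h _ => ?_, hx⟩
  obtain ⟨rfl, rfl⟩ := List.cons.inj (S.uq B hB _ h)
  exact ⟨S.bk, rfl⟩

theorem found (h : T.Found T' k (fun i => E.π (cyc L R top i)) (cl L R top).length n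
    (fun i => ψ (cyc L R top i)) (Sp G W c k top L R st)) :
    ∃ z, G.Hm o N z ∧ k < G.dg z ∧ G.Hm o N (G.nb z (c z)) ∧ z ∉ st ∧ z ≠ L.headD top ∧
      z ≠ R.headD top ∧ G.MArc W c k T' ψ z (L ++ top :: st) (R ++ top :: st) (top :: st) := by
  have e0 := cl_len (L := L) (R := R) (top := top)
  obtain ⟨a, hk, sk, sk2, h | ⟨i, hi, rfl, ⟨t, w, S, co⟩, nr⟩⟩ := h.out Y.dev
  · obtain ⟨x, hx, -⟩ := exists_up E.h6 a a
    obtain ⟨z, hz, rfl⟩ := (E.inside (Y.F.cy E) Y.wn Y.F.root.1 Y.F.root.2 Y.hK a).resolve_right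
      fun e => by have := e x hx; have := h x hx; omega
    have h1 : 1 ≤ z.1 := by have := Y.F.lev hz; omega
    have zc : z ∉ cl L R top := fun e => by
      obtain ⟨j, j1, j2⟩ := cyc_ex e
      exact Y.wn.not_inn E.h6 (Y.F.cy E) ⟨j, j1, congrArg E.π j2⟩ h
    have zs := Y.not_st ⟨x, hx, h x hx⟩
    have n1 : z ≠ L.headD top := fun e => zc (e ▸ cyc_last (R := R) ▸ cyc_mem (by omega))
    have n2 : z ≠ R.headD top := fun e => zc (e ▸ cyc_zero (L := L) ▸ cyc_mem (by omega))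
    have Z : G.Zd W c k N o top L R st z (c z) := ⟨hz, E.deg z h1 ▸ hk, Or.inl rfl,
      fun B hB u w' s => absurd (Fail.mem hB (s.subset (by simp)) zs) zc,
      fun B hB u w' s => absurd (Fail.mem hB (s.subset (by simp)) zs) zc,
      fun e => absurd e.symm n1, fun e => absurd e.symm n2⟩
    have hn := h _ (E.adj_lk h1 (c z - 1))
    exact ⟨z, hz, Z.ex, (Y.bonus Z hn).1, zs, n1, n2, Y.arc Z hn sk sk2 (Or.inl h)⟩
  · have hz := Y.F.hF (i := i + 1) (by omega)
    have h1 : 1 ≤ (cyc L R top (i + 1)).1 := by have := Y.F.lev hz; omega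
    have n1 : cyc L R top (i + 1) ≠ L.headD top := fun e => by
      have := Y.F.inj' (by omega) (by omega) (e.trans cyc_last.symm); omega
    have n2 : cyc L R top (i + 1) ≠ R.headD top := fun e => by
      have := Y.F.inj' (by omega) (by omega) (e.trans cyc_zero.symm); omega
    have Z := zd hz (E.deg _ h1 ▸ hk) S ⟨fun e => absurd e.symm n1, fun e => absurd e.symm n2⟩
    have hn := Y.face (i := i + 1) (j := i) (by omega) (by omega) rfl rfl S.bk co
    refine ⟨_, hz, Z.ex, (Y.bonus Z hn).1, (Y.bonus Z hn).2, n1, n2, Y.arc Z hn sk sk2 (Or.inr ?_)⟩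
    obtain ⟨C₁, C₂, e, rfl⟩ := cyc_split (L := L) (R := R) (top := top) (t := i) (by omega)
    obtain _ | ⟨a, _ | ⟨b, C₂⟩⟩ := C₂
    · rw [e] at hi; simp at hi
    · rw [e] at hi; simp at hi
    have e1 : cyc L R top (C₁.length + 1) = a := cyc_next e
    have e2 := cyc_next (C₁ := C₁ ++ [cyc L R top C₁.length]) (v := a) (C₂ := b :: C₂)
      (e.trans (by simp))
    simp only [List.length_append, List.length_singleton, List.headD_cons] at e2
    refine ⟨C₁, _, b, C₂, t, w, e1 ▸ e, S.bk, e2 ▸ co, rfl, fun u hu a1 a2 => ?_⟩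
    obtain ⟨j, j1, rfl⟩ := cyc_ex hu
    exact nr j j1 (E.adj h1 a1) a2

theorem endL {B : List Pt} {y' : V'} (hL : L = z :: B)
    (hs : G.Stp W c k T' ψ z (B ++ top :: st) (R.headD top) y')
    (hv : k < G.dg z → ¬G.Viol W c k z (B ++ top :: st) z) (hy : ∀ v ∈ cl L R top, ψ v ≠ y') :
    ∃ z, G.Hm o N z ∧ k < G.dg z ∧ G.Hm o N (G.nb z (c z)) ∧ z ∉ st ∧ z ≠ R.headD top ∧
      G.MArc W c k T' ψ z (L ++ top :: st) (R ++ top :: st) (top :: st) := by
  have e0 := cl_len (L := L) (R := R) (top := top)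
  have := Y.three
  obtain ⟨C₁, e⟩ : ∃ C₁, cl L R top = C₁ ++ [B.headD top, z] := by
    cases B with
    | nil => exact ⟨R, by simp [cl, hL]⟩
    | cons a B => exact ⟨R ++ top :: B.reverse, by simp [cl, hL]⟩
  have eM : (cl L R top).length = C₁.length + 2 := by simp [e]
  have i1 := cyc_at e
  have i2 : cyc L R top (C₁.length + 1) = z := cyc_next e
  have i3 : cyc L R top (C₁.length + 1 + 1) = R.headD top := eM ▸ cyc_len
  have hz := Y.F.brP.real z (by simp [hL])
  have h1 : 1 ≤ z.1 := by have := Y.F.lev hz; omega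
  have eB := head_eq B top st
  have sp := fun hk => Y.F.spec Y.hW Y.h7 (l := []) hL eB hk (eB ▸ hv hk)
  have a1 : G.Adj z (B.headD top) := Y.F.brP.adj ⟨[], by rw [hL, ← eB]; rfl⟩
  have a2 : G.Adj z (R.headD top) := by have := Y.F.close; rwa [hL] at this
  have a3 := (List.isChain_iff_forall_rel_of_append_cons_cons.1 Y.chain' e).symm
  rw [eB] at hs
  have tn := E.turnL Y.hT' hs (Y.le h1) h1 a1 a3 fun hk => (sp hk).bk
  have D := Y.dev
  rw [eM] at D
  rcases D.skipL (y := y') (by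
      obtain ⟨a, -, -, -, rfl⟩ := hs
      simpa only [i2, List.headD_cons] using adj_rot a3 a) (fun i hi => hy _ (cyc_mem (by omega)))
    (by simpa only [i1, i2, cyc_zero] using tn) with h | ⟨co, hk, h⟩
  · obtain ⟨z, h1, h2, h3, h4, -, h5⟩ := Y.found (eM ▸ h)
    exact ⟨z, h1, h2, h3, h4, h5⟩
  simp only [i2, cyc_zero, E.deg z h1] at hk h
  have S := sp hk
  have Z := zd hz hk S ⟨fun _ => hs.ne Y.hW Y.h7 hk h1 a1 S.bk, fun e => absurd e a2.ne.symm⟩
  have hn := Y.face (i := C₁.length + 1) (j := C₁.length) (by omega) (by omega) rfl i2 S.bk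
    (by rwa [i1, i3])
  have hc := fun s => Y.corner (s := s) (i := C₁.length + 1) (j := C₁.length) (by omega) (by omega)
    rfl i2
  refine ⟨z, hz, hk, (Y.bonus Z hn).1, (Y.bonus Z hn).2, a2.ne, ?_⟩
  obtain ⟨f, l, cr, dj, -⟩ := Y.cross Z hn
  have b1 : itr W z (L ++ top :: st) = [] := hL ▸ itr_neg (Or.inl rfl)
  have b2 : bas W z (L ++ top :: st) = z := hL ▸ bas_neg (Or.inl rfl)
  have b3 : bas W z (R ++ top :: st) ≠ z := fun e => by
    obtain ⟨r, e', -⟩ := itr_bas (Y.F.base (w := R ++ top :: st) Y.hW hz ⟨R ++ [top], by simp⟩)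
    rw [e] at e'
    exact Y.F.disj (v := z) (by simp [hL]) (by rw [e']; simp)
  obtain rfl : R.headD top = f := by
    have := cr.fst
    rw [b1, head_eq] at this
    by_cases e : Wz W z (R.headD top)
    · rw [itr_neg e] at this; simp at this
    · rw [itr_pos e] at this; exact Option.some.inj this
  have p1 := Y.hW.left (gap_ge Y.h7 hk) h1 a2 cr.not.1 (Or.inl rfl)
  have p2 := mt p1.2.2.2 cr.left
  have p3 := Y.hW.hi_def h1 b3 l
  have p4 := Y.hW.cp z
  have p5 : G.dg z ≤ G.gap z + 5 := by have := G.tau_le z; unfold Grid.dg; omega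
  have h7 := Y.h7
  obtain ⟨p, q, -, -, -, -, w5, w6, w7, -, -, w10, -⟩ := win_arith (zL := True) (zR := False)
    (lo := G.ps z (R.headD top)) (hi := G.dg z) (ps_spec h1 a2).1 (ps_spec h1 a1).1 hk h7 p4 Z.cut S.bk.two S.bk.le S.bk.ge co
    (by simp) (fun _ => ⟨rfl, by omega⟩) (by simp) (by simp) le_rfl
  have := S.bk.two
  have := w10 trivial
  refine ⟨_, l, _, _, rfl, rfl, cr, dj, fun e => absurd e b3, fun _ i _ _ h => by simp [b1] at h,
    Or.inl ⟨G.ps z (R.headD top) + (G.dg z - k), ?_, by omega, by simp [b1], fun h' => h ?_,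
      fun e => ⟨by simp [b1], fun _ => ⟨b2, b1, ?_⟩, by simp [b1]⟩⟩⟩
  · rw [Grid.lo, if_pos b2]; omega
  · rw [i1, i3] at hc
    obtain ⟨j, j1, j2⟩ := cyc_ex (Fail.mem (Or.inr rfl) (itr_sub h') (Y.not_st (Y.cl_lk h1 (by
      rw [hc _ (by omega), if_pos (w7 _ (by omega) (by omega))])).2.1))
    exact ⟨j, eM ▸ j1, by simp only [j2]; rw [← E.rot_lk h1, lk_ps h1 a2]⟩
  · rw [Grid.lo, if_pos b2]; omega

theorem endR {B : List Pt} {y' : V'} (hR : R = z :: B)
    (hs : G.Stp W c k T' ψ z (B ++ top :: st) (L.headD top) y')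
    (hv : k < G.dg z → ¬G.Viol W c k z (B ++ top :: st) z) (hy : ∀ v ∈ cl L R top, ψ v ≠ y') :
    ∃ z, G.Hm o N z ∧ k < G.dg z ∧ G.Hm o N (G.nb z (c z)) ∧ z ∉ st ∧ z ≠ L.headD top ∧
      G.MArc W c k T' ψ z (L ++ top :: st) (R ++ top :: st) (top :: st) := by
  have eM := cl_len (L := L) (R := R) (top := top)
  have := Y.three
  have i1 : cyc L R top (R.length + L.length) = L.headD top := cyc_last
  have i2 : cyc L R top 0 = z := by rw [cyc_zero, hR]; rfl
  have i3 : cyc L R top (0 + 1) = B.headD top := by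
    have := cyc_next (L := L) (R := R) (top := top) (C₁ := []) (v := z)
      (C₂ := B ++ top :: L.reverse) (by simp [cl, hR])
    cases B <;> exact this
  have i4 : cyc L R top (R.length + L.length + 1) = cyc L R top 0 := by
    rw [← eM, cyc_len, cyc_zero]
  have hz := Y.F.brQ.real z (by simp [hR])
  have h1 : 1 ≤ z.1 := by have := Y.F.lev hz; omega
  have eB := head_eq B top st
  have sp := fun hk => (Y.F.symm.spec Y.hW Y.h7 (l := []) hR eB hk (eB ▸ hv hk)).symm
  have a1 : G.Adj z (B.headD top) := Y.F.brQ.adj ⟨[], by rw [hR, ← eB]; rfl⟩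
  have a2 : G.Adj z (L.headD top) := by have := Y.F.close.symm; rwa [hR] at this
  rw [eB] at hs
  have tn := E.turnR hs (Y.le h1) h1 a1 fun hk => (sp hk).bk
  have D := Y.dev
  rw [eM] at D
  rcases D.skipF (y := y') (fun i hi => hy _ (cyc_mem (by omega)))
    (by simpa only [i1, i2, show cyc L R top 1 = _ from i3] using tn) with h | ⟨co, hk, h⟩
  · obtain ⟨z, h1, h2, h3, h4, h5, -, h6⟩ := Y.found (eM ▸ h)
    exact ⟨z, h1, h2, h3, h4, h5, h6⟩
  simp only [i1, i2, show cyc L R top 1 = _ from i3, E.deg z h1, E.pos_ps h1 a1 a2] at hk h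
  have S := sp hk
  have Z := zd hz hk S ⟨fun e => absurd e a2.ne.symm, fun _ => hs.ne Y.hW Y.h7 hk h1 a1 S.bk⟩
  have hn := Y.face (i := 0) (j := R.length + L.length) (by omega) (by omega) i4 i2 S.bk
    (by rwa [i1, i3])
  have hc := fun s => Y.corner (s := s) (i := 0) (j := R.length + L.length) (by omega) (by omega)
    i4 i2
  refine ⟨z, hz, hk, (Y.bonus Z hn).1, (Y.bonus Z hn).2, a2.ne, ?_⟩
  obtain ⟨f, l, cr, dj, -⟩ := Y.cross Z hn
  have b1 : itr W z (R ++ top :: st) = [] := hR ▸ itr_neg (Or.inl rfl)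
  have b2 : bas W z (R ++ top :: st) = z := hR ▸ bas_neg (Or.inl rfl)
  have b3 : bas W z (L ++ top :: st) ≠ z := fun e => by
    obtain ⟨r, e', -⟩ := itr_bas (Y.F.base (w := L ++ top :: st) Y.hW hz ⟨L ++ [top], by simp⟩)
    rw [e] at e'
    exact Y.F.symm.disj (v := z) (by simp [hR]) (by rw [e']; simp)
  obtain rfl : L.headD top = l := by
    have := cr.lst
    rw [b1, head_eq, List.append_nil, List.getLast?_reverse] at this
    by_cases e : Wz W z (L.headD top)
    · rw [itr_neg e] at this; simp at this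
    · rw [itr_pos e] at this; exact Option.some.inj this
  have p1 := Y.hW.left (gap_ge Y.h7 hk) h1 a2 cr.not.2 (Or.inr rfl)
  have p2 := p1.2.2.1 cr.right
  have p3 := Y.hW.lo_def h1 b3 f
  have p4 := Y.hW.cp z
  have p5 := ps_spec h1 a1
  have p6 := ps_spec h1 a2
  have h7 := Y.h7
  obtain ⟨p, q, -, -, -, -, w5, -, w7, w8, -, -, w11⟩ := win_arith (zL := False) (zR := True)
    (lo := 0) p5.1 p6.1 hk h7 p4 Z.cut S.bk.two S.bk.le S.bk.ge co
    (by simp) (by simp) (by simp) (fun _ => ⟨rfl, by omega⟩) p6.1.le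
  have := S.bk.le
  have := S.bk.two
  have := Z.cut
  have c1 := co (G.ps z (L.headD top))
  have c2 : G.blk W c k z (B.headD top :: (B ++ top :: st).tail) + G.dg z ≤
      G.ps z (L.headD top) + k := by omega
  refine ⟨f, _, _, _, rfl, rfl, cr, dj, fun _ i _ _ h => by simp [b1] at h, fun e => absurd e b3,
    Or.inl ⟨G.ps z (L.headD top) - (G.dg z - k), by omega, ?_, fun h' => h ?_, by simp [b1],
      fun e => ⟨fun _ => ⟨b2, b1, ?_⟩, by simp [b1], by simp [b1]⟩⟩⟩
  · rw [Grid.hi, if_pos b2]; omega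
  · rw [i1, i3] at hc
    have c3 := w7 (G.ps z (L.headD top) - (G.dg z - k)) (by omega) (by have := w11 trivial; omega)
    obtain ⟨j, j1, j2⟩ := cyc_ex (Fail.mem (Or.inl rfl) (itr_sub h') (Y.not_st (Y.cl_lk h1 (by
      rw [hc _ (by omega), if_pos c3])).2.1))
    refine ⟨j, eM ▸ j1, ?_⟩
    simp only [j2]
    rw [← lk_ps h1 a1, E.rot_lk h1, lk_ps h1 a1, lk, lk, mod_two (by omega), mod_two (by
      unfold cy; split_ifs <;> omega)]
    congr 2
    unfold cy at c3 ⊢
    split_ifs at c3 ⊢ <;> omega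
  · rw [Grid.hi, if_pos b2]; omega

end Ctx

theorem Grid.Fail.orient (F : G.Fail W c k T' ψ o N L R top st) (E : Emb G T)
    (hW : G.TubeOK W c) (h7 : 7 ≤ k) (hk : ∀ v, k ≤ T.deg v) (hT' : ∀ v, T'.deg v = k) :
    ∃ n, Ctx T' W c k N ψ o top L R st n E ∨ Ctx T' W c k N ψ o top R L st n E := by
  obtain ⟨n, hn⟩ := exists_wn _ _ (F.cy E).adj (F.cy E).cl
  rcases hn.jordan E.h6 (F.cy E) (by have := F.three; rw [cl_len]; omega) with h | h
  · exact ⟨n, Or.inl ⟨hW, h7, hk, hT', F, hn, h.2⟩⟩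
  refine ⟨_, Or.inr ⟨hW, h7, hk, hT', F.symm, hn.neg.congr fun a b => ?_, h.2⟩⟩
  have key : ∀ L R : List Pt, pc (fun i => E.π (cyc L R top i)) 0 (cl L R top).length a b = _ :=
    fun L R => (X_sum (χ := fun u v => dd (E.π u) (E.π v) a b) top (cl L R top ++ [R.headD top])
      (by simp)).trans (X_cycle (fun u v => dd_rev _ _ a b) L R top)
  rw [key, key, dd_rev (E.π (L.headD top))]
  ring

theorem Grid.topo {P Q : List Pt} (E : Emb G T) (hW : G.TubeOK W c)
    (h7 : 7 ≤ k) (hk : ∀ v, k ≤ T.deg v) (hT' : ∀ v, T'.deg v = k)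
    (F : G.Fail W c k T' ψ o N P Q top st) (hm : G.Mode W c k T' ψ P Q top st) :
    ∃ z, G.Hm o N z ∧ k < G.dg z ∧ G.Hm o N (G.nb z (c z)) ∧ z ∉ st ∧ z ≠ Q.headD top ∧
      (¬T'.G.Adj (ψ (P.headD top)) (ψ (Q.headD top)) → z ≠ P.headD top) ∧
      (G.MArc W c k T' ψ z (P ++ top :: st) (Q ++ top :: st) (top :: st) ∨
        G.MArc W c k T' ψ z (Q ++ top :: st) (P ++ top :: st) (top :: st)) := by
  obtain ⟨n, hY⟩ := F.orient E hW h7 hk hT'
  by_cases h : T'.G.Adj (ψ (P.headD top)) (ψ (Q.headD top))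
  · obtain ⟨x, B, y', h1, h2, h3, h4⟩ := hm.resolve_right (not_not.2 h)
    rcases hY with Y | Y
    · obtain ⟨z, a1, a2, a3, a4, a5, a6⟩ := Y.endL h1 h2 h3 fun v hv => h4 v (cl_mem.1 hv)
      exact ⟨z, a1, a2, a3, a4, a5, fun e => absurd h e, Or.inl a6⟩
    · obtain ⟨z, a1, a2, a3, a4, a5, a6⟩ := Y.endR h1 h2 h3 fun v hv =>
        h4 v (by simp [cl] at hv ⊢; tauto)
      exact ⟨z, a1, a2, a3, a4, a5, fun e => absurd h e, Or.inr a6⟩
  · have key : ∀ {L R}, Ctx T' W c k N ψ o top L R st n E →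
        ¬T'.G.Adj (ψ (L.headD top)) (ψ (R.headD top)) → _ := fun {L R} Y e => Y.found (by
      have D := Y.dev
      rw [cl_len] at D ⊢
      exact D.skipB (by simpa only [cyc_last, cyc_zero] using e))
    rcases hY with Y | Y
    · obtain ⟨z, a1, a2, a3, a4, a5, a6, a7⟩ := key Y h
      exact ⟨z, a1, a2, a3, a4, a6, fun _ => a5, Or.inl a7⟩
    · obtain ⟨z, a1, a2, a3, a4, a5, a6, a7⟩ := key Y fun e => h e.symm
      exact ⟨z, a1, a2, a3, a4, a5, fun _ => a6, Or.inr a7⟩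

end Pool.Agent.P.MP_e4ac67_pr.Gr
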