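import Pool.Agent.P.MP_e4ac67_pr.A.Blk

/-! The combinatorics of the link of a special vertex. -/

namespace Pool.Agent.P.MP_e4ac67_pr.Gr

theorem window {D k lo hi p q B : ℕ} {late early iL iR S : ℕ → Prop} {zL zR : Prop}
    (h7 : 7 ≤ k) (hk : k < D) (h1 : lo ≤ p) (h2 : q ≤ hi) (h3 : p ≤ 4) (h4 : 3 ≤ q) (hpq : p < q)
    (hB : 2 ≤ B ∧ B ≤ 5) (hp : p + 1 ≤ B ∨ p ≤ 1) (hq : B + D ≤ q + k ∨ D ≤ q + 2)
    (skip : ∀ a b, p ≤ a → b ≤ q → a + D ≤ b + k → late a → early b →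
      (∀ i, a ≤ i → i ≤ b → late i ∨ early i) → False)
    (hL : ∀ i, p ≤ i → i ≤ q → iL i → late i ∧ ¬early i)
    (hR : ∀ i, p ≤ i → i ≤ q → iR i → early i ∧ ¬late i)
    (sL : ¬late p → p = lo ∧ lo ≤ 1) (sR : ¬early q → q = hi ∧ D ≤ hi + 2)
    (hzL : zL → p = lo ∧ late p) (hzR : zR → q = hi ∧ early q)
    (s2 : D = k + 1 → ∀ i, p < i → i < q → ¬late i → ¬early i → S i) :
    (∃ i, lo < i ∧ i < hi ∧ ¬iL i ∧ ¬iR i ∧ (D = k + 1 → ¬iL (i + 1) ∧ ¬iR (i - 1) ∧ S i)) ∨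
    (¬late p ∧ ¬iL (lo + 1) ∧ (D = k + 1 → ¬iL (lo + 2) ∧ (zR → ∀ i, lo < i → i < hi → ¬iL i))) ∨
    (¬early q ∧ ¬iR (hi - 1) ∧
      (D = k + 1 → ¬iR (hi - 2) ∧ (zL → ∀ i, lo < i → i < hi → ¬iR i))) := by
  classical
  refine or_iff_not_imp_left.2 fun hP => ?_
  by_cases e : D = k + 1
  · have key : ∀ a b, p ≤ a → b ≤ q → a < b → late a → early b → False := by
      intro a b a1 b1 ab a2 b2
      have r1 : late (Nat.findGreatest late (b - 1)) := Nat.findGreatest_spec (m := a) (by omega) a2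
      have r2 := Nat.findGreatest_le (P := late) (b - 1)
      have r3 : a ≤ Nat.findGreatest late (b - 1) := Nat.le_findGreatest (by omega) a2
      have r4 : ∀ i ≤ b - 1, late i → i ≤ Nat.findGreatest late (b - 1) :=
        fun i h h' => Nat.le_findGreatest h h'
      generalize Nat.findGreatest late (b - 1) = r at *
      have r5 : ¬early (r + 1) := fun h => skip r (r + 1) (by omega) (by omega) (by omega) r1 h
        fun i i1 i2 => by
          rcases (show i = r ∨ i = r + 1 by omega) with rfl | rfl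
          exacts [Or.inl r1, Or.inr h]
      have r6 : r + 1 ≠ b := fun h => r5 (h ▸ b2)
      have r7 : ¬late (r + 1) := fun h => by have := r4 _ (by omega) h; omega
      refine hP ⟨r + 1, by omega, by omega, fun h => r7 (hL _ (by omega) (by omega) h).1,
        fun h => r5 (hR _ (by omega) (by omega) h).1, fun _ => ⟨fun h => ?_,
          fun h => (hR r (by omega) (by omega) h).2 r1, s2 e _ (by omega) (by omega) r7 r5⟩⟩
      obtain ⟨h5, h6⟩ := hL _ (by omega) (by omega) h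
      have r8 : r + 1 + 1 ≠ b := fun h => h6 (h ▸ b2)
      have := r4 _ (by omega) h5
      omega
    by_cases c1 : late p
    · have c2 : ∀ i, p ≤ i → i ≤ q → ¬iR i := fun i i1 i2 h => by
        obtain ⟨h5, h6⟩ := hR i i1 i2 h
        exact key p i le_rfl i2 (i1.lt_of_ne fun h => h6 (h ▸ c1)) c1 h5
      have c3 := sR (key p q le_rfl le_rfl hpq c1)
      exact Or.inr ⟨key p q le_rfl le_rfl hpq c1, c2 _ (by omega) (by omega), fun _ =>
        ⟨c2 _ (by omega) (by omega), fun h i i1 i2 => c2 i (by have := hzL h; omega) (by omega)⟩⟩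
    have c2 := sL c1
    by_cases c3 : early q
    · have c4 : ∀ i, p ≤ i → i ≤ q → ¬iL i := fun i i1 i2 h => by
        obtain ⟨h5, h6⟩ := hL i i1 i2 h
        exact key i q i1 le_rfl (i2.lt_of_ne fun h => h6 (h ▸ c3)) h5 c3
      exact Or.inl ⟨c1, c4 _ (by omega) (by omega), fun _ => ⟨c4 _ (by omega) (by omega),
        fun h i i1 i2 => c4 i (by omega) (by have := hzR h; omega)⟩⟩
    have c4 := sR c3
    by_cases c5 : iL (lo + 1) ∨ iL (lo + 2)
    · obtain ⟨a, a1, a2, a3⟩ : ∃ a, p ≤ a ∧ a ≤ 3 ∧ late a := by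
        rcases c5 with h | h <;> exact ⟨_, by omega, by omega, (hL _ (by omega) (by omega) h).1⟩
      have c6 : ∀ i, 4 ≤ i → i ≤ q → ¬iR i := fun i i1 i2 h =>
        key a i a1 i2 (by omega) a3 (hR i (by omega) i2 h).1
      exact Or.inr ⟨c3, c6 _ (by omega) (by omega), fun _ => ⟨c6 _ (by omega) (by omega),
        fun h => absurd (hzL h).2 c1⟩⟩
    · exact Or.inl ⟨c1, fun h => c5 (Or.inl h), fun _ => ⟨fun h => c5 (Or.inr h),
        fun h => absurd (hzR h).2 c3⟩⟩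
  · by_contra hc
    have all : ∀ i, lo < i → i < hi → iL i ∨ iR i := fun i i1 i2 => by
      by_contra h
      exact hP ⟨i, i1, i2, fun h' => h (Or.inl h'), fun h' => h (Or.inr h'), fun h => absurd h e⟩
    obtain ⟨a, a1, a2, a3⟩ : ∃ a, p ≤ a ∧ (a + 1 ≤ B ∨ a ≤ 2) ∧ late a := by
      by_cases c1 : late p
      · exact ⟨p, le_rfl, by omega, c1⟩
      · have := sL c1
        refine ⟨lo + 1, by omega, by omega, (hL _ (by omega) (by omega) ?_).1⟩
        by_contra h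
        exact hc (Or.inl ⟨c1, h, fun h => absurd h e⟩)
    obtain ⟨b, b1, b2, b3⟩ : ∃ b, b ≤ q ∧ (B + D ≤ b + k ∨ D ≤ b + 3) ∧ early b := by
      by_cases c1 : early q
      · exact ⟨q, le_rfl, by omega, c1⟩
      · have := sR c1
        refine ⟨hi - 1, by omega, by omega, (hR _ (by omega) (by omega) ?_).1⟩
        by_contra h
        exact hc (Or.inr ⟨c1, h, fun h => absurd h e⟩)
    refine skip a b a1 b1 (by omega) a3 b3 fun i i1 i2 => ?_
    by_cases c1 : i = a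
    · exact Or.inl (c1 ▸ a3)
    by_cases c2 : i = b
    · exact Or.inr (c2 ▸ b3)
    exact (all i (by omega) (by omega)).imp (fun h => (hL i (by omega) (by omega) h).1)
      fun h => (hR i (by omega) (by omega) h).1

theorem win_arith {D k lo hi x y g B c : ℕ} {zL zR : Prop} (hx : x < D) (hy : y < D) (hk : k < D)
    (h7 : 7 ≤ k) (hc : c = 3 ∨ c = 4) (hg : g = c ∨ g = c + 1) (b1 : 2 ≤ B) (b2 : B ≤ g)
    (b3 : g + k ≤ B + D) (co : ∀ i, B ≤ i + 1 → i + k < B + D → cy D x i < cy D x y)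
    (l1 : ¬zL → lo ≤ 1) (l2 : zL → lo = x ∧ lo < c) (h1 : ¬zR → D ≤ hi + 2)
    (h2 : zR → hi = y ∧ c < hi) (hh : hi ≤ D) :
    ∃ p q, lo ≤ p ∧ q ≤ hi ∧ p < g ∧ g ≤ q ∧ (p + 1 ≤ B ∨ p ≤ 1) ∧ (B + D ≤ q + k ∨ D ≤ q + 2) ∧
      (∀ i, p ≤ i → i < q → cy D x i < cy D x y) ∧
      (p = x ∨ (p = lo ∧ ¬zL ∧ (zR → x < lo ∨ hi < x))) ∧
      (q = y ∨ (q = hi ∧ ¬zR ∧ (zL → y < lo ∨ hi < y))) ∧ (zL → p = lo) ∧ (zR → q = hi) := by
  have c1 := co (g - 1) (by omega) (by omega)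
  have c2 := co (x - 1)
  have c3 := co y
  clear co
  unfold cy at *
  refine ⟨if lo ≤ x ∧ x < g then x else lo, if g ≤ y ∧ y ≤ hi then y else hi, ?_, ?_, ?_, ?_, ?_, ?_,
    fun i i1 i2 => ?_, ?_, ?_, ?_, ?_⟩ <;> grind

end Pool.Agent.P.MP_e4ac67_pr.Gr
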