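import Pool.Agent.P.MP_e4ac67_pr.Geo

/-! Winding functions of closed walks. A face is described by any of the darts having it on
their left. -/

namespace Pool.Agent.P.MP_e4ac67_pr
namespace PlaneTri
variable {V : Type} {T : PlaneTri V}

open Classical in
/-- the signed multiplicity of the dart `a b` in the dart `x y` -/
noncomputable def dd (x y a b : V) : ℤ :=
  (if x = a ∧ y = b then 1 else 0) - (if x = b ∧ y = a then 1 else 0)

theorem dd_rev (x y a b : V) : dd y x a b = -dd x y a b := by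
  unfold dd; grind

theorem dd_swap (x y a b : V) : dd x y b a = -dd x y a b := by
  simp only [dd]; ring

/-- the chain of the path `f s, ..., f t` -/
noncomputable def pc (f : ℕ → V) (s t : ℕ) (a b : V) : ℤ :=
  ∑ i ∈ Finset.Ico s t, dd (f i) (f (i + 1)) a b

theorem pc_self (f : ℕ → V) (s : ℕ) (a b : V) : pc f s s a b = 0 := by simp [pc]

theorem pc_succ (f : ℕ → V) {s t : ℕ} (h : s ≤ t) (a b : V) :
    pc f s (t + 1) a b = pc f s t a b + dd (f t) (f (t + 1)) a b :=
  Finset.sum_Ico_succ_top h _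

theorem pc_add (f : ℕ → V) {s t u : ℕ} (h : s ≤ t) (h' : t ≤ u) (a b : V) :
    pc f s t a b + pc f t u a b = pc f s u a b := Finset.sum_Ico_consecutive _ h h'

theorem pc_one (f : ℕ → V) (s : ℕ) (a b : V) : pc f s (s + 1) a b = dd (f s) (f (s + 1)) a b := by
  rw [pc_succ f le_rfl, pc_self, zero_add]

theorem pc_shift {f g : ℕ → V} {s t s' : ℕ} (h : ∀ i, s ≤ i → i ≤ t → g i = f (i - s + s'))
    (hst : s ≤ t) (a b : V) : pc g s t a b = pc f s' (t - s + s') a b := by
  induction t, hst using Nat.le_induction with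
  | base => simp [pc_self]
  | succ t ht ih =>
    rw [pc_succ _ ht, ih fun i h1 h2 => h i h1 (by omega), show t + 1 - s + s' = t - s + s' + 1 by
      omega, pc_succ _ (by omega), h t ht (by omega), h (t + 1) (by omega) le_rfl,
      show t + 1 - s + s' = t - s + s' + 1 by omega]

theorem pc_swap (f : ℕ → V) (s t : ℕ) (a b : V) : pc f s t b a = -pc f s t a b := by
  simp only [pc, dd_swap _ _ a b, Finset.sum_neg_distrib]

variable (T) in
/-- `n` is a finitely supported function on faces with boundary `c` -/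
structure Wn (n : V → V → ℤ) (c : V → V → ℤ) : Prop where
  face : ∀ a b, T.G.Adj a b → n b (T.nx a b) = n a b
  fin : {x : V × V | T.G.Adj x.1 x.2 ∧ n x.1 x.2 ≠ 0}.Finite
  bd : ∀ a b, T.G.Adj a b → n a b - n b a = c a b

theorem Wn.zero : T.Wn (fun _ _ => 0) fun _ _ => 0 :=
  ⟨fun _ _ _ => rfl, by simp, fun _ _ _ => by simp⟩

theorem Wn.congr {n c c' : V → V → ℤ} (h : T.Wn n c) (e : ∀ a b, c' a b = c a b) : T.Wn n c' :=
  ⟨h.face, h.fin, fun a b hab => by rw [h.bd a b hab, e]⟩

theorem Wn.add {n c n' c' : V → V → ℤ} (h : T.Wn n c) (h' : T.Wn n' c') :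
    T.Wn (fun a b => n a b + n' a b) fun a b => c a b + c' a b := by
  refine ⟨fun a b hab => by rw [h.face a b hab, h'.face a b hab], ?_, fun a b hab => ?_⟩
  · refine (h.fin.union h'.fin).subset fun x hx => ?_
    by_cases e : n x.1 x.2 = 0
    · exact Or.inr ⟨hx.1, fun e' => hx.2 (by simp [e, e'])⟩
    · exact Or.inl ⟨hx.1, e⟩
  · rw [← h.bd a b hab, ← h'.bd a b hab]; ring

theorem Wn.neg {n c : V → V → ℤ} (h : T.Wn n c) :
    T.Wn (fun a b => -n a b) fun a b => -c a b :=
  ⟨fun a b hab => by rw [h.face a b hab], by simpa using h.fin,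
    fun a b hab => by rw [← h.bd a b hab]; ring⟩

open Classical in
/-- the indicator of the face on the left of `a b` -/
noncomputable def fi (T : PlaneTri V) (a b x y : V) : ℤ :=
  if (x = a ∧ y = b) ∨ (x = b ∧ y = T.nx a b) ∨ (x = T.nx a b ∧ y = a) then 1 else 0

theorem wn_fi {a b : V} (h : T.G.Adj a b) :
    T.Wn (T.fi a b) fun x y => dd a b x y + dd b (T.nx a b) x y + dd (T.nx a b) a x y := by
  have h1 := adj_nx1 h
  have h2 := adj_nx2 h
  have f1 : T.nx b (T.nx a b) = a := face1 h rfl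
  have f2 : T.nx (T.nx a b) a = b := face2 h rfl
  refine ⟨fun x y hxy => ?_, ?_, fun x y hxy => ?_⟩
  · have g : T.nx y (T.nx x y) = x := face1 hxy rfl
    classical
    unfold fi
    refine if_congr ⟨?_, ?_⟩ rfl rfl
    · rintro (⟨rfl, e⟩ | ⟨rfl, e⟩ | ⟨rfl, e⟩)
      · rw [e] at g; exact Or.inr (Or.inr ⟨g.symm, rfl⟩)
      · rw [e, f1] at g; exact Or.inl ⟨g.symm, rfl⟩
      · rw [e, f2] at g; exact Or.inr (Or.inl ⟨g.symm, rfl⟩)
    · rintro (⟨rfl, rfl⟩ | ⟨rfl, rfl⟩ | ⟨rfl, rfl⟩)
      · exact Or.inr (Or.inl ⟨rfl, rfl⟩)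
      · exact Or.inr (Or.inr ⟨rfl, f1⟩)
      · exact Or.inl ⟨rfl, f2⟩
  · refine (Set.toFinite {(a, b), (b, T.nx a b), (T.nx a b, a)}).subset fun x hx => ?_
    have := hx.2
    simp only [fi, ne_eq, ite_eq_right_iff, one_ne_zero, imp_false, not_not] at this
    simpa [Prod.ext_iff] using this
  · have n1 := h.ne
    have n2 := h1.ne
    have n3 := h2.ne
    simp only [fi, dd]
    generalize T.nx a b = u at *
    grind

/-- the chain of a vertex list -/
noncomputable def lc : List V → V → V → ℤ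
  | x :: y :: l, a, b => dd x y a b + lc (y :: l) a b
  | _, _, _ => 0

theorem lc_append (l : List V) (x : V) (r : List V) (a b : V) :
    lc (l ++ x :: r) a b = lc (l ++ [x]) a b + lc (x :: r) a b := by
  induction l with
  | nil => simp [lc]
  | cons y l ih =>
    obtain _ | ⟨z, l⟩ := l
    · simp [lc]
    · simp only [List.cons_append, lc] at ih ⊢
      rw [ih, add_assoc]

theorem exists_wn_eqv {l l' : List V} (h : Relation.EqvGen (Move T.G T.nx) l l') :
    ∃ n, T.Wn n fun a b => lc l a b - lc l' a b := by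
  induction h with
  | rel x y h =>
    cases h with
    | back l r a b h =>
      refine ⟨_, Wn.zero.congr fun x y => ?_⟩
      rw [lc_append, lc_append l a r, lc, lc, dd_rev a b]; ring
    | tri l r a b h =>
      refine ⟨_, (wn_fi h).congr fun x y => ?_⟩
      rw [lc_append, lc_append l a (_ :: r), lc, lc, lc, dd_rev a (T.nx a b)]; ring
  | refl => exact ⟨_, Wn.zero.congr fun _ _ => sub_self _⟩
  | symm _ _ _ ih => obtain ⟨n, h⟩ := ih; exact ⟨_, h.neg.congr fun _ _ => by ring⟩
  | trans _ _ _ _ _ ih ih' =>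
    obtain ⟨n, h⟩ := ih
    obtain ⟨n', h'⟩ := ih'
    exact ⟨_, (h.add h').congr fun _ _ => by ring⟩

theorem exists_walk_pc (f : ℕ → V) (m : ℕ) (h : ∀ i < m, T.G.Adj (f i) (f (i + 1))) :
    ∃ p : T.G.Walk (f 0) (f m), ∀ a b, lc p.support a b = pc f 0 m a b := by
  induction m with
  | zero => exact ⟨.nil, fun a b => by simp [lc, pc_self]⟩
  | succ m ih =>
    obtain ⟨p, hp⟩ := ih fun i hi => h i (by omega)
    refine ⟨p.concat (h m (by omega)), fun a b => ?_⟩
    obtain ⟨l, hl⟩ : ∃ l, p.support = l ++ [f m] :=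
      ⟨p.support.dropLast, (List.dropLast_append_getLast p.support_ne_nil).symm.trans
        (by rw [p.getLast_support])⟩
    rw [pc_succ _ (Nat.zero_le m), ← hp, SimpleGraph.Walk.support_concat, hl]
    simp only [List.append_assoc, List.cons_append, List.nil_append]
    rw [lc_append]
    simp [lc]

/-- every closed walk has a winding function -/
theorem exists_wn (f : ℕ → V) (m : ℕ) (h : ∀ i < m, T.G.Adj (f i) (f (i + 1))) (hc : f m = f 0) :
    ∃ n, T.Wn n (pc f 0 m) := by
  obtain ⟨p, hp⟩ := exists_walk_pc f m h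
  obtain ⟨n, hn⟩ := exists_wn_eqv (T.simplyConn (f 0) (p.copy rfl hc))
  exact ⟨n, hn.congr fun a b => by simp [lc, hp]⟩

/-- induction over darts -/
theorem dart_ind {P : V → V → Prop} (hf : ∀ a b, T.G.Adj a b → P a b → P b (T.nx a b))
    (hs : ∀ a b, T.G.Adj a b → P a b → P b a) {a b : V} (h : T.G.Adj a b) (hp : P a b) {x y : V}
    (hxy : T.G.Adj x y) : P x y := by
  have h1 : ∀ a b, T.G.Adj a b → P a b → P a (T.nx a b) := fun a b h hp => by
    have := hf _ _ (adj_nx2 h) (hf a b h hp)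
    rw [face1 h rfl] at this
    exact hs _ _ (adj_nx1 h).symm this
  have h2 : ∀ a b, T.G.Adj a b → P a b → ∀ c, T.G.Adj a c → P a c := fun a b h hp c hc => by
    obtain ⟨j, -, rfl⟩ := rot_surj h hc
    clear hc
    induction j with
    | zero => exact hp
    | succ j ih => rw [rot_succ]; exact h1 _ _ (adj_rot h j) ih
  obtain ⟨p⟩ := T.conn a x
  induction p generalizing b with
  | nil => exact h2 _ _ h hp _ hxy
  | cons h' p ih => exact ih h'.symm (hs _ _ h' (h2 _ _ h hp _ h')) hxy

theorem exists_up (h6 : ∀ v, 6 ≤ T.deg v) (o v : V) : ∃ w, T.G.Adj v w ∧ T.d o w = T.d o v + 1 := by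
  classical
  by_contra hc
  push Not at hc
  have h1 := st4 h6 o v
  rw [Finset.filter_true_of_mem, card_nbr] at h1
  · have := h6 v; omega
  · intro w hw
    have h2 := d_adj_le o (mem_nbr.1 hw)
    have := hc w (mem_nbr.1 hw)
    omega

theorem darts_infinite (h6 : ∀ v, 6 ≤ T.deg v) : {x : V × V | T.G.Adj x.1 x.2}.Infinite := by
  obtain ⟨o⟩ := T.conn.nonempty
  choose u hu hd using exists_up h6 o
  have h : ∀ i, T.d o (u^[i] o) = i := fun i => by
    induction i with
    | zero => exact d_self o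
    | succ i ih => rw [Function.iterate_succ_apply', hd, ih]
  refine Set.infinite_of_injective_forall_mem (f := fun i : ℕ => (u^[i] o, u (u^[i] o)))
    (fun i j e => ?_) fun i => hu _
  have e1 : u^[i] o = u^[j] o := (Prod.ext_iff.1 e).1
  rw [← h i, ← h j, e1]

theorem Wn.exists_zero (h6 : ∀ v, 6 ≤ T.deg v) {n c : V → V → ℤ} (h : T.Wn n c) :
    ∃ a b, T.G.Adj a b ∧ n a b = 0 := by
  by_contra hc
  push Not at hc
  exact darts_infinite h6 (h.fin.subset fun x hx => ⟨hx, hc _ _ hx⟩)

theorem Wn.unique (h6 : ∀ v, 6 ≤ T.deg v) {n n' c : V → V → ℤ} (h : T.Wn n c) (h' : T.Wn n' c)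
    {a b : V} (hab : T.G.Adj a b) : n a b = n' a b := by
  have h0 := h.add h'.neg
  obtain ⟨x, y, hxy, e⟩ := h0.exists_zero h6
  have := dart_ind (P := fun a b => n a b + -n' a b = 0)
    (fun a b h1 h2 => by rw [← h2]; exact h0.face a b h1)
    (fun a b h1 h2 => by have := h0.bd a b h1; omega) hxy e hab
  omega

/-- the jump between consecutive faces around a vertex -/
theorem Wn.step {n c : V → V → ℤ} (h : T.Wn n c) {v w : V} (hvw : T.G.Adj v w) :
    n v (T.nx v w) = n v w + c v (T.nx v w) := by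
  have h1 := h.face _ _ hvw
  have h2 := h.face _ _ (adj_nx2 hvw)
  rw [face1 hvw rfl] at h2
  have := h.bd _ _ (adj_nx1 hvw)
  omega

end PlaneTri
end Pool.Agent.P.MP_e4ac67_pr
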