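import Pool.Agent.P.MP_e4ac67_pr.A.Stokes

/-! Words, last arcs, blocks. -/

namespace Pool.Agent.P.MP_e4ac67_pr.Gr
open PlaneTri

/-- sum over consecutive pairs -/
def X (χ : Pt → Pt → ℤ) : List Pt → ℤ
  | a :: b :: l => χ a b + X χ (b :: l)
  | _ => 0

section
variable {χ : Pt → Pt → ℤ}

theorem X_append (l : List Pt) (a : Pt) (r : List Pt) :
    X χ (l ++ a :: r) = X χ (l ++ [a]) + X χ (a :: r) := by
  induction l with
  | nil => simp [X]
  | cons y l ih =>
    obtain _ | ⟨z, l⟩ := l
    · simp [X]
    · simp only [List.cons_append, X] at ih ⊢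
      rw [ih, add_assoc]

theorem X_reverse (h : ∀ a b, χ a b = -χ b a) (l : List Pt) : X χ l.reverse = -X χ l := by
  induction l with
  | nil => rfl
  | cons a l ih =>
    obtain _ | ⟨b, l⟩ := l
    · rfl
    · rw [List.reverse_cons, List.reverse_cons, List.append_assoc, List.singleton_append, X_append,
        ← List.reverse_cons, ih]
      simp only [X, h b a]
      ring

theorem X_sum (d : Pt) (l : List Pt) {n : ℕ} (h : l.length = n + 1) :
    ∑ t ∈ Finset.Ico 0 n, χ (l.getD t d) (l.getD (t + 1) d) = X χ l := by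
  rw [← Finset.range_eq_Ico]
  induction n generalizing l with
  | zero =>
    obtain ⟨a, rfl⟩ := List.length_eq_one_iff.1 h
    rfl
  | succ n ih =>
    obtain _ | ⟨a, _ | ⟨b, l⟩⟩ := l
    · simp at h
    · simp at h
    · rw [Finset.sum_range_succ', X, ← ih (b :: l) (by simpa using h), add_comm]
      rfl

/-- the sum along the cycle made of two branches and the closing edge -/
theorem X_cycle (h : ∀ a b, χ a b = -χ b a) (L R : List Pt) (top : Pt) :
    X χ (R ++ top :: L.reverse ++ [R.headD top]) =
      X χ (R ++ [top]) - X χ (L ++ [top]) + χ (L.headD top) (R.headD top) := by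
  have e : top :: L.reverse = (L ++ [top]).reverse := by simp
  obtain ⟨l, hl⟩ : ∃ l, top :: L.reverse = l ++ [L.headD top] := by
    cases L with
    | nil => exact ⟨[], rfl⟩
    | cons a L => exact ⟨top :: L.reverse, by simp⟩
  rw [List.append_assoc, List.cons_append, X_append, ← List.cons_append, hl, List.append_assoc,
    List.singleton_append, X_append l, ← hl, e, X_reverse h]
  simp only [X]
  ring

end

namespace Grid
variable {G : Grid} {W : Pt → Pt → Prop} {c : Pt → ℕ} {k g : ℕ} {z v : Pt} {w : List Pt}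

theorem itr_pos (h : ¬Wz W z v) : itr W z (v :: w) = v :: itr W z w := by simp [itr, h]
theorem itr_neg (h : Wz W z v) : itr W z (v :: w) = [] := by simp [itr, h]
theorem bas_pos (h : ¬Wz W z v) : bas W z (v :: w) = bas W z w := by simp [bas, h]
theorem bas_neg (h : Wz W z v) : bas W z (v :: w) = v := by simp [bas, h]

theorem itr_not (h : v ∈ itr W z w) : ¬Wz W z v := by
  simpa using List.mem_takeWhile_imp h

theorem itr_sub (h : v ∈ itr W z w) : v ∈ w := (List.takeWhile_prefix _).subset h

theorem itr_bas (h : ∃ v ∈ w, Wz W z v) :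
    ∃ r, w = itr W z w ++ bas W z w :: r ∧ Wz W z (bas W z w) := by
  induction w with
  | nil => simp at h
  | cons a w ih =>
    by_cases e : Wz W z a
    · rw [itr_neg e, bas_neg e]; exact ⟨w, rfl, e⟩
    · obtain ⟨r, h1, h2⟩ := ih (by simpa [e] using h)
      rw [itr_pos e, bas_pos e]
      exact ⟨r, congrArg _ h1, h2⟩

theorem itr_append {l : List Pt} (h : ∀ v ∈ l, ¬Wz W z v) :
    itr W z (l ++ w) = l ++ itr W z w ∧ bas W z (l ++ w) = bas W z w := by
  induction l with
  | nil => exact ⟨rfl, rfl⟩
  | cons a l ih =>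
    have e := h a (by simp)
    have := ih fun v hv => h v (by simp [hv])
    rw [List.cons_append, itr_pos e, bas_pos e, this.1]
    exact ⟨rfl, this.2⟩

theorem itr_split {l : List Pt} (h : Wz W z v) : (∀ u ∈ itr W z (l ++ v :: w), u ∈ l) ∧
    bas W z (l ++ v :: w) ∈ l ++ [v] ∧ (bas W z (l ++ v :: w) ∉ l → itr W z (l ++ v :: w) = l) := by
  induction l with
  | nil => simp [itr_neg h, bas_neg h]
  | cons a l ih =>
    by_cases e : Wz W z a
    · simp [itr_neg e, bas_neg e]
    · rw [List.cons_append, itr_pos e, bas_pos e]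
      refine ⟨fun u hu => ?_, List.mem_cons_of_mem _ ih.2.1, fun e' => ?_⟩
      · rcases List.mem_cons.1 hu with rfl | hu
        exacts [by simp, by simp [ih.1 u hu]]
      · rw [ih.2.2 fun e'' => e' (by simp [e''])]

theorem itr_reach {l : List Pt} (h : v ∈ itr W z (l ++ w)) (hv : v ∉ l) :
    itr W z (l ++ w) = l ++ itr W z w ∧ itr W z w ≠ [] := by
  by_cases e : ∃ u ∈ l, Wz W z u
  · obtain ⟨u, h1, h2⟩ := e
    obtain ⟨l₁, l₂, rfl⟩ := List.append_of_mem h1
    rw [List.append_assoc, List.cons_append] at h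
    exact absurd (by simp [(itr_split h2).1 v h]) hv
  · have := (itr_append (w := w) (fun u h1 h2 => e ⟨u, h1, h2⟩)).1
    refine ⟨this, fun e' => hv ?_⟩
    rwa [this, e', List.append_nil] at h

variable (G W) in
/-- the crossing number of the last arc -/
noncomputable def Phi (z : Pt) (g : ℕ) (w : List Pt) : ℤ :=
  G.sd z g ((itr W z w).headD z) - G.sd z g ((itr W z w).getLastD z)

theorem chi_swap (a b : Pt) : G.chi W z g a b = -G.chi W z g b a := by
  unfold chi; grind

theorem Phi_step {u x : Pt} (h : Wz W z u → ¬Wz W z x → G.Phi W z g (x :: w) = 0) :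
    G.Phi W z g (u :: x :: w) = G.chi W z g x u + G.Phi W z g (x :: w) := by
  by_cases h1 : Wz W z u <;> by_cases h2 : Wz W z x
  · simp [Phi, chi, itr_neg h1, itr_neg h2, h1]
  · rw [h h1 h2]; simp [Phi, chi, itr_neg h1, h1]
  · simp [Phi, chi, itr_pos h1, itr_neg h2, h2]
  · simp [Phi, chi, itr_pos h1, itr_pos h2, h1, h2]

theorem Phi_tel (B : List Pt) {top : Pt} {st : List Pt} (h : ∀ u x w, u :: x :: w <:+ B ++ top :: st →
    top :: st <:+ x :: w → Wz W z u → ¬Wz W z x → G.Phi W z g (x :: w) = 0) :
    G.Phi W z g (B ++ top :: st) = G.Phi W z g (top :: st) - X (G.chi W z g) (B ++ [top]) := by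
  induction B with
  | nil => simp [X]
  | cons u B ih =>
    have ih := ih fun a x w e => h a x w (e.trans (List.suffix_cons _ _))
    obtain _ | ⟨x, B⟩ := B
    · have := Phi_step (h u top st List.suffix_rfl List.suffix_rfl)
      simp only [List.cons_append, List.nil_append, X, this, chi_swap top u]
      ring
    · have := Phi_step (h u x (B ++ top :: st) List.suffix_rfl (List.suffix_append (x :: B) _))
      simp only [List.cons_append, X, this, chi_swap x u] at ih ⊢
      rw [ih]
      ring

theorem cross_of {L R : List Pt} {x y : Pt}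
    (h : G.Phi W z g (x :: L) - G.Phi W z g (y :: R) + G.chi W z g x y = 1) :
    ∃ f l, ((itr W z (x :: L)).reverse ++ itr W z (y :: R)).head? = some f ∧
      ((itr W z (x :: L)).reverse ++ itr W z (y :: R)).getLast? = some l ∧
      ¬G.Rt z g f ∧ G.Rt z g l := by
  have key : ∀ f l, G.sd z g l - G.sd z g f = 1 → ¬G.Rt z g f ∧ G.Rt z g l := fun f l => by
    unfold sd; grind
  by_cases h1 : Wz W z x <;> by_cases h2 : Wz W z y
  · simp [Phi, chi, itr_neg h1, itr_neg h2, h1] at h
  · refine ⟨y, (y :: itr W z R).getLastD z, by simp [itr_neg h1, itr_pos h2],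
      by simp [itr_neg h1, itr_pos h2, List.getLast?_cons], key _ _ ?_⟩
    simp only [Phi, chi, itr_neg h1, itr_pos h2, h1, true_or, if_true, List.headD_cons,
      List.headD_nil, List.getLastD_nil] at h
    omega
  · refine ⟨(x :: itr W z L).getLastD z, x, by simp [itr_neg h2, itr_pos h1, List.getLast?_cons],
      by simp [itr_neg h2, itr_pos h1], key _ _ ?_⟩
    simp only [Phi, chi, itr_neg h2, itr_pos h1, h2, or_true, if_true, List.headD_cons,
      List.headD_nil, List.getLastD_nil] at h
    omega
  · refine ⟨(x :: itr W z L).getLastD z, (y :: itr W z R).getLastD z,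
      by simp [itr_pos h2, itr_pos h1, List.getLast?_cons],
      by simp [itr_pos h2, itr_pos h1, List.getLast?_cons], key _ _ ?_⟩
    simp only [Phi, chi, itr_pos h2, itr_pos h1, h1, h2, or_self, if_false, List.headD_cons] at h
    omega

end Grid
end Pool.Agent.P.MP_e4ac67_pr.Gr
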